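import Pool.Agent.V7H54.MainK

/-!
# The theorem for elliptic curves over `K`

After `N61/PF/Fin1.lean` (helper61).
-/

set_option autoImplicit false
set_option linter.all false

open Polynomial NumberField IsDedekindDomain
open scoped Classical

namespace Pool.Agent.V7H54

open Pool.Agent.N783.PF
open Pool.Agent.N61.PF (eq_pol fF_eq disc_ne crv_finite crv_upper ht_lower crv_of_ht exists_B)
open Pool.Agent.N874.PP (sW)
open Pool.Agent.TH115.GD (Pt)
open Pool.Agent.N874.QM (SelC ShaC SelM)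

/-- Over `K`: trivial 2-Selmer group, no 2-part in the Tate-Shafarevich group, finitely many points,
an odd number. -/
structure GoodK (F K : Type) [Field F] [NumberField F] [Field K] [NumberField K] [Algebra F K]
    (p : 𝓞 F × 𝓞 F) : Prop where
  sel : SelC (sW (algebraMap F K (p.1 : F)) (algebraMap F K (p.2 : F)))
  sha : ShaC (sW (algebraMap F K (p.1 : F)) (algebraMap F K (p.2 : F)))
  fin : Finite (Pt (sW (algebraMap F K (p.1 : F)) (algebraMap F K (p.2 : F))) K)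
  odd : Odd (Nat.card (Pt (sW (algebraMap F K (p.1 : F)) (algebraMap F K (p.2 : F))) K))

theorem good_ofK {F K : Type} [Field F] [NumberField F] [Field K] [NumberField K] [Algebra F K]
    (n : ℕ) (hn : Module.finrank F K = 2 ^ n) {B : ℕ} {f : (𝓞 F)[X]} (h : Ht 1 B f)
    (hirr : Irreducible (fF f)) (hsel : SelM K ((fF f).map (algebraMap F K))) :
    GoodK F K (f.coeff 1, f.coeff 0) := by
  have hirrK : Irreducible ((fF f).map (algebraMap F K)) :=
    irr_up hirr (h.mon.map _) (by rw [h.mon.natDegree_map, h.deg]; decide) hn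
  have e : (fF f).map (algebraMap F K) = X ^ 3 + C (algebraMap F K ((f.coeff 1 : 𝓞 F) : F)) * X +
      C (algebraMap F K ((f.coeff 0 : 𝓞 F) : F)) := by
    rw [fF_eq h]
    simp
  rw [e] at hirrK hsel
  have hd := disc_ne hirrK
  have hs := selc K _ _ hd hirrK hsel
  obtain ⟨hdiv, hsha⟩ := Pool.Agent.N713.QM.gfc K _ _ hd hs
  obtain ⟨hf, ho⟩ := Pool.Agent.N459.QM.finc K _ _ hd hdiv
  exact ⟨hs, hsha, hf, ho⟩

/-- **The theorem for elliptic curves.** -/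
theorem fin1K (F K : Type) [Field F] [NumberField F] [Field K] [NumberField K] [Algebra F K]
    [IsGalois F K] (n : ℕ) (hn : Module.finrank F K = 2 ^ n) (hH : S_H F K) :
    ∃ c : ℝ, 0 < c ∧ ∃ Y₀ : ℝ,
    ∀ Y : ℝ, {p : 𝓞 F × 𝓞 F | Crv Y p}.Finite ∧ (Y₀ ≤ Y → 0 < {p : 𝓞 F × 𝓞 F | Crv Y p}.ncard ∧
    c * ({p : 𝓞 F × 𝓞 F | Crv Y p}.ncard : ℝ) ≤
      ({p : 𝓞 F × 𝓞 F | Crv Y p ∧ GoodK F K p}.ncard : ℝ)) := by
  have h0 := Pool.Agent.N490.PF.pts
  obtain ⟨-, C, hC, hlow, hup⟩ := h0 F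
  obtain ⟨c, hc, B₀, hmain⟩ := mainK F K n hn hH
  set d := Module.finrank ℚ F with hd
  set B₁ : ℕ := max B₀ 1 with hB₁
  refine ⟨c / (C ^ 2 * (C ^ 2 * 2 ^ (6 * d + 2))), by positivity, 27 * (B₁ : ℝ) ^ 6, ?_⟩
  intro Y
  have hfin := crv_finite (F := F) h0 Y
  refine ⟨hfin, ?_⟩
  intro hY
  have hB₁1 : 1 ≤ B₁ := le_max_right _ _
  have hB₁r : (1 : ℝ) ≤ B₁ := by exact_mod_cast hB₁1
  have hY27 : 27 ≤ Y := by
    have : (1 : ℝ) ≤ (B₁ : ℝ) ^ 6 := one_le_pow₀ hB₁r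
    linarith
  obtain ⟨B, hBB, hBY, hYB⟩ := exists_B B₁ Y hB₁1 hY
  have hB1 : 1 ≤ B := hB₁1.trans hBB
  obtain ⟨hfinH, hprop⟩ := hmain B ((le_max_left _ _).trans hBB)
  constructor
  · rw [Set.ncard_pos hfin]
    refine ⟨(1, 1), ⟨?_, ?_, ?_⟩⟩
    · norm_num
    · intro 𝔭 hp _ hcon
      apply hp.ne_top
      rw [Ideal.eq_top_iff_one]
      exact Ideal.pow_le_self (by norm_num) hcon.1
    · intro σ
      constructor
      · simp; linarith
      · simp; linarith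
  · have hu := crv_upper hC hup hB1 hYB
    have hl := ht_lower hC hlow hB1 hfinH
    rw [← hd] at hu hl
    -- the good polynomials give good curves
    have h5 : ({f : (𝓞 F)[X] | Ht 1 B f ∧ Irreducible (fF f) ∧
        SelM K ((fF f).map (algebraMap F K)) ∧ Min 1 f}.ncard : ℝ) ≤
        ({p : 𝓞 F × 𝓞 F | Crv Y p ∧ GoodK F K p}.ncard : ℝ) := by
      have h6 := Set.ncard_le_ncard_of_injOn (fun f : (𝓞 F)[X] => (f.coeff 1, f.coeff 0))
        (s := {f : (𝓞 F)[X] | Ht 1 B f ∧ Irreducible (fF f) ∧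
          SelM K ((fF f).map (algebraMap F K)) ∧ Min 1 f})
        (t := {p : 𝓞 F × 𝓞 F | Crv Y p ∧ GoodK F K p})
        (fun f hf => ⟨crv_of_ht hf.1 hf.2.1 hf.2.2.2 hBY, good_ofK n hn hf.1 hf.2.1 hf.2.2.1⟩)
        (by
          intro f hf f' hf' h
          have e := Prod.mk.injEq .. ▸ h
          rw [eq_pol hf.1, eq_pol hf'.1, e.1, e.2])
        (hfin.subset fun p hp => hp.1)
      exact_mod_cast h6
    have hBd : 0 < (B : ℝ) ^ (5 * d) := by
      have : (0 : ℝ) < B := by exact_mod_cast hB1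
      positivity
    have h7 : ({p : 𝓞 F × 𝓞 F | Crv Y p}.ncard : ℝ) ≤
        (C ^ 2 * 2 ^ (6 * d + 2)) * (C ^ 2 * ({f : (𝓞 F)[X] | Ht 1 B f}.ncard : ℝ)) :=
      hu.trans (mul_le_mul_of_nonneg_left hl (by positivity))
    calc c / (C ^ 2 * (C ^ 2 * 2 ^ (6 * d + 2))) * ({p : 𝓞 F × 𝓞 F | Crv Y p}.ncard : ℝ)
        ≤ c / (C ^ 2 * (C ^ 2 * 2 ^ (6 * d + 2))) *
          ((C ^ 2 * 2 ^ (6 * d + 2)) * (C ^ 2 * ({f : (𝓞 F)[X] | Ht 1 B f}.ncard : ℝ))) :=
          mul_le_mul_of_nonneg_left h7 (by positivity)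
      _ = c * ({f : (𝓞 F)[X] | Ht 1 B f}.ncard : ℝ) := by
          field_simp
      _ ≤ _ := hprop.trans h5

end Pool.Agent.V7H54
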