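import Pool.Agent.N352.PF.All
import Pool.Agent.N738.PJ.Exs

/-!
# The conditions at the small primes
-/

set_option autoImplicit false
set_option linter.all false

open Polynomial NumberField IsDedekindDomain
open scoped Classical

namespace Pool.Agent.V7H54

open Pool.Agent.N352.PF (rv)
open Pool.Agent.N783.PF (GoodF Cg sp rd)

variable {F : Type} [Field F] [NumberField F]

/-- The curve `y ^ 2 = f(x)` has a reduction of type II at the prime `v` over two. -/
def T2 (v : HeightOneSpectrum (𝓞 F)) (f : (𝓞 F)[X]) : Prop :=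
  ∃ x y : 𝓞 F, (derivative f).eval x ∈ v.asIdeal ∧ f.eval x - y ^ 2 ∈ v.asIdeal ∧
    f.eval x - y ^ 2 ∉ v.asIdeal ^ 2

theorem eval_sub_mem {I : Ideal (𝓞 F)} {f f' : (𝓞 F)[X]} (h : ∀ j, f.coeff j - f'.coeff j ∈ I)
    (x : 𝓞 F) : f.eval x - f'.eval x ∈ I := by
  have h1 : f.map (Ideal.Quotient.mk I) = f'.map (Ideal.Quotient.mk I) := by
    ext j
    rw [coeff_map, coeff_map]
    exact Ideal.Quotient.eq.2 (h j)
  have h2 : ∀ g : (𝓞 F)[X], Ideal.Quotient.mk I (g.eval x) =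
      (g.map (Ideal.Quotient.mk I)).eval (Ideal.Quotient.mk I x) := by
    intro g
    rw [eval_map, ← Polynomial.eval₂_at_apply]
  exact Ideal.Quotient.eq.1 (by rw [h2, h2, h1])

theorem der_sub_mem {I : Ideal (𝓞 F)} {f f' : (𝓞 F)[X]} (h : ∀ j, f.coeff j - f'.coeff j ∈ I)
    (x : 𝓞 F) : (derivative f).eval x - (derivative f').eval x ∈ I := by
  apply eval_sub_mem
  intro j
  rw [coeff_derivative, coeff_derivative, ← sub_mul]
  exact Ideal.mul_mem_right _ _ (h _)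

theorem T2.congr {v : HeightOneSpectrum (𝓞 F)} {f f' : (𝓞 F)[X]}
    (h : ∀ j, f.coeff j - f'.coeff j ∈ v.asIdeal ^ 2) (H : T2 v f') : T2 v f := by
  obtain ⟨x, y, h1, h2, h3⟩ := H
  have e1 := eval_sub_mem h x
  have e2 := der_sub_mem h x
  have hle : v.asIdeal ^ 2 ≤ v.asIdeal := Ideal.pow_le_self two_ne_zero
  refine ⟨x, y, ?_, ?_, ?_⟩
  · have := Ideal.add_mem _ (hle e2) h1
    simpa using this
  · have := Ideal.add_mem _ (hle e1) h2
    have e : f.eval x - f'.eval x + (f'.eval x - y ^ 2) = f.eval x - y ^ 2 := by ring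
    rwa [e] at this
  · intro h4
    apply h3
    have := Ideal.sub_mem _ h4 e1
    have e : f.eval x - y ^ 2 - (f.eval x - f'.eval x) = f'.eval x - y ^ 2 := by ring
    rwa [e] at this

/-- The conditions on `f₁`. -/
structure GF2 (N W : ℕ) (f₁ : (𝓞 F)[X]) : Prop where
  mon : f₁.Monic
  deg : f₁.natDegree = 3
  tr : f₁.coeff 2 = 0
  pos : 0 < W
  four : 4 ∣ W
  irr : ∀ v : HeightOneSpectrum (𝓞 F), (W : 𝓞 F) ∈ v.asIdeal → Irreducible (rv v f₁)
  typ : ∀ v : HeightOneSpectrum (𝓞 F), (2 : 𝓞 F) ∈ v.asIdeal → T2 v f₁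
  all : ∀ p : ℕ, p.Prime → p ≤ N → p ∣ W

/-- The cubic polynomial. -/
noncomputable def cub {R : Type} [CommRing R] (a b : R) : R[X] := X ^ 3 + C a * X + C b

section cub

variable {R : Type} [CommRing R] [Nontrivial R] (a b : R)

theorem cub_deg : (cub a b).natDegree = 3 := by
  unfold cub
  compute_degree!

theorem cub_monic : (cub a b).Monic := by
  unfold cub
  monicity!

theorem cub_two : (cub a b).coeff 2 = 0 := by
  unfold cub
  simp [coeff_X, coeff_C]

theorem cub_map {R' : Type} [CommRing R'] (φ : R →+* R') : (cub a b).map φ = cub (φ a) (φ b) := by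
  unfold cub
  simp

theorem cub_eval (x : R) : (cub a b).eval x = x ^ 3 + a * x + b := by
  unfold cub
  simp

theorem cub_der (x : R) : (derivative (cub a b)).eval x = 3 * x ^ 2 + a := by
  unfold cub
  simp
  ring

theorem eq_cub {f : R[X]} (hm : f.Monic) (hd : f.natDegree = 3) (ht : f.coeff 2 = 0) :
    f = cub (f.coeff 1) (f.coeff 0) := by
  conv_lhs => rw [f.as_sum_range_C_mul_X_pow, hd]
  simp only [Finset.sum_range_succ, Finset.sum_range_zero, zero_add, pow_zero, mul_one,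
    pow_one, ht, map_zero, zero_mul, add_zero]
  have h3 : f.coeff 3 = 1 := by
    have := hm.coeff_natDegree
    rwa [hd] at this
  rw [h3, cub]
  simp
  ring

end cub

/-- one finite field -/
theorem exists_cub (k : Type) [Field k] [Finite k] : ∃ a b : k, Irreducible (cub a b) := by
  by_cases h : ((3 : ℕ) : k) = 0
  · -- Artin-Schreier
    have hns : ¬ Function.Surjective (fun x : k => x ^ 3 - x) := by
      intro hs
      have hi := Finite.injective_iff_surjective.2 hs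
      have := @hi 0 1 (by simp)
      exact zero_ne_one this
    have hns' : ∃ c : k, ∀ x : k, x ^ 3 - x ≠ c := by
      by_contra hcon
      push Not at hcon
      exact hns fun c => hcon c
    obtain ⟨c, hc⟩ := hns'
    refine ⟨-1, -c, ?_⟩
    have hd := cub_deg (-1 : k) (-c)
    rw [Polynomial.irreducible_iff_roots_eq_zero_of_degree_le_three (by rw [hd]; norm_num)
      (by rw [hd])]
    rw [Multiset.eq_zero_iff_forall_notMem]
    intro x hx
    have h1 := (Polynomial.mem_roots (cub_monic (-1 : k) (-c)).ne_zero).1 hx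
    rw [IsRoot.def, cub_eval] at h1
    exact hc x (by linear_combination h1)
  · obtain ⟨r, h1, h2, h3, h4⟩ := Pool.Agent.N738.PJ.exists_irr0 k 3 (by omega) h
    refine ⟨r.coeff 1, r.coeff 0, ?_⟩
    rw [← eq_cub h1 h3 (by simpa using h4)]
    exact h2

/-- one prime ideal -/
theorem exists_AB (v : HeightOneSpectrum (𝓞 F)) : ∃ A B : 𝓞 F, Irreducible (rv v (cub A B)) ∧
    ((2 : 𝓞 F) ∈ v.asIdeal → T2 v (cub A B)) := by
  have hmax : v.asIdeal.IsMaximal := v.isMaximal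
  letI : Field (𝓞 F ⧸ v.asIdeal) := Ideal.Quotient.field v.asIdeal
  haveI hfin : Finite (𝓞 F ⧸ v.asIdeal) := Ideal.finiteQuotientOfFreeOfNeBot v.asIdeal v.ne_bot
  obtain ⟨a, b, hab⟩ := exists_cub (𝓞 F ⧸ v.asIdeal)
  obtain ⟨A, rfl⟩ := Ideal.Quotient.mk_surjective a
  obtain ⟨B, rfl⟩ := Ideal.Quotient.mk_surjective b
  have hirr : ∀ B' : 𝓞 F, B' - B ∈ v.asIdeal → Irreducible (rv v (cub A B')) := by
    intro B' hB'
    have e : rv v (cub A B') = cub (Ideal.Quotient.mk v.asIdeal A) (Ideal.Quotient.mk v.asIdeal B) := by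
      rw [rv, cub_map, Ideal.Quotient.eq.2 hB']
    rw [e]
    exact hab
  by_cases h2 : (2 : 𝓞 F) ∈ v.asIdeal
  · -- squares modulo `v`
    have hsq : ∀ c : 𝓞 F, ∃ x : 𝓞 F, c - x ^ 2 ∈ v.asIdeal := by
      intro c
      haveI : CharP (𝓞 F ⧸ v.asIdeal) 2 := by
        have h2' : (2 : 𝓞 F ⧸ v.asIdeal) = 0 := by
          have := Ideal.Quotient.eq_zero_iff_mem.2 h2
          rwa [map_ofNat] at this
        exact CharTwo.of_one_ne_zero_of_two_eq_zero one_ne_zero h2'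
      obtain ⟨x, hx⟩ := FiniteField.isSquare_of_char_two (F := 𝓞 F ⧸ v.asIdeal)
        (by rw [ringChar.eq_iff]; infer_instance) (Ideal.Quotient.mk v.asIdeal c)
      obtain ⟨x, rfl⟩ := Ideal.Quotient.mk_surjective x
      refine ⟨x, Ideal.Quotient.eq.1 ?_⟩
      rw [hx, map_pow, pow_two]
    obtain ⟨x, hx⟩ := hsq (-A)
    have hder : ∀ B' : 𝓞 F, (derivative (cub A B')).eval x ∈ v.asIdeal := by
      intro B'
      rw [cub_der]
      have e : 3 * x ^ 2 + A = -(-A - x ^ 2) + 2 * x ^ 2 := by ring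
      rw [e]
      exact Ideal.add_mem _ (Ideal.neg_mem_iff _ |>.2 hx) (Ideal.mul_mem_right _ _ h2)
    obtain ⟨y, hy⟩ := hsq ((cub A B).eval x)
    by_cases h3 : (cub A B).eval x - y ^ 2 ∈ v.asIdeal ^ 2
    · -- change `B`
      obtain ⟨π, hπ1, hπ2⟩ : ∃ π ∈ v.asIdeal, π ∉ v.asIdeal ^ 2 := by
        have hlt : v.asIdeal ^ 2 < v.asIdeal := by
          haveI := v.isPrime
          have := Ideal.pow_succ_lt_pow v.ne_bot 1
          simpa using this
        obtain ⟨π, h5, h6⟩ := SetLike.exists_of_lt hlt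
        exact ⟨π, h5, h6⟩
      refine ⟨A, B + π, hirr _ (by simpa using hπ1), fun _ => ⟨x, y, hder _, ?_, ?_⟩⟩
      · rw [cub_eval] at hy ⊢
        have e : x ^ 3 + A * x + (B + π) - y ^ 2 = (x ^ 3 + A * x + B - y ^ 2) + π := by ring
        rw [e]
        exact Ideal.add_mem _ hy hπ1
      · rw [cub_eval] at h3 ⊢
        intro h4
        apply hπ2
        have e : π = (x ^ 3 + A * x + (B + π) - y ^ 2) - (x ^ 3 + A * x + B - y ^ 2) := by ring
        rw [e]
        exact Ideal.sub_mem _ h4 h3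
    · exact ⟨A, B, hirr _ (by simp), fun _ => ⟨x, y, hder _, hy, h3⟩⟩
  · exact ⟨A, B, hirr _ (by simp), fun h => absurd h h2⟩

theorem gf2 (F : Type) [Field F] [NumberField F] (N : ℕ) :
    ∃ (W : ℕ) (f₁ : (𝓞 F)[X]), GF2 N W f₁ := by
  obtain ⟨W, hW⟩ : ∃ W : ℕ, W = 4 * N.factorial := ⟨_, rfl⟩
  have hW0 : 0 < W := by
    rw [hW]
    exact Nat.mul_pos (by norm_num) N.factorial_pos
  choose A B hAB1 hAB2 using exists_AB (F := F)
  have hWne : Ideal.span {(W : 𝓞 F)} ≠ 0 := by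
    rw [Ne, Ideal.zero_eq_bot, Ideal.span_singleton_eq_bot]
    exact_mod_cast hW0.ne'
  have hfinS := Ideal.finite_factors hWne
  set T : Finset (HeightOneSpectrum (𝓞 F)) := hfinS.toFinset with hT
  have hmem : ∀ v : HeightOneSpectrum (𝓞 F), (W : 𝓞 F) ∈ v.asIdeal → v ∈ T := by
    intro v hv
    rw [hT, Set.Finite.mem_toFinset, Set.mem_setOf_eq, Ideal.dvd_span_singleton]
    exact hv
  have hcrt : ∀ c : HeightOneSpectrum (𝓞 F) → 𝓞 F, ∃ a : 𝓞 F, ∀ v ∈ T, a - c v ∈ v.asIdeal ^ 2 := by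
    intro c
    obtain ⟨a, ha⟩ := IsDedekindDomain.exists_forall_sub_mem_ideal (s := T)
      (fun v => v.asIdeal) (fun _ => 2) (fun v _ => v.prime)
      (fun v _ w _ hvw h => hvw (HeightOneSpectrum.ext h)) (fun v => c v)
    exact ⟨a, fun v hv => ha v hv⟩
  obtain ⟨a, ha⟩ := hcrt A
  obtain ⟨b, hb⟩ := hcrt B
  have hcg : ∀ v ∈ T, ∀ j, (cub a b).coeff j - (cub (A v) (B v)).coeff j ∈ v.asIdeal ^ 2 := by
    intro v hv j
    have h1 := ha v hv
    have h2 := hb v hv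
    unfold cub
    simp only [coeff_add, coeff_X_pow, coeff_C_mul, coeff_X, coeff_C]
    have e : ((if j = 3 then (1 : 𝓞 F) else 0) + a * (if 1 = j then 1 else 0) +
        (if j = 0 then b else 0)) - ((if j = 3 then (1 : 𝓞 F) else 0) +
        A v * (if 1 = j then 1 else 0) + (if j = 0 then B v else 0)) =
        (a - A v) * (if 1 = j then 1 else 0) + (b - B v) * (if j = 0 then 1 else 0) := by
      split_ifs <;> ring
    rw [e]
    exact Ideal.add_mem _ (Ideal.mul_mem_right _ _ h1) (Ideal.mul_mem_right _ _ h2)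
  refine ⟨W, cub a b, cub_monic _ _, cub_deg _ _, cub_two _ _, hW0, ?_, ?_, ?_, ?_⟩
  · rw [hW]
    exact dvd_mul_right _ _
  · intro v hv
    have hvT := hmem v hv
    have e : rv v (cub a b) = rv v (cub (A v) (B v)) := by
      rw [rv, rv, cub_map, cub_map]
      have hle : v.asIdeal ^ 2 ≤ v.asIdeal := Ideal.pow_le_self two_ne_zero
      rw [Ideal.Quotient.eq.2 (hle (ha v hvT)), Ideal.Quotient.eq.2 (hle (hb v hvT))]
    rw [e]
    exact hAB1 v
  · intro v hv
    have hWv : (W : 𝓞 F) ∈ v.asIdeal := by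
      rw [hW]
      push_cast
      refine Ideal.mul_mem_right _ _ ?_
      have e : (4 : 𝓞 F) = 2 * 2 := by norm_num
      rw [e]
      exact Ideal.mul_mem_right _ _ hv
    exact T2.congr (hcg v (hmem v hWv)) (hAB2 v hv)
  · intro p hp hpN
    rw [hW]
    exact Dvd.dvd.mul_left ((hp.dvd_factorial).2 hpN) _

namespace GF2

variable {N W : ℕ} {f₁ : (𝓞 F)[X]}

theorem good (h : GF2 N W f₁) : GoodF 1 W f₁ := by
  have hne : ∀ (𝔭 : Ideal (𝓞 F)) (n : ℕ), 0 < n → (n : 𝓞 F) ∈ 𝔭 → 𝔭 ≠ ⊥ := by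
    intro 𝔭 n hn hm h0
    rw [h0, Ideal.mem_bot] at hm
    have : n = 0 := by exact_mod_cast hm
    omega
  refine ⟨h.mon, h.deg, h.tr, h.pos, (by norm_num : 2 ∣ 4).trans h.four, ?_, ?_⟩
  · intro 𝔭 hp h2m
    have hb : 𝔭 ≠ ⊥ := hne 𝔭 2 two_pos (by exact_mod_cast h2m)
    refine h.irr ⟨𝔭, hp, hb⟩ ?_
    obtain ⟨m, hm⟩ := h.four
    rw [hm]
    push_cast
    refine Ideal.mul_mem_right _ _ ?_
    have e : (4 : 𝓞 F) = 2 * 2 := by norm_num
    rw [e]
    exact Ideal.mul_mem_right _ _ h2m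
  · intro 𝔭 hp hWm
    have hb : 𝔭 ≠ ⊥ := hne 𝔭 W h.pos hWm
    haveI : Finite (𝓞 F ⧸ 𝔭) := 𝔭.finiteQuotientOfFreeOfNeBot hb
    haveI : IsDomain (𝓞 F ⧸ 𝔭) := Ideal.Quotient.isDomain 𝔭
    exact Pool.Agent.N951.PF.sep_of_irr (h.irr ⟨𝔭, hp, hb⟩ hWm)

/-- transfer to the polynomials of the family -/
theorem irr_of (h : GF2 N W f₁) {f : (𝓞 F)[X]} (hc : Cg (sp F W) f f₁)
    (v : HeightOneSpectrum (𝓞 F)) (hv : (W : 𝓞 F) ∈ v.asIdeal) : Irreducible (rd v.asIdeal f) := by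
  have e : rd v.asIdeal f = rv v f₁ := by
    ext j
    rw [rd, rv, coeff_map, coeff_map]
    exact Ideal.Quotient.eq.2 ((Ideal.span_singleton_le_iff_mem _).2 hv (hc j))
  rw [e]
  exact h.irr v hv

theorem typ_of (h : GF2 N W f₁) {f : (𝓞 F)[X]} (hc : Cg (sp F W) f f₁)
    (v : HeightOneSpectrum (𝓞 F)) (hv : (2 : 𝓞 F) ∈ v.asIdeal) : T2 v f := by
  refine T2.congr (fun j => ?_) (h.typ v hv)
  have h4 : (W : 𝓞 F) ∈ v.asIdeal ^ 2 := by
    obtain ⟨m, hm⟩ := h.four
    rw [hm]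
    push_cast
    refine Ideal.mul_mem_right _ _ ?_
    have e : (4 : 𝓞 F) = 2 * 2 := by norm_num
    rw [e, pow_two]
    exact Ideal.mul_mem_mul hv hv
  exact (Ideal.span_singleton_le_iff_mem _).2 h4 (hc j)

end GF2

end Pool.Agent.V7H54
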