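import Pool.Agent.V7H54.G3

/-!
# The descent property at the primes over two
-/

set_option autoImplicit false
set_option linter.all false

open Polynomial IsDedekindDomain NumberField WithZero

namespace Pool.Agent.V7H54.V3

open Pool.Agent.N783.PQ (LocIm)
open Pool.Agent.N704.PP (vx near near_one)
open Pool.Agent.N783.PF
open Pool.Agent.V7H54 (Over Unr T2 Dsc2 S_H upo exists_above)

section root

variable {F K : Type} [Field F] [NumberField F] [Field K] [NumberField K] [Algebra F K]

/-- An irreducible cubic polynomial modulo `w` has no zero modulo `w'`. -/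
theorem no_root_K [IsGalois F K] {n : ℕ} (hn : Module.finrank F K = 2 ^ n)
    {w : HeightOneSpectrum (𝓞 F)} {w' : HeightOneSpectrum (𝓞 K)} (ho : Over w w') {f : (𝓞 F)[X]}
    (hm : f.Monic) (hd : f.natDegree = 3) (hirr : Irreducible (rd w.asIdeal f)) (a : 𝓞 K) :
    (f.map (algebraMap (𝓞 F) (𝓞 K))).eval a ∉ w'.asIdeal := by
  intro ha
  haveI := ho.liesOver
  haveI := w.isMaximal
  haveI := w'.isMaximal
  letI : Field (𝓞 F ⧸ w.asIdeal) := Ideal.Quotient.field _
  letI : Field (𝓞 K ⧸ w'.asIdeal) := Ideal.Quotient.field _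
  haveI : Finite (𝓞 K ⧸ w'.asIdeal) := Ideal.finiteQuotientOfFreeOfNeBot _ w'.ne_bot
  haveI : FiniteDimensional (𝓞 F ⧸ w.asIdeal) (𝓞 K ⧸ w'.asIdeal) := Module.Finite.of_finite
  -- the degree of the residue field extension
  have h_main := Ideal.ncard_primesOver_mul_ramificationIdxIn_mul_inertiaDegIn
    w.asIdeal (𝓞 K) Gal(K/F)
  rw [Ideal.inertiaDegIn_eq_inertiaDeg w.asIdeal w'.asIdeal Gal(K/F),
    IsGaloisGroup.card_eq_finrank Gal(K/F) F K, hn] at h_main
  have hf : w'.asIdeal.inertiaDeg (𝓞 F) ∣ 2 ^ n := by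
    rw [← h_main, ← mul_assoc]
    exact dvd_mul_left _ _
  have hf2 : w'.asIdeal.inertiaDeg (𝓞 F) =
      Module.finrank (𝓞 F ⧸ w.asIdeal) (𝓞 K ⧸ w'.asIdeal) := by
    rw [← Ideal.inertiaDeg'_algebraMap, Ideal.inertiaDeg'_eq_inertiaDeg]
  -- the zero
  obtain ⟨z, hz⟩ : ∃ z : 𝓞 K ⧸ w'.asIdeal, z = Ideal.Quotient.mk w'.asIdeal a := ⟨_, rfl⟩
  have hz0 : aeval z (rd w.asIdeal f) = 0 := by
    rw [rd, aeval_def, eval₂_map]
    have e : (algebraMap (𝓞 F ⧸ w.asIdeal) (𝓞 K ⧸ w'.asIdeal)).comp (Ideal.Quotient.mk w.asIdeal) =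
        (Ideal.Quotient.mk w'.asIdeal).comp (algebraMap (𝓞 F) (𝓞 K)) := rfl
    rw [e, hz, ← Polynomial.hom_eval₂, ← eval_map]
    exact Ideal.Quotient.eq_zero_iff_mem.2 ha
  have hmin : minpoly (𝓞 F ⧸ w.asIdeal) z = rd w.asIdeal f :=
    (minpoly.eq_of_irreducible_of_monic hirr hz0 (hm.map _)).symm
  have hdeg : (minpoly (𝓞 F ⧸ w.asIdeal) z).natDegree = 3 := by
    rw [hmin, rd, hm.natDegree_map, hd]
  have h3 : 3 ∣ Module.finrank (𝓞 F ⧸ w.asIdeal) (𝓞 K ⧸ w'.asIdeal) := by
    rw [← hdeg, ← IntermediateField.adjoin.finrank (Algebra.IsIntegral.isIntegral z)]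
    exact ⟨_, (Module.finrank_mul_finrank _ _ _).symm⟩
  rw [← hf2] at h3
  have := Nat.Prime.dvd_of_dvd_pow Nat.prime_three (h3.trans hf)
  omega

theorem no_root_F {w : HeightOneSpectrum (𝓞 F)} {f : (𝓞 F)[X]}
    (hm : f.Monic) (hd : f.natDegree = 3) (hirr : Irreducible (rd w.asIdeal f)) (a : 𝓞 F) :
    f.eval a ∉ w.asIdeal := by
  intro ha
  haveI := w.isMaximal
  letI : Field (𝓞 F ⧸ w.asIdeal) := Ideal.Quotient.field _
  have h1 : (rd w.asIdeal f).IsRoot (Ideal.Quotient.mk w.asIdeal a) := by
    rw [IsRoot.def, rd, Polynomial.eval_map_apply]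
    exact Ideal.Quotient.eq_zero_iff_mem.2 ha
  have h2 := Polynomial.degree_eq_one_of_irreducible_of_root hirr h1
  have h3 : (rd w.asIdeal f).natDegree = 3 := by
    rw [rd, hm.natDegree_map, hd]
  rw [degree_eq_natDegree hirr.ne_zero, h3] at h2
  norm_cast at h2

end root

section val

variable {F K : Type} [Field F] [NumberField F] [Field K] [NumberField K] [Algebra F K]
  {w : HeightOneSpectrum (𝓞 F)} {w' : HeightOneSpectrum (𝓞 K)}

theorem val_j (hv : ∀ x : F, w'.valuation K (algebraMap F K x) = w.valuation F x)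
    (j : w.adicCompletion F →+* w'.adicCompletion K)
    (hj1 : ∀ x : F, j (algebraMap F (w.adicCompletion F) x) =
      algebraMap K (w'.adicCompletion K) (algebraMap F K x))
    (hj3 : ∀ y, Valued.v (R := w.adicCompletion F) y < 1 →
      Valued.v (R := w'.adicCompletion K) (j y) < 1)
    (y : w.adicCompletion F) :
    Valued.v (R := w'.adicCompletion K) (j y) = Valued.v (R := w.adicCompletion F) y := by
  by_cases hy : y = 0
  · rw [hy, map_zero, map_zero, map_zero]
  have hy0 : Valued.v (R := w.adicCompletion F) y ≠ 0 := (Valuation.ne_zero_iff _).2 hy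
  obtain ⟨x, hx⟩ := near w y hy0
  have hxy : Valued.v (R := w.adicCompletion F) (algebraMap F (w.adicCompletion F) x) =
      Valued.v (R := w.adicCompletion F) y := by
    have e : algebraMap F (w.adicCompletion F) x =
        y - (y - algebraMap F (w.adicCompletion F) x) := by ring
    rw [e]
    exact Valuation.map_sub_eq_of_lt_left _ hx
  have hx0 : algebraMap F (w.adicCompletion F) x ≠ 0 := by
    intro h0
    rw [h0, map_zero] at hxy
    exact hy0 hxy.symm
  have hq : Valued.v (R := w.adicCompletion F)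
      (y / algebraMap F (w.adicCompletion F) x - 1) < 1 := by
    have e : y / algebraMap F (w.adicCompletion F) x - 1 =
        (y - algebraMap F (w.adicCompletion F) x) / algebraMap F (w.adicCompletion F) x := by
      field_simp
    rw [e, map_div₀, hxy]
    exact (div_lt_one₀ (zero_lt_iff.2 hy0)).2 hx
  have h1 := hj3 _ hq
  rw [map_sub, map_one, map_div₀, hj1] at h1
  have h2 : Valued.v (R := w'.adicCompletion K) (j y / algebraMap K (w'.adicCompletion K)
      (algebraMap F K x)) = 1 := by
    have e : j y / algebraMap K (w'.adicCompletion K) (algebraMap F K x) =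
        1 + (j y / algebraMap K (w'.adicCompletion K) (algebraMap F K x) - 1) := by ring
    rw [e, Valuation.map_add_eq_of_lt_left, map_one]
    rw [map_one]
    exact h1
  have h3 : Valued.v (R := w'.adicCompletion K) (algebraMap K (w'.adicCompletion K)
      (algebraMap F K x)) = Valued.v (R := w.adicCompletion F) y := by
    rw [vx, hv, ← hxy, vx]
  rw [map_div₀, h3] at h2
  exact (div_eq_one_iff_eq hy0).1 h2

/-- The data of the reduction of type II. -/
theorem t2d {f : (𝓞 F)[X]} (hm : f.Monic) (hd : f.natDegree = 3) (h2 : (2 : 𝓞 F) ∈ w.asIdeal)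
    (hT : T2 w f) : ∃ (x₀ y₀ a b γ : w.adicCompletion F) (e : ℕ),
      T2D (Valued.v (R := w.adicCompletion F))
        ((fF f).map (algebraMap F (w.adicCompletion F))) x₀ y₀ a b γ e := by
  obtain ⟨x, y, hx1, hx2, hx3⟩ := hT
  obtain ⟨κ, hκ⟩ : ∃ κ : 𝓞 F →+* w.adicCompletion F,
    κ = (algebraMap F (w.adicCompletion F)).comp (algebraMap (𝓞 F) F) := ⟨_, rfl⟩
  have hκa : ∀ c, κ c = algebraMap F (w.adicCompletion F) (algebraMap (𝓞 F) F c) := by
    intro c
    rw [hκ]
    rfl
  have hint : ∀ c, Valued.v (R := w.adicCompletion F) (κ c) ≤ exp 0 := by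
    intro c
    rw [hκa, exp_zero]
    exact v_int w c
  have hlt : ∀ c ∈ w.asIdeal, Valued.v (R := w.adicCompletion F) (κ c) ≤ exp (-1) := by
    intro c hc
    rw [← Le.one_iff, hκa]
    exact (v_lt w c).2 hc
  have hcoe : f = X ^ 3 + C (f.coeff 2) * X ^ 2 + C (f.coeff 1) * X + C (f.coeff 0) := by
    have h3 : f.coeff 3 = 1 := by
      have := hm.coeff_natDegree
      rwa [hd] at this
    conv_lhs => rw [f.as_sum_range_C_mul_X_pow, hd]
    simp only [Finset.sum_range_succ, Finset.sum_range_zero, h3]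
    simp
    ring
  obtain ⟨e, he⟩ : ∃ e : ℤ, Valued.v (R := w.adicCompletion F) (2 : w.adicCompletion F) =
      exp (-e) := by
    haveI : CharZero (w.adicCompletion F) :=
      charZero_of_injective_algebraMap (algebraMap F (w.adicCompletion F)).injective
    obtain ⟨k, hk⟩ := exists_exp (w := Valued.v (R := w.adicCompletion F))
      (x := (2 : w.adicCompletion F)) two_ne_zero
    exact ⟨-k, by rw [neg_neg]; exact hk⟩
  have he1 : 1 ≤ e := by
    have := hlt 2 h2
    rw [map_ofNat, he, exp_le_exp] at this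
    omega
  refine ⟨κ x, κ y, κ (3 * x + f.coeff 2), κ ((derivative f).eval x), κ (f.eval x - y ^ 2),
    e.toNat, ?_, hint _, hint _, hint _, hlt _ hx1, ?_, ?_, by omega⟩
  · intro T
    rw [fF, Polynomial.map_map, ← hκ]
    have hx' : f.eval x = x ^ 3 + f.coeff 2 * x ^ 2 + f.coeff 1 * x + f.coeff 0 := by
      conv_lhs => rw [hcoe]
      simp
    have hx'' : (derivative f).eval x = 3 * x ^ 2 + 2 * f.coeff 2 * x + f.coeff 1 := by
      conv_lhs => rw [hcoe]
      simp
      ring
    rw [hx', hx'']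
    conv_lhs => rw [hcoe]
    simp only [Polynomial.map_add, Polynomial.map_mul, Polynomial.map_pow, map_X, map_C, eval_add,
      eval_mul, eval_pow, eval_X, eval_C, map_add, map_mul, map_sub, map_pow, map_ofNat]
    ring
  · refine le_antisymm (hlt _ hx2) (not_lt.1 fun h5 => hx3 ?_)
    rw [Le.lt_iff, hκa, vx, HeightOneSpectrum.valuation_of_algebraMap] at h5
    rw [← HeightOneSpectrum.intValuation_le_pow_iff_mem]
    exact h5
  · rw [he]
    congr 1
    omega

end val

section main

variable {F K : Type} [Field F] [NumberField F] [Field K] [NumberField K] [Algebra F K]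

/-- **The descent property at the unramified primes over two.** -/
theorem s_H [IsGalois F K] {n : ℕ} (hn : Module.finrank F K = 2 ^ n)
    (hu : ∀ w : HeightOneSpectrum (𝓞 F), (2 : 𝓞 F) ∈ w.asIdeal → Unr F K w) : S_H F K := by
  intro w f h2 hm hd hirr hT L _ _ _ θ hG h hne hN hL
  obtain ⟨w', ho⟩ := exists_above (K := K) w
  obtain ⟨j, hj1, hj2, hj3⟩ := Pool.Agent.N814.JM.cpl F K (𝓞 F) (𝓞 K) w w' ho.lies
  have hvF := fun x => (hu w h2).val_eq ho x
  have hv := val_j hvF j hj1 hj3
  haveI : CharZero (w.adicCompletion F) :=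
    charZero_of_injective_algebraMap (algebraMap F (w.adicCompletion F)).injective
  haveI : CharZero (w'.adicCompletion K) :=
    charZero_of_injective_algebraMap (algebraMap K (w'.adicCompletion K)).injective
  haveI : Finite (𝓞 F ⧸ w.asIdeal) := Ideal.finiteQuotientOfFreeOfNeBot _ w.ne_bot
  haveI := fin_res (F := F) w
  have hc : Cub (Valued.v (R := w.adicCompletion F))
      ((fF f).map (algebraMap F (w.adicCompletion F))) :=
    cub_compl w hm hd (no_root_F hm hd hirr)
  have hc' : Cub (Valued.v (R := w'.adicCompletion K))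
      ((fF (upo F K f)).map (algebraMap K (w'.adicCompletion K))) :=
    cub_compl w' (hm.map _) (by rw [hm.natDegree_map, hd]) (no_root_K hn ho hm hd hirr)
  have hcomp : (algebraMap K (w'.adicCompletion K)).comp (algebraMap F K) =
      j.comp (algebraMap F (w.adicCompletion F)) := by
    refine RingHom.ext fun x => ?_
    exact (hj1 x).symm
  have hmap : ∀ p : F[X], (p.map (algebraMap F K)).map (algebraMap K (w'.adicCompletion K)) =
      (p.map (algebraMap F (w.adicCompletion F))).map j := by
    intro p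
    rw [Polynomial.map_map, Polynomial.map_map, hcomp]
  rw [Pool.Agent.V7H54.fF_upo, hmap] at hc'
  haveI : Fact (Irreducible ((fF f).map (algebraMap F (w.adicCompletion F)))) := ⟨hc.irr⟩
  haveI : Fact (Irreducible (((fF f).map (algebraMap F (w.adicCompletion F))).map j)) := ⟨hc'.irr⟩
  obtain ⟨x₀, y₀, a, b, γ, e, hT2⟩ := t2d hm hd h2 hT
  have hF : Irreducible (fF f) :=
    Polynomial.Monic.irreducible_of_irreducible_map (algebraMap F (w.adicCompletion F)) _
      (hm.map _) hc.irr
  have hcop : IsCoprime (h.map (algebraMap F (w.adicCompletion F)))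
      ((fF f).map (algebraMap F (w.adicCompletion F))) := by
    have h6 : IsCoprime h (fF f) := by
      refine ((hF.coprime_iff_not_dvd).2 fun hdv => hne ?_).symm
      obtain ⟨q, hq⟩ := hdv
      rw [hq, map_mul, hG.root, zero_mul]
    have h8 := IsCoprime.map h6 (mapRingHom (algebraMap F (w.adicCompletion F)))
    rw [coe_mapRingHom] at h8
    exact h8
  have hN' : IsSquare (Algebra.norm (w.adicCompletion F) (AdjoinRoot.mk
      ((fF f).map (algebraMap F (w.adicCompletion F)))
      (h.map (algebraMap F (w.adicCompletion F))))) := by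
    have hmF : (fF f).Monic := hm.map _
    have hdF : (fF f).natDegree = 2 * 1 + 1 := by rw [hm.natDegree_map, hd]
    have key := norm_loc (E := w.adicCompletion F) hmF hdF hG.basis
      (fun i => hG.basis_apply i) hG.root h
    have h7 := hN.map (algebraMap F (w.adicCompletion F))
    rw [← key] at h7
    exact h7
  have hL' := hL w' ho
  rw [hmap, hmap] at hL'
  exact desc_loc hv hc hc' hT2 hcop hN' hL'

end main

end Pool.Agent.V7H54.V3
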