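import Pool.Agent.V7H54.V3

/-!
# Residues: squares and Artin-Schreier
-/

set_option autoImplicit false
set_option linter.all false

open Polynomial WithZero

namespace Pool.Agent.V7H54.V3

/-- In a cubic extension of finite fields of characteristic two every element is of the form
`s ^ 2 + s + r` with `r` in the ground field. -/
theorem art {k κ : Type} [Field k] [Field κ] [Finite κ] [Algebra k κ] (h2 : (2 : κ) = 0)
    (h3 : Module.finrank k κ = 3) (z : κ) : ∃ (s : κ) (r : k), z = s ^ 2 + s + algebraMap k κ r := by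
  haveI : FiniteDimensional k κ := Module.finite_of_finrank_pos (by rw [h3]; norm_num)
  -- elements `s` with `s ^ 2 + s` in `k`
  have key : ∀ (s : κ) (c : k), s ^ 2 + s = algebraMap k κ c → ∃ r : k, algebraMap k κ r = s := by
    intro s c hs
    have hint : IsIntegral k s := Algebra.IsIntegral.isIntegral s
    have h4 : aeval s (X ^ 2 + X - C c : k[X]) = 0 := by
      simp only [map_sub, map_add, map_pow, aeval_X, aeval_C]
      rw [hs, sub_self]
    have h5 : minpoly k s ∣ X ^ 2 + X - C c := minpoly.dvd k s h4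
    have h6 : (X ^ 2 + X - C c : k[X]).natDegree = 2 := by compute_degree!
    have h7 : (X ^ 2 + X - C c : k[X]) ≠ 0 := by
      intro h0
      rw [h0, natDegree_zero] at h6
      norm_num at h6
    have h8 := natDegree_le_of_dvd h5 h7
    rw [h6] at h8
    have h9 : (minpoly k s).natDegree ∣ 3 := by
      rw [← h3]
      exact minpoly.degree_dvd hint
    have h10 : (minpoly k s).natDegree = 1 := by
      have h11 := minpoly.natDegree_pos hint
      interval_cases h12 : (minpoly k s).natDegree
      · rfl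
      · omega
    have h13 : (minpoly k s).degree = 1 := by
      rw [degree_eq_natDegree (minpoly.ne_zero hint), h10]
      rfl
    exact minpoly.mem_range_of_degree_eq_one k s h13
  let A : AddSubgroup κ := (algebraMap k κ).toAddMonoidHom.range
  have hA : ∀ x : κ, x ∈ A ↔ ∃ r : k, algebraMap k κ r = x := fun x => Iff.rfl
  let ψ : κ →+ κ :=
    { toFun := fun s => s ^ 2 + s
      map_zero' := by ring
      map_add' := by
        intro a b
        linear_combination (a * b) * h2 }
  let ψ' : κ ⧸ A →+ κ ⧸ A := QuotientAddGroup.map A A ψ (by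
    rintro _ ⟨r, rfl⟩
    refine ⟨r ^ 2 + r, ?_⟩
    change algebraMap k κ (r ^ 2 + r) = (algebraMap k κ r) ^ 2 + algebraMap k κ r
    rw [map_add, map_pow])
  have hinj : Function.Injective ψ' := by
    rw [injective_iff_map_eq_zero]
    intro x hx
    obtain ⟨s, rfl⟩ := QuotientAddGroup.mk_surjective x
    rw [QuotientAddGroup.map_mk, QuotientAddGroup.eq_zero_iff] at hx
    obtain ⟨c, hc⟩ := (hA _).1 hx
    rw [QuotientAddGroup.eq_zero_iff]
    exact (hA _).2 (key s c hc.symm)
  haveI : Finite (κ ⧸ A) := Quotient.finite _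
  have hsurj : Function.Surjective ψ' := Finite.injective_iff_surjective.1 hinj
  obtain ⟨y, hy⟩ := hsurj (QuotientAddGroup.mk z)
  obtain ⟨s, rfl⟩ := QuotientAddGroup.mk_surjective y
  rw [QuotientAddGroup.map_mk, QuotientAddGroup.eq] at hy
  obtain ⟨r, hr⟩ := (hA _).1 hy
  refine ⟨s, r, ?_⟩
  rw [hr]
  change z = s ^ 2 + s + (-(s ^ 2 + s) + z)
  ring

variable {E : Type} [Field E] {Γ : Type} [LinearOrderedCommGroupWithZero Γ]
  {v : Valuation E Γ} {f : E[X]}

/-- squares in the base field -/
theorem sq_res [Finite (IsLocalRing.ResidueField v.valuationSubring)] (h2 : v 2 < 1) (c : E)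
    (hc : v c ≤ 1) : ∃ t : E, v t ≤ 1 ∧ v (c - t ^ 2) < 1 := by
  have h2' : (2 : IsLocalRing.ResidueField v.valuationSubring) = 0 := by
    have h3 := (red_zero v (⟨2, h2.le⟩ : v.valuationSubring)).2 h2
    have e : (⟨2, h2.le⟩ : v.valuationSubring) = 2 := by
      ext
      change (2 : E) = ((2 : v.valuationSubring) : E)
      rfl
    rw [e, map_ofNat] at h3
    exact h3
  haveI : CharP (IsLocalRing.ResidueField v.valuationSubring) 2 :=
    CharTwo.of_one_ne_zero_of_two_eq_zero one_ne_zero h2'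
  obtain ⟨x, hx⟩ := FiniteField.isSquare_of_char_two
    (F := IsLocalRing.ResidueField v.valuationSubring) (by rw [ringChar.eq_iff]; infer_instance)
    (IsLocalRing.residue v.valuationSubring ⟨c, hc⟩)
  obtain ⟨t, rfl⟩ := IsLocalRing.residue_surjective (R := v.valuationSubring) x
  refine ⟨t, t.2, ?_⟩
  have h3 : IsLocalRing.residue v.valuationSubring (⟨c, hc⟩ - t ^ 2) = 0 := by
    rw [map_sub, map_pow, hx, pow_two, sub_self]
  rw [red_zero] at h3
  exact h3

section

variable [Fact (Irreducible f)] (h : Cub v f)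
  [Finite (IsLocalRing.ResidueField v.valuationSubring)]

/-- Squares and Artin-Schreier in the cubic extension. -/
theorem res_M (h2 : v 2 < 1) (z : AdjoinRoot f) (hz : V h z ≤ 1) :
    (∃ s : AdjoinRoot f, V h s ≤ 1 ∧ V h (z - s ^ 2) < 1) ∧
    ∃ (s : AdjoinRoot f) (r : E), V h s ≤ 1 ∧ v r ≤ 1 ∧
      V h (z - (s ^ 2 + s) - algebraMap E _ r) < 1 := by
  obtain ⟨g, hg⟩ := lift_pol v h.int
  obtain ⟨hgm, hgd, -, -, hri'⟩ := h.red hg
  obtain ⟨p, hp1, rfl, hp3⟩ := lift_int h hz
  obtain ⟨k, ik, ifin, ρ, hρs, hρ0, hri, hmx⟩ : ∃ (k : Type) (_ : Field k) (_ : Finite k)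
      (ρ : v.valuationSubring →+* k), Function.Surjective ρ ∧
      (∀ x : v.valuationSubring, ρ x = 0 ↔ v (x : E) < 1) ∧ Irreducible (g.map ρ) ∧
      (∀ p : v.valuationSubring[X],
        V h (AdjoinRoot.mk f (p.map v.valuationSubring.subtype)) ≤ 1 ∧
        (V h (AdjoinRoot.mk f (p.map v.valuationSubring.subtype)) < 1 ↔ g.map ρ ∣ p.map ρ)) :=
    ⟨_, inferInstance, inferInstance, IsLocalRing.residue v.valuationSubring,
      IsLocalRing.residue_surjective, red_zero v, hri', fun p => mx_of_red h hg p⟩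
  obtain ⟨G, hG⟩ : ∃ G, G = g.map ρ := ⟨_, rfl⟩
  have hrm : G.Monic := by
    rw [hG]
    exact hgm.map _
  have hrd : G.natDegree = 3 := by rw [hG, hgm.natDegree_map, hgd]
  rw [← hG] at hri
  haveI : Fact (Irreducible G) := ⟨hri⟩
  haveI : FiniteDimensional k (AdjoinRoot G) := hrm.finite_adjoinRoot
  haveI : Finite (AdjoinRoot G) := Module.finite_of_finite k
  have h2' : (2 : k) = 0 := by
    have h3 := (hρ0 (⟨2, h2.le⟩ : v.valuationSubring)).2 h2
    have e : (⟨2, h2.le⟩ : v.valuationSubring) = 2 := by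
      ext
      change (2 : E) = ((2 : v.valuationSubring) : E)
      rfl
    rw [e, map_ofNat] at h3
    exact h3
  have h2'' : (2 : AdjoinRoot G) = 0 := by
    have := congrArg (AdjoinRoot.of G) h2'
    rwa [map_ofNat, map_zero] at this
  haveI : CharP (AdjoinRoot G) 2 := CharTwo.of_one_ne_zero_of_two_eq_zero one_ne_zero h2''
  have hfr : Module.finrank k (AdjoinRoot G) = 3 := by
    rw [(AdjoinRoot.powerBasis hrm.ne_zero).finrank, AdjoinRoot.powerBasis_dim, hrd]
  have hlift : ∀ y : AdjoinRoot G, ∃ q : v.valuationSubring[X],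
      AdjoinRoot.mk G (q.map ρ) = y := by
    intro y
    obtain ⟨q', rfl⟩ := AdjoinRoot.mk_surjective y
    obtain ⟨q, rfl⟩ := Polynomial.map_surjective ρ hρs q'
    exact ⟨q, rfl⟩
  constructor
  · obtain ⟨y, hy⟩ := FiniteField.isSquare_of_char_two (F := AdjoinRoot G)
      (by rw [ringChar.eq_iff]; infer_instance) (AdjoinRoot.mk G (p.map ρ))
    obtain ⟨q, rfl⟩ := hlift y
    refine ⟨AdjoinRoot.mk f (q.map v.valuationSubring.subtype), (hmx q).1, ?_⟩
    have e : AdjoinRoot.mk f (p.map v.valuationSubring.subtype) -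
        AdjoinRoot.mk f (q.map v.valuationSubring.subtype) ^ 2 =
        AdjoinRoot.mk f ((p - q ^ 2).map v.valuationSubring.subtype) := by
      rw [Polynomial.map_sub, Polynomial.map_pow, map_sub, map_pow]
    rw [e]
    refine (hmx (p - q ^ 2)).2.2 ?_
    rw [← hG, ← AdjoinRoot.mk_eq_zero, Polynomial.map_sub, Polynomial.map_pow, map_sub, map_pow,
      hy, pow_two, sub_self]
  · obtain ⟨y, r, hy⟩ := art h2'' hfr (AdjoinRoot.mk G (p.map ρ))
    obtain ⟨q, rfl⟩ := hlift y
    obtain ⟨r, rfl⟩ := hρs r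
    refine ⟨AdjoinRoot.mk f (q.map v.valuationSubring.subtype), r, (hmx q).1, r.2, ?_⟩
    have e : AdjoinRoot.mk f (p.map v.valuationSubring.subtype) -
        (AdjoinRoot.mk f (q.map v.valuationSubring.subtype) ^ 2 +
          AdjoinRoot.mk f (q.map v.valuationSubring.subtype)) -
        algebraMap E (AdjoinRoot f) (r : E) =
        AdjoinRoot.mk f ((p - (q ^ 2 + q) - C r).map v.valuationSubring.subtype) := by
      rw [Polynomial.map_sub, Polynomial.map_sub, Polynomial.map_add, Polynomial.map_pow, map_C,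
        map_sub, map_sub, map_add, map_pow, AdjoinRoot.mk_C, AdjoinRoot.algebraMap_eq]
      rfl
    rw [e]
    refine (hmx (p - (q ^ 2 + q) - C r)).2.2 ?_
    rw [← hG, ← AdjoinRoot.mk_eq_zero, Polynomial.map_sub, Polynomial.map_sub, Polynomial.map_add,
      Polynomial.map_pow, map_C, map_sub, map_sub, map_add, map_pow, hy, AdjoinRoot.mk_C,
      AdjoinRoot.algebraMap_eq]
    ring

end

end Pool.Agent.V7H54.V3
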