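import Pool.Agent.V7H54.B3
import Pool.Agent.N704.PJ.Hensel

/-!
# Completeness
-/

set_option autoImplicit false
set_option linter.all false

open Polynomial WithZero Filter Topology

namespace Pool.Agent.V7H54.V3

variable {E : Type} [Field E] [Valued E (WithZero (Multiplicative ℤ))]

theorem cau [CompleteSpace E] (z : ℕ → E) (a : E) (ha : Valued.v (R := E) a < 1)
    (hz : ∀ n, Valued.v (R := E) (z (n + 1) - z n) ≤ Valued.v (R := E) a ^ (n + 1)) :
    ∃ w : E, ∀ b : E, b ≠ 0 → ∀ᶠ n in atTop, Valued.v (R := E) (z n - w) < Valued.v (R := E) b := by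
  haveI := Pool.Agent.N704.PJ.nonarch (L := E)
  have hlim : Tendsto (fun n => z (n + 1) - z n) atTop (𝓝 0) := by
    have h3 : Tendsto (fun n : ℕ => a ^ (n + 1)) atTop (𝓝 0) :=
      (Valued.tendsto_zero_pow_of_v_lt_one ha).comp (tendsto_add_atTop_nat 1)
    rw [(Valued.hasBasis_nhds_zero E _).tendsto_right_iff] at h3 ⊢
    intro γ hγ
    filter_upwards [h3 γ hγ] with n hn
    have h4 : (Valued.v (R := E)).restrict (z (n + 1) - z n) ≤
        (Valued.v (R := E)).restrict (a ^ (n + 1)) :=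
      (Valuation.restrict_le_iff _).2 (by rw [map_pow]; exact hz n)
    exact lt_of_le_of_lt h4 hn
  have hcau : CauchySeq z := NonarchimedeanAddGroup.cauchySeq_of_tendsto_sub_nhds_zero hlim
  obtain ⟨w, hw⟩ := cauchySeq_tendsto_of_complete hcau
  refine ⟨w, fun b hb => ?_⟩
  have h1 : Tendsto (fun n => z n - w) atTop (𝓝 0) := by
    have := hw.sub_const w
    rwa [sub_self] at this
  rw [(Valued.hasBasis_nhds_zero E _).tendsto_right_iff] at h1
  have hb0 : (Valued.v (R := E)).restrict b ≠ 0 := (Valuation.ne_zero_iff _).2 hb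
  filter_upwards [h1 (Units.mk0 _ hb0) trivial] with n hn
  exact (Valuation.restrict_lt_iff _).1 hn

variable {f : E[X]} [Fact (Irreducible f)] (h : Cub (Valued.v (R := E)) f)

/-- `1 + 4 w` is a square if `V w < 1`. -/
theorem sqrt_M [CompleteSpace E] (w : AdjoinRoot f) (hw : V h w < 1) :
    ∃ t : AdjoinRoot f, t ^ 2 + t = w := by
  obtain ⟨i₀, hi₀, hi₀'⟩ := exists_mx h w
  obtain ⟨a, ha⟩ : ∃ a : E, a = co h i₀ w := ⟨_, rfl⟩
  rw [← ha] at hi₀'
  have haV : V h w = Valued.v (R := E) a := hi₀'.symm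
  obtain ⟨t, t0, ts⟩ : ∃ t : ℕ → AdjoinRoot f, t 0 = 0 ∧ ∀ n, t (n + 1) = w - t n ^ 2 :=
    ⟨fun n => Nat.rec 0 (fun _ y => w - y ^ 2) n, rfl, fun _ => rfl⟩
  have hle : ∀ n, V h (t n) ≤ V h w := by
    intro n
    induction n with
    | zero => rw [t0, map_zero]; exact zero_le
    | succ n ih =>
      rw [ts]
      refine (Valuation.map_sub _ _ _).trans (max_le le_rfl ?_)
      rw [map_pow, pow_two]
      calc V h (t n) * V h (t n) ≤ V h w * 1 := mul_le_mul' ih (ih.trans hw.le)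
        _ = V h w := mul_one _
  have hd : ∀ n, V h (t (n + 1) - t n) ≤ V h w ^ (n + 1) := by
    intro n
    induction n with
    | zero =>
      rw [ts, t0]
      simp
    | succ n ih =>
      have e : t (n + 1 + 1) - t (n + 1) = -(t (n + 1) - t n) * (t (n + 1) + t n) := by
        rw [ts (n + 1), ts n]
        ring
      rw [e, map_mul, Valuation.map_neg, pow_succ (V h w) (n + 1)]
      exact mul_le_mul' ih ((Valuation.map_add _ _ _).trans (max_le (hle _) (hle _)))
  have hex : ∀ i : ℕ, ∃ l : E, i < 3 → ∀ b : E, b ≠ 0 →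
      ∀ᶠ n in atTop, Valued.v (R := E) (co h i (t n) - l) < Valued.v (R := E) b := by
    intro i
    by_cases hi : i < 3
    · obtain ⟨l, hl⟩ := cau (fun n => co h i (t n)) a (by rw [← haV]; exact hw) (fun n => by
        rw [← map_sub, ← haV]
        exact (V_le_iff h).1 (hd n) i hi)
      exact ⟨l, fun _ => hl⟩
    · exact ⟨0, fun h' => absurd h' hi⟩
  choose l hl using hex
  obtain ⟨T, hT⟩ : ∃ T : AdjoinRoot f, T = AdjoinRoot.mk f (C (l 0) + C (l 1) * X + C (l 2) * X ^ 2) :=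
    ⟨_, rfl⟩
  have hdeg : (C (l 0) + C (l 1) * X + C (l 2) * X ^ 2 : E[X]).natDegree < 3 := by
    refine lt_of_le_of_lt ?_ (by norm_num : 2 < 3)
    compute_degree
  have hco : ∀ i < 3, co h i T = l i := by
    intro i hi
    rw [hT, co_mk_of_lt h i hdeg]
    interval_cases i <;> simp [coeff_C, coeff_X]
  have hlim : ∀ b : E, b ≠ 0 → ∀ᶠ n in atTop, V h (t n - T) < Valued.v (R := E) b := by
    intro b hb
    filter_upwards [hl 0 (by norm_num) b hb, hl 1 (by norm_num) b hb, hl 2 (by norm_num) b hb] with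
      n h0 h1 h2
    rw [V_lt_iff]
    intro i hi
    rw [map_sub, hco i hi]
    interval_cases i
    · exact h0
    · exact h1
    · exact h2
  refine ⟨T, ?_⟩
  by_contra hne
  have hne' : T ^ 2 + T - w ≠ 0 := sub_ne_zero.2 hne
  obtain ⟨j₀, hj₀, hj₀'⟩ := exists_mx h (T ^ 2 + T - w)
  obtain ⟨b, hb⟩ : ∃ b : E, b = co h j₀ (T ^ 2 + T - w) := ⟨_, rfl⟩
  rw [← hb] at hj₀'
  have hbV : V h (T ^ 2 + T - w) = Valued.v (R := E) b := hj₀'.symm
  have hb0 : b ≠ 0 := by
    rintro rfl
    rw [map_zero] at hbV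
    exact hne' ((Valuation.zero_iff _).1 hbV)
  have h1 := hlim b hb0
  have h2 := hlim 1 one_ne_zero
  rw [eventually_atTop] at h1 h2
  obtain ⟨N₁, hN₁⟩ := h1
  obtain ⟨N₂, hN₂⟩ := h2
  obtain ⟨n, hn⟩ : ∃ n, n = max N₁ N₂ := ⟨_, rfl⟩
  have k1 := hN₁ n (by rw [hn]; exact le_max_left _ _)
  have k2 := hN₁ (n + 1) (by rw [hn]; exact (le_max_left _ _).trans (Nat.le_succ _))
  have k3 := hN₂ n (by rw [hn]; exact le_max_right _ _)
  rw [map_one] at k3
  have e : T ^ 2 + T - w = (t n - T) * -(T + t n) + -(t (n + 1) - T) := by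
    rw [ts n]
    ring
  have h3 : V h (T + t n) ≤ 1 := by
    have e2 : T + t n = -(t n - T) + (t n + t n) := by ring
    rw [e2]
    refine (Valuation.map_add _ _ _).trans (max_le ?_ ?_)
    · rw [Valuation.map_neg]
      exact k3.le
    · exact (Valuation.map_add _ _ _).trans (max_le ((hle n).trans hw.le) ((hle n).trans hw.le))
  have h4 : V h (T ^ 2 + T - w) < Valued.v (R := E) b := by
    rw [e]
    refine lt_of_le_of_lt (Valuation.map_add _ _ _) (max_lt ?_ ?_)
    · rw [map_mul, Valuation.map_neg]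
      calc V h (t n - T) * V h (T + t n) ≤ V h (t n - T) * 1 := mul_le_mul' le_rfl h3
        _ < _ := by rw [mul_one]; exact k1
    · rw [Valuation.map_neg]
      exact k2
  rw [hbV] at h4
  exact lt_irrefl _ h4

end Pool.Agent.V7H54.V3
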