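import Pool.Agent.V7H54.C3

/-!
# Points on a curve with reduction of type II
-/

set_option autoImplicit false
set_option linter.all false

open Polynomial WithZero

namespace Pool.Agent.V7H54.V3

section le

variable {M : Type} [Field M] {w : Valuation M (WithZero (Multiplicative ℤ))}

theorem Le.mul {x y : M} {k l : ℤ} (hx : w x ≤ exp k) (hy : w y ≤ exp l) :
    w (x * y) ≤ exp (k + l) := by
  rw [map_mul, exp_add]
  exact mul_le_mul' hx hy

theorem Le.mono {x : M} {k l : ℤ} (hx : w x ≤ exp k) (h : k ≤ l) : w x ≤ exp l :=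
  hx.trans (exp_le_exp.2 h)

theorem Le.add {x y : M} {k : ℤ} (hx : w x ≤ exp k) (hy : w y ≤ exp k) : w (x + y) ≤ exp k :=
  (w.map_add _ _).trans (max_le hx hy)

theorem Le.neg {x : M} {k : ℤ} (hx : w x ≤ exp k) : w (-x) ≤ exp k := by
  rw [Valuation.map_neg]
  exact hx

theorem Le.sub {x y : M} {k : ℤ} (hx : w x ≤ exp k) (hy : w y ≤ exp k) : w (x - y) ≤ exp k :=
  (w.map_sub _ _).trans (max_le hx hy)

theorem Le.pow2 {x : M} {k : ℤ} (hx : w x ≤ exp k) : w (x ^ 2) ≤ exp (2 * k) := by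
  have := Le.mul hx hx
  rw [← pow_two] at this
  exact Le.mono this (by omega)

theorem Le.pow3 {x : M} {k : ℤ} (hx : w x ≤ exp k) : w (x ^ 3) ≤ exp (3 * k) := by
  have := Le.mul (Le.pow2 hx) hx
  have e : x ^ 2 * x = x ^ 3 := by ring
  rw [e] at this
  exact Le.mono this (by omega)

theorem Le.lt_iff {x : M} {k : ℤ} : w x < exp k ↔ w x ≤ exp (k - 1) := by
  by_cases hx : w x = 0
  · rw [hx]
    exact ⟨fun _ => zero_le, fun _ => zero_lt_iff.2 exp_ne_zero⟩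
  · rw [← exp_log hx, exp_lt_exp, exp_le_exp]
    omega

theorem Le.one_iff {x : M} : w x < 1 ↔ w x ≤ exp (-1) := by
  rw [← exp_zero, Le.lt_iff]
  norm_num

theorem Le.zero_iff {x : M} : w x ≤ 1 ↔ w x ≤ exp 0 := by
  rw [exp_zero]

theorem Le.div {x y : M} {k l : ℤ} (hx : w x ≤ exp k) (hy : w y = exp l) :
    w (x / y) ≤ exp (k - l) := by
  rw [map_div₀, hy, exp_sub, div_eq_mul_inv, div_eq_mul_inv]
  exact mul_le_mul' hx le_rfl

theorem Eq.mul {x y : M} {k l : ℤ} (hx : w x = exp k) (hy : w y = exp l) :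
    w (x * y) = exp (k + l) := by
  rw [map_mul, exp_add, hx, hy]

theorem Eq.div {x y : M} {k l : ℤ} (hx : w x = exp k) (hy : w y = exp l) :
    w (x / y) = exp (k - l) := by
  rw [map_div₀, hy, exp_sub, hx]

theorem Eq.add {x y : M} {k : ℤ} (hx : w x = exp k) (hy : w y ≤ exp (k - 1)) :
    w (x + y) = exp k := by
  rw [Valuation.map_add_eq_of_lt_left, hx]
  rw [hx]
  exact Le.lt_iff.2 hy

theorem Eq.neg {x : M} {k : ℤ} (hx : w x = exp k) : w (-x) = exp k := by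
  rw [Valuation.map_neg, hx]

theorem Eq.pow2 {x : M} {k : ℤ} (hx : w x = exp k) : w (x ^ 2) = exp (2 * k) := by
  rw [pow_two, Eq.mul hx hx]
  congr 1
  ring

theorem exists_exp {x : M} (hx : x ≠ 0) : ∃ k : ℤ, w x = exp k :=
  ⟨log (w x), (exp_log ((Valuation.ne_zero_iff _).2 hx)).symm⟩

theorem ne_of_exp {x : M} {k : ℤ} (hx : w x = exp k) : x ≠ 0 := by
  rintro rfl
  rw [map_zero] at hx
  exact exp_ne_zero hx.symm

/-- Rigidity: the square of an element cannot be `1 + ρ` with `ρ` of odd valuation larger than that of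
`4`. -/
theorem rigid {e : ℕ} (h2 : w 2 = exp (-(e : ℤ))) {s : M} {i : ℤ} (hs : w (s ^ 2 - 1) = exp (-i))
    (hodd : Odd i) : 2 * (e : ℤ) ≤ i := by
  obtain ⟨r, hr⟩ : ∃ r, r = s - 1 := ⟨_, rfl⟩
  have e1 : s ^ 2 - 1 = r * (r + 2) := by
    rw [hr]
    ring
  rw [e1] at hs
  have hr0 : r ≠ 0 := by
    rintro h0
    rw [h0, zero_mul, map_zero] at hs
    exact exp_ne_zero hs.symm
  obtain ⟨j, hj⟩ := exists_exp (w := w) hr0
  rcases lt_or_ge (-(e : ℤ)) j with h1 | h1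
  · have h3 : w (r + 2) = exp j := Eq.add hj (Le.mono h2.le (by omega))
    have h4 := Eq.mul hj h3
    rw [hs] at h4
    have h5 := exp_injective h4
    obtain ⟨k, hk⟩ := hodd
    omega
  · have h3 : w (r + 2) ≤ exp (-(e : ℤ)) := Le.add (Le.mono hj.le h1) h2.le
    have h4 := Le.mul (Le.mono hj.le h1) h3
    rw [hs, exp_le_exp] at h4
    omega

end le

/-- Data of a curve with reduction of type II. -/
structure T2D {E : Type} [Field E] (v : Valuation E (WithZero (Multiplicative ℤ))) (f : E[X])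
    (x₀ y₀ a b γ : E) (e : ℕ) : Prop where
  hf : ∀ T, f.eval (x₀ + T) = T ^ 3 + a * T ^ 2 + b * T + (y₀ ^ 2 + γ)
  hx : v x₀ ≤ exp 0
  hy : v y₀ ≤ exp 0
  ha : v a ≤ exp 0
  hb : v b ≤ exp (-1)
  hγ : v γ = exp (-1)
  h2 : v 2 = exp (-(e : ℤ))
  he : 1 ≤ e

section pts

variable {E : Type} [Field E] {v : Valuation E (WithZero (Multiplicative ℤ))} {f : E[X]}
  {x₀ y₀ a b γ : E} {e : ℕ}

/-- The data of a point. -/
structure PtD (v : Valuation E (WithZero (Multiplicative ℤ))) (x₀ y₀ a b γ : E) (X Y : E) (n : ℕ)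
    (t l g₀ g₁ : E) : Prop where
  hX : X = x₀ + t
  ht : v t = exp (2 * (n : ℤ))
  hl : v l ≤ exp (n : ℤ)
  hY : Y = y₀ + l * t
  g0 : g₀ = -γ / t
  g1 : g₁ = t + a - l ^ 2
  g1' : t * g₁ = g₀ - b + 2 * y₀ * l

theorem two_y (H : T2D v f x₀ y₀ a b γ e) : v (2 * y₀) ≤ exp (-1) := by
  have := Le.mul H.h2.le H.hy
  refine Le.mono this ?_
  have := H.he
  omega

/-- Every point has such data. -/
theorem exists_ptD (H : T2D v f x₀ y₀ a b γ e) {X Y : E} (hXY : Y ^ 2 = f.eval X) :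
    ∃ (n : ℕ) (t l g₀ g₁ : E), PtD v x₀ y₀ a b γ X Y n t l g₀ g₁ := by
  obtain ⟨t, ht⟩ : ∃ t, t = X - x₀ := ⟨_, rfl⟩
  have hX : X = x₀ + t := by rw [ht]; ring
  rw [hX, H.hf] at hXY
  obtain ⟨d, hd⟩ : ∃ d, d = Y - y₀ := ⟨_, rfl⟩
  have h2y := two_y H
  have e1 : d * (d + 2 * y₀) = γ + (b * t + t ^ 2 * (a + t)) := by
    rw [hd]
    linear_combination hXY
  -- `t` is not in the maximal ideal
  have hnot : ¬ v t ≤ exp (-1) := by
    intro h1
    have h3 : v (γ + (b * t + t ^ 2 * (a + t))) = exp (-1) := by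
      refine Eq.add H.hγ (Le.add ?_ ?_)
      · exact Le.mono (Le.mul H.hb h1) (by omega)
      · refine Le.mono (Le.mul (Le.pow2 h1) (Le.add H.ha (Le.mono h1 (by omega)))) (by omega)
    rw [← e1] at h3
    by_cases h4 : v d ≤ exp (-1)
    · have h5 := Le.mul h4 (Le.add h4 h2y)
      rw [h3, exp_le_exp] at h5
      omega
    · have hd0 : d ≠ 0 := by
        rintro h0
        rw [h0, map_zero] at h4
        exact h4 zero_le
      obtain ⟨k, hk⟩ := exists_exp (w := v) hd0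
      rw [hk, exp_le_exp] at h4
      have h5 := Eq.mul hk (Eq.add hk (Le.mono h2y (by omega)))
      rw [h3] at h5
      have := exp_injective h5
      omega
  have ht0 : t ≠ 0 := by
    rintro h0
    rw [h0, map_zero] at hnot
    exact hnot zero_le
  obtain ⟨k, hk⟩ := exists_exp (w := v) ht0
  have hk0 : 0 ≤ k := by
    rw [hk, exp_le_exp] at hnot
    omega
  have hY2 : v (Y ^ 2) ≤ exp (3 * k) := by
    rw [hXY]
    refine Le.add (Le.add (Le.add (Le.pow3 hk.le) ?_) ?_) ?_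
    · exact Le.mono (Le.mul H.ha (Le.pow2 hk.le)) (by omega)
    · exact Le.mono (Le.mul H.hb hk.le) (by omega)
    · exact Le.add (Le.mono (Le.pow2 H.hy) (by omega)) (Le.mono H.hγ.le (by omega))
  -- parity
  obtain ⟨n, hn⟩ : ∃ n : ℕ, k = 2 * (n : ℤ) := by
    rcases Int.lt_or_le 0 k with h1 | h1
    · have h3 : v (t ^ 3 + (a * t ^ 2 + b * t + (y₀ ^ 2 + γ))) = exp (3 * k) := by
        have e3 : v (t ^ 3) = exp (3 * k) := by
          have := Eq.mul (Eq.pow2 hk) hk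
          have e4 : t ^ 2 * t = t ^ 3 := by ring
          rw [e4] at this
          rw [this]
          congr 1
          ring
        refine Eq.add e3 (Le.add (Le.add ?_ ?_) ?_)
        · exact Le.mono (Le.mul H.ha (Le.pow2 hk.le)) (by omega)
        · exact Le.mono (Le.mul H.hb hk.le) (by omega)
        · exact Le.add (Le.mono (Le.pow2 H.hy) (by omega)) (Le.mono H.hγ.le (by omega))
      have e5 : Y ^ 2 = t ^ 3 + (a * t ^ 2 + b * t + (y₀ ^ 2 + γ)) := by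
        rw [hXY]
        ring
      rw [← e5] at h3
      have hY0 : Y ≠ 0 := by
        rintro h0
        rw [h0, zero_pow two_ne_zero, map_zero] at h3
        exact exp_ne_zero h3.symm
      obtain ⟨j, hj⟩ := exists_exp (w := v) hY0
      rw [Eq.pow2 hj] at h3
      have h4 := exp_injective h3
      exact ⟨(k / 2).toNat, by omega⟩
    · exact ⟨0, by omega⟩
  rw [hn] at hk hY2
  have hYn : v Y ≤ exp (3 * (n : ℤ)) := by
    by_cases hY0 : Y = 0
    · rw [hY0, map_zero]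
      exact zero_le
    · obtain ⟨j, hj⟩ := exists_exp (w := v) hY0
      rw [Eq.pow2 hj, exp_le_exp] at hY2
      rw [hj, exp_le_exp]
      omega
  have hdn : v d ≤ exp (3 * (n : ℤ)) := by
    rw [hd]
    exact Le.sub hYn (Le.mono H.hy (by omega))
  refine ⟨n, t, d / t, -γ / t, t + a - (d / t) ^ 2, hX, hk, ?_, ?_, rfl, rfl, ?_⟩
  · exact Le.mono (Le.div hdn hk) (by omega)
  · rw [hd]
    field_simp
    ring
  · field_simp
    linear_combination (-1 : E) * e1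

/-- Bounds for the coefficients. -/
theorem PtD.bd (H : T2D v f x₀ y₀ a b γ e) {X Y : E} {n : ℕ} {t l g₀ g₁ : E}
    (D : PtD v x₀ y₀ a b γ X Y n t l g₀ g₁) :
    v g₀ = exp (-(2 * (n : ℤ)) - 1) ∧ (n + 1 ≤ e → v g₁ ≤ exp (-(2 * (n : ℤ)) - 1)) ∧
    (e ≤ n → v g₀ ≤ exp (-(2 * (e : ℤ))) ∧ v g₁ ≤ exp (-(2 * (e : ℤ)))) := by
  have ht0 : t ≠ 0 := ne_of_exp D.ht
  have hg0 : v g₀ = exp (-(2 * (n : ℤ)) - 1) := by
    rw [D.g0, Eq.div (Eq.neg H.hγ) D.ht]
    congr 1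
    ring
  have hg1 : g₁ = (g₀ - b + 2 * y₀ * l) / t := by
    rw [← D.g1']
    field_simp
  have h2l : v (2 * y₀ * l) ≤ exp (-(e : ℤ) + n) :=
    Le.mono (Le.mul (Le.mul H.h2.le H.hy) D.hl) (by omega)
  have he := H.he
  refine ⟨hg0, fun hn => ?_, fun hn => ⟨?_, ?_⟩⟩
  · rw [hg1]
    refine Le.mono (Le.div (k := -1) (Le.add (Le.sub ?_ H.hb) ?_) D.ht) (by omega)
    · exact Le.mono hg0.le (by omega)
    · exact Le.mono h2l (by omega)
  · exact Le.mono hg0.le (by omega)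
  · rw [hg1]
    refine Le.mono (Le.div (k := -(e : ℤ) + n) (Le.add (Le.sub ?_ ?_) h2l) D.ht) (by omega)
    · exact Le.mono hg0.le (by omega)
    · exact Le.mono H.hb (by omega)

/-- Comparison of two points. -/
theorem PtD.cmp (H : T2D v f x₀ y₀ a b γ e) {X Y X' Y' : E} {n : ℕ} {t l g₀ g₁ t' l' g₀' g₁' : E}
    (D : PtD v x₀ y₀ a b γ X Y n t l g₀ g₁) (D' : PtD v x₀ y₀ a b γ X' Y' n t' l' g₀' g₁')
    (hn : n + 1 ≤ e) (ht : v (1 / t - 1 / t') ≤ exp (-(2 * (n : ℤ)) - 1))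
    (hl : v (l - l') ≤ exp ((n : ℤ) - 1)) :
    v (g₀ - g₀') ≤ exp (-(2 * (n : ℤ)) - 2) ∧ v (g₁ - g₁') ≤ exp (-(2 * (n : ℤ)) - 2) := by
  have ht0 : t ≠ 0 := ne_of_exp D.ht
  have ht0' : t' ≠ 0 := ne_of_exp D'.ht
  obtain ⟨hg0, hg1, -⟩ := D.bd H
  have hg1e : g₁ = (1 / t) * (g₀ - b + 2 * y₀ * l) := by
    rw [← D.g1']
    field_simp
  have hg1e' : g₁' = (1 / t') * (g₀' - b + 2 * y₀ * l') := by
    rw [← D'.g1']
    field_simp
  have h0 : v (g₀ - g₀') ≤ exp (-(2 * (n : ℤ)) - 2) := by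
    have e1 : g₀ - g₀' = -γ * (1 / t - 1 / t') := by
      rw [D.g0, D'.g0]
      ring
    rw [e1]
    exact Le.mono (Le.mul (Le.neg H.hγ.le) ht) (by omega)
  refine ⟨h0, ?_⟩
  have e1 : g₁ - g₁' = (1 / t - 1 / t') * (g₀ - b + 2 * y₀ * l) +
      (1 / t') * ((g₀ - g₀') + 2 * y₀ * (l - l')) := by
    rw [hg1e, hg1e']
    ring
  have hone : v (1 : E) = exp 0 := by rw [map_one, exp_zero]
  have h1t : v (1 / t') ≤ exp (-(2 * (n : ℤ))) := Le.mono (Eq.div hone D'.ht).le (by omega)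
  rw [e1]
  refine Le.add ?_ ?_
  · refine Le.mono (Le.mul ht (l := -1) (Le.add (Le.sub ?_ H.hb) ?_)) (by omega)
    · exact Le.mono hg0.le (by omega)
    · exact Le.mono (Le.mul (Le.mul H.h2.le H.hy) D.hl) (by omega)
  · refine Le.mono (Le.mul h1t (l := -2) (Le.add ?_ ?_)) (by omega)
    · exact Le.mono h0 (by omega)
    · exact Le.mono (Le.mul (Le.mul H.h2.le H.hy) hl) (by omega)

end pts

end Pool.Agent.V7H54.V3
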