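import Pool.Agent.V7H54.D3

/-!
# Construction of points on a curve with reduction of type II
-/

set_option autoImplicit false
set_option linter.all false

open Polynomial WithZero

namespace Pool.Agent.V7H54.V3

section

variable {E : Type} [Field E] [Valued E (WithZero (Multiplicative ℤ))] [CompleteSpace E]
  [T0Space E] {f : E[X]} {x₀ y₀ a b γ : E} {e : ℕ}

/-- A point with given leading coefficients. -/
theorem exists_pt (H : T2D (Valued.v (R := E)) f x₀ y₀ a b γ e) {n : ℕ} (hn : n + 1 ≤ e) {u₁ l : E}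
    (hu : Valued.v (R := E) u₁ = exp (-(2 * (n : ℤ)))) (hl : Valued.v (R := E) l ≤ exp (n : ℤ))
    (hul : Valued.v (R := E) (1 / u₁ + a - l ^ 2) ≤ exp (2 * (n : ℤ) - 1)) :
    ∃ X Y : E, Y ^ 2 = f.eval X ∧ ∃ t g₀ g₁ : E,
      PtD (Valued.v (R := E)) x₀ y₀ a b γ X Y n t l g₀ g₁ ∧
      Valued.v (R := E) (1 / t - u₁) ≤ exp (-(2 * (n : ℤ)) - 1) := by
  have hu0 : u₁ ≠ 0 := ne_of_exp hu
  have hone : Valued.v (R := E) (1 : E) = exp 0 := by rw [map_one, exp_zero]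
  obtain ⟨c₁, hc₁⟩ : ∃ c₁, c₁ = (a - l ^ 2) * u₁ := ⟨_, rfl⟩
  obtain ⟨c₂, hc₂⟩ : ∃ c₂, c₂ = (b - 2 * y₀ * l) * u₁ ^ 2 := ⟨_, rfl⟩
  obtain ⟨c₃, hc₃⟩ : ∃ c₃, c₃ = γ * (u₁ ^ 2 * u₁) := ⟨_, rfl⟩
  have k1 : Valued.v (R := E) (1 + c₁) ≤ exp (-1) := by
    have e1 : 1 + c₁ = (1 / u₁ + a - l ^ 2) * u₁ := by
      rw [hc₁]
      field_simp
      ring
    rw [e1]
    exact Le.mono (Le.mul hul hu.le) (by omega)
  have v1 : Valued.v (R := E) c₁ = exp 0 := by
    have e1 : c₁ = -1 + (1 + c₁) := by ring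
    rw [e1]
    exact Eq.add (Eq.neg hone) (Le.mono k1 (by omega))
  have v2 : Valued.v (R := E) c₂ ≤ exp (-1) := by
    rw [hc₂]
    refine Le.mono (Le.mul (k := -1) (Le.sub H.hb ?_) (Le.pow2 hu.le)) (by omega)
    exact Le.mono (Le.mul (Le.mul H.h2.le H.hy) hl) (by omega)
  have v3 : Valued.v (R := E) c₃ ≤ exp (-1) := by
    rw [hc₃]
    exact Le.mono (Le.mul H.hγ.le (Le.mul (Le.pow2 hu.le) hu.le)) (by omega)
  obtain ⟨p, hp⟩ : ∃ p : E[X], p = C 1 + C c₁ * X + C c₂ * X ^ 2 + C c₃ * X ^ 3 := ⟨_, rfl⟩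
  have hint : ∀ i, Valued.v (R := E) (p.coeff i) ≤ 1 := by
    intro i
    rw [hp]
    rcases lt_or_ge i 4 with hi | hi
    · have k0 : (C 1 + C c₁ * X + C c₂ * X ^ 2 + C c₃ * X ^ 3 : E[X]).coeff 0 = 1 := by simp
      have k1 : (C 1 + C c₁ * X + C c₂ * X ^ 2 + C c₃ * X ^ 3 : E[X]).coeff 1 = c₁ := by
        simp [coeff_one]
      have k2 : (C 1 + C c₁ * X + C c₂ * X ^ 2 + C c₃ * X ^ 3 : E[X]).coeff 2 = c₂ := by
        simp [coeff_one, coeff_X]
      have k3 : (C 1 + C c₁ * X + C c₂ * X ^ 2 + C c₃ * X ^ 3 : E[X]).coeff 3 = c₃ := by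
        simp [coeff_one, coeff_X]
      interval_cases i
      · rw [k0, map_one]
      · rw [k1, v1, exp_zero]
      · rw [k2]
        exact Le.zero_iff.2 (Le.mono v2 (by omega))
      · rw [k3]
        exact Le.zero_iff.2 (Le.mono v3 (by omega))
    · have hdeg : (C 1 + C c₁ * X + C c₂ * X ^ 2 + C c₃ * X ^ 3 : E[X]).natDegree ≤ 3 := by
        compute_degree
      rw [coeff_eq_zero_of_natDegree_lt (by omega), map_zero]
      exact zero_le
  have hev : ∀ U : E, p.eval U = 1 + c₁ * U + c₂ * U ^ 2 + c₃ * U ^ 3 := by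
    intro U
    rw [hp]
    simp
  have hder : (derivative p).eval 1 = c₁ + (2 * c₂ + 3 * c₃) := by
    rw [hp]
    simp
    ring
  obtain ⟨U, hU0, hU1⟩ := Pool.Agent.N704.PJ.hensel p hint (a := 1) (by rw [map_one]) (by
      rw [hev, Le.one_iff]
      have e1 : 1 + c₁ * 1 + c₂ * 1 ^ 2 + c₃ * 1 ^ 3 = (1 + c₁) + (c₂ + c₃) := by ring
      rw [e1]
      exact Le.add k1 (Le.add v2 v3)) (by
      rw [hder, ← exp_zero]
      refine Eq.add v1 (Le.mono (Le.add (k := -1) ?_ ?_) (by omega))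
      · have := H.he
        exact Le.mono (Le.mul H.h2.le v2) (by omega)
      · have h3 : Valued.v (R := E) (3 : E) ≤ exp 0 := by
          have e3 : (3 : E) = 1 + 2 := by norm_num
          rw [e3]
          exact Le.add hone.le (Le.mono H.h2.le (by omega))
        exact Le.mono (Le.mul h3 v3) (by omega))
  rw [hev] at hU0
  rw [Le.one_iff] at hU1
  have hvU : Valued.v (R := E) U = exp 0 := by
    have e1 : U = 1 + (U - 1) := by ring
    rw [e1]
    exact Eq.add hone (Le.mono hU1 (by omega))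
  have hU00 : U ≠ 0 := ne_of_exp hvU
  obtain ⟨u, hu'⟩ : ∃ u, u = u₁ * U := ⟨_, rfl⟩
  have hvu : Valued.v (R := E) u = exp (-(2 * (n : ℤ))) := by
    rw [hu', Eq.mul hu hvU]
    congr 1
    ring
  have hu00 : u ≠ 0 := ne_of_exp hvu
  obtain ⟨t, ht⟩ : ∃ t, t = 1 / u := ⟨_, rfl⟩
  have hvt : Valued.v (R := E) t = exp (2 * (n : ℤ)) := by
    rw [ht, Eq.div hone hvu]
    congr 1
    ring
  have ht0 : t ≠ 0 := ne_of_exp hvt
  have hcub : t ^ 3 + (a - l ^ 2) * t ^ 2 + (b - 2 * y₀ * l) * t + γ = 0 := by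
    have e1 : 1 + (a - l ^ 2) * u + (b - 2 * y₀ * l) * u ^ 2 + γ * u ^ 3 = 0 := by
      rw [← hU0, hc₁, hc₂, hc₃, hu']
      ring
    have e2 : t ^ 3 * (1 + (a - l ^ 2) * u + (b - 2 * y₀ * l) * u ^ 2 + γ * u ^ 3) =
        t ^ 3 + (a - l ^ 2) * t ^ 2 + (b - 2 * y₀ * l) * t + γ := by
      rw [ht]
      field_simp
    rw [← e2, e1, mul_zero]
  refine ⟨x₀ + t, y₀ + l * t, ?_, t, -γ / t, t + a - l ^ 2, ⟨rfl, hvt, hl, rfl, rfl, rfl, ?_⟩, ?_⟩
  · rw [H.hf]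
    linear_combination (-1 : E) * hcub
  · field_simp
    linear_combination hcub
  · have e1 : 1 / t - u₁ = u₁ * (U - 1) := by
      rw [ht, one_div_one_div, hu']
      ring
    rw [e1]
    exact Le.mono (Le.mul hu.le hU1) (by omega)

/-- The slope. -/
theorem exists_slope [Finite (IsLocalRing.ResidueField (Valued.v (R := E)).valuationSubring)]
    (H : T2D (Valued.v (R := E)) f x₀ y₀ a b γ e) {n : ℕ} {u₁ : E}
    (hu : Valued.v (R := E) u₁ = exp (-(2 * (n : ℤ)))) :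
    ∃ l : E, Valued.v (R := E) l ≤ exp (n : ℤ) ∧
      Valued.v (R := E) (1 / u₁ + a - l ^ 2) ≤ exp (2 * (n : ℤ) - 1) := by
  have hone : Valued.v (R := E) (1 : E) = exp 0 := by rw [map_one, exp_zero]
  have hγ0 : γ ≠ 0 := ne_of_exp H.hγ
  have hγn : ∀ m : ℕ, Valued.v (R := E) (γ ^ m) = exp (-(m : ℤ)) := by
    intro m
    induction m with
    | zero => rw [pow_zero, hone]; simp
    | succ m ih =>
      rw [pow_succ, Eq.mul ih H.hγ]
      congr 1
      push_cast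
      ring
  have he := H.he
  obtain ⟨s, hs1, hs2⟩ := sq_res (v := Valued.v (R := E)) (by
    rw [Le.one_iff]
    exact Le.mono H.h2.le (by omega)) ((1 / u₁ + a) * γ ^ (2 * n)) (by
    rw [Le.zero_iff]
    refine Le.mono (Le.mul (k := 2 * (n : ℤ)) (Le.add ?_ (Le.mono H.ha (by omega)))
      (hγn (2 * n)).le) (by push_cast; omega)
    exact Le.mono (Eq.div hone hu).le (by omega))
  rw [Le.zero_iff] at hs1
  rw [Le.one_iff] at hs2
  refine ⟨s / γ ^ n, ?_, ?_⟩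
  · exact Le.mono (Le.div hs1 (hγn n)) (by omega)
  · have e1 : 1 / u₁ + a - (s / γ ^ n) ^ 2 =
        ((1 / u₁ + a) * γ ^ (2 * n) - s ^ 2) / γ ^ (2 * n) := by
      have e2 : γ ^ (2 * n) = (γ ^ n) ^ 2 := by ring
      rw [e2]
      field_simp
    rw [e1]
    exact Le.mono (Le.div hs2 (hγn (2 * n))) (by push_cast; omega)

end

end Pool.Agent.V7H54.V3
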