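import Mathlib

/-!
# Descent of square classes in a Galois 2-extension

`Ω / L` is a Galois extension of 2-power degree. A set of elements of `Ω` which is closed under
products and the Galois group and which contains a non-square contains a non-square `z` such that
`σ z / z` is a square for all `σ`. If `Ω = K L` where `K / F` is Galois of 2-power degree and
`[L : F] = [Ω : K]` is odd, and the norm of `z` to `K` is a square, then `z` is a square times an
element of `L` whose norm to `F` is a square.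
-/

set_option autoImplicit false
set_option linter.all false

open Polynomial

namespace Pool.Agent.V7H54.Desc

/-! ### Fixed points -/

section fixed

variable {L Ω : Type*} [Field L] [Field Ω] [Algebra L Ω] [FiniteDimensional L Ω] [IsGalois L Ω]

/-- The group of square classes. -/
abbrev Q (Ω : Type*) [Field Ω] : Type _ := Ωˣ ⧸ (powMonoidHom 2 : Ωˣ →* Ωˣ).range

theorem mk_eq_one_iff (x : Ωˣ) : (QuotientGroup.mk x : Q Ω) = 1 ↔ IsSquare (x : Ω) := by
  rw [QuotientGroup.eq_one_iff, MonoidHom.mem_range]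
  constructor
  · rintro ⟨y, hy⟩
    refine ⟨y, ?_⟩
    rw [← hy]
    simp [pow_two]
  · rintro ⟨y, hy⟩
    have hy0 : y ≠ 0 := by
      rintro rfl
      exact x.ne_zero (by rw [hy, zero_mul])
    refine ⟨Units.mk0 y hy0, ?_⟩
    ext
    simp [pow_two, hy]

/-- The action of an automorphism on square classes. -/
noncomputable def act (σ : Ω ≃ₐ[L] Ω) : Q Ω →* Q Ω :=
  QuotientGroup.map _ _ (Units.map (σ : Ω →* Ω)) (by
    rintro _ ⟨y, rfl⟩
    rw [Subgroup.mem_comap]
    refine ⟨Units.map (σ : Ω →* Ω) y, ?_⟩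
    ext
    simp)

theorem act_mk (σ : Ω ≃ₐ[L] Ω) (x : Ωˣ) :
    act σ (QuotientGroup.mk x : Q Ω) = QuotientGroup.mk (Units.map (σ : Ω →* Ω) x) := rfl

theorem act_one (c : Q Ω) : act (1 : Ω ≃ₐ[L] Ω) c = c := by
  obtain ⟨x, rfl⟩ := QuotientGroup.mk_surjective c
  rfl

theorem act_mul (σ τ : Ω ≃ₐ[L] Ω) (c : Q Ω) : act (σ * τ) c = act σ (act τ c) := by
  obtain ⟨x, rfl⟩ := QuotientGroup.mk_surjective c
  rw [act_mk, act_mk, act_mk]
  congr 1

/-- Existence of a non-square fixed up to squares. -/
theorem exists_fixed {n : ℕ} (hn : Module.finrank L Ω = 2 ^ n) (P : Ω → Prop)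
    (h0 : ∀ x, P x → x ≠ 0) (hmul : ∀ x y, P x → P y → P (x * y))
    (hgal : ∀ (σ : Ω ≃ₐ[L] Ω) x, P x → P (σ x)) (h1 : P 1) (x : Ω) (hx : P x)
    (hns : ¬ IsSquare x) :
    ∃ z : Ω, P z ∧ ¬ IsSquare z ∧ ∀ σ : Ω ≃ₐ[L] Ω, ∃ c : Ω, σ z = z * c ^ 2 := by
  classical
  obtain ⟨u, hu⟩ : ∃ u : Ωˣ, (u : Ω) = x := ⟨Units.mk0 x (h0 x hx), rfl⟩
  -- the orbit and the group generated by it
  let O : Set (Q Ω) := Set.range fun σ : Ω ≃ₐ[L] Ω => act σ (QuotientGroup.mk u)
  let H : Subgroup (Q Ω) := Subgroup.closure O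
  have hsq : ∀ c : Q Ω, c ^ 2 = 1 := by
    intro c
    obtain ⟨y, rfl⟩ := QuotientGroup.mk_surjective c
    rw [← QuotientGroup.mk_pow, QuotientGroup.eq_one_iff]
    exact ⟨y, rfl⟩
  -- every element of `H` is the class of an element with `P`
  have hP : ∀ c ∈ H, ∃ z : Ωˣ, P z ∧ (QuotientGroup.mk z : Q Ω) = c := by
    intro c hc
    induction hc using Subgroup.closure_induction with
    | mem c hc =>
      obtain ⟨σ, rfl⟩ := hc
      refine ⟨Units.map (σ : Ω →* Ω) u, ?_, (act_mk σ u).symm⟩
      have : P (σ x) := hgal σ x hx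
      rw [← hu] at this
      exact this
    | one => exact ⟨1, h1, rfl⟩
    | mul c c' _ _ ih ih' =>
      obtain ⟨z, hz, rfl⟩ := ih
      obtain ⟨z', hz', rfl⟩ := ih'
      exact ⟨z * z', by rw [Units.val_mul]; exact hmul _ _ hz hz', rfl⟩
    | inv c _ ih =>
      obtain ⟨z, hz, rfl⟩ := ih
      refine ⟨z, hz, ?_⟩
      have h2 := hsq (QuotientGroup.mk z)
      rw [pow_two] at h2
      exact eq_inv_of_mul_eq_one_left h2
  have hact : ∀ (σ : Ω ≃ₐ[L] Ω) (c : Q Ω), c ∈ H → act σ c ∈ H := by
    intro σ c hc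
    have hle : H ≤ H.comap (act σ) := by
      rw [Subgroup.closure_le]
      rintro _ ⟨τ, rfl⟩
      rw [SetLike.mem_coe, Subgroup.mem_comap]
      refine Subgroup.subset_closure ⟨σ * τ, ?_⟩
      exact act_mul σ τ _
    exact hle hc
  letI : MulAction (Ω ≃ₐ[L] Ω) H :=
    { smul := fun σ c => ⟨act σ c, hact σ c c.2⟩
      one_smul := fun c => Subtype.ext (act_one _)
      mul_smul := fun σ τ c => Subtype.ext (act_mul σ τ _) }
  have hsm : ∀ (σ : Ω ≃ₐ[L] Ω) (c : H), ((σ • c : H) : Q Ω) = act σ c := fun σ c => rfl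
  -- `H` is finite
  haveI : Finite O := Set.finite_range _
  haveI hfg : Group.FG H := by
    rw [Group.fg_iff_subgroup_fg]
    exact ⟨(Set.toFinite O).toFinset, by rw [Set.Finite.coe_toFinset]⟩
  haveI hfin : Finite H := by
    refine CommGroup.finite_of_fg_isMulTorsion H ?_
    intro c
    rw [isOfFinOrder_iff_pow_eq_one]
    exact ⟨2, two_pos, Subtype.ext (hsq c)⟩
  have hne : (⟨QuotientGroup.mk u, Subgroup.subset_closure ⟨1, act_one _⟩⟩ : H) ≠ 1 := by
    intro h
    have h2 : (QuotientGroup.mk u : Q Ω) = 1 := congrArg Subtype.val h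
    rw [mk_eq_one_iff, hu] at h2
    exact hns h2
  have hcard : 2 ∣ Nat.card H := by
    have h3 : orderOf (⟨QuotientGroup.mk u, Subgroup.subset_closure ⟨1, act_one _⟩⟩ : H) = 2 := by
      refine orderOf_eq_prime ?_ hne
      ext
      exact hsq _
    exact (dvd_of_eq h3.symm).trans (orderOf_dvd_natCard _)
  have hG : IsPGroup 2 (Ω ≃ₐ[L] Ω) := by
    refine IsPGroup.of_card (n := n) ?_
    rw [IsGalois.card_aut_eq_finrank, hn]
  haveI : Fact (Nat.Prime 2) := ⟨Nat.prime_two⟩
  obtain ⟨b, hb, hb1⟩ := hG.exists_fixed_point_of_prime_dvd_card_of_fixed_point H hcard (a := 1) (by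
    intro σ
    ext
    rw [hsm]
    exact map_one _)
  obtain ⟨z, hz, hzb⟩ := hP b b.2
  refine ⟨z, hz, ?_, fun σ => ?_⟩
  · intro hs
    rw [← mk_eq_one_iff, hzb] at hs
    exact hb1 (Subtype.ext hs.symm)
  · have h4 : act σ (b : Q Ω) = b := by rw [← hsm, hb σ]
    rw [← hzb, act_mk, eq_comm, QuotientGroup.eq, MonoidHom.mem_range] at h4
    obtain ⟨c, hc⟩ := h4
    refine ⟨c, ?_⟩
    have h5 := congrArg (fun t : Ωˣ => (z : Ω) * (t : Ω)) hc
    simp only [powMonoidHom_apply, Units.val_pow_eq_pow_val, Units.val_mul, Units.coe_map] at h5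
    rw [h5, ← mul_assoc, Units.mul_inv, one_mul]
    rfl

end fixed

/-! ### Descent -/

section res

variable {F K L Ω : Type*} [Field F] [Field K] [Field L] [Field Ω] [Algebra F K] [Algebra F L]
  [Algebra F Ω] [Algebra K Ω] [Algebra L Ω] [IsScalarTower F K Ω] [IsScalarTower F L Ω]
  [IsGalois F K]

/-- The restriction of an automorphism to `K`. -/
theorem exists_res (σ : Ω ≃ₐ[L] Ω) :
    ∃ τ : K ≃ₐ[F] K, ∀ k : K, algebraMap K Ω (τ k) = σ (algebraMap K Ω k) := by
  refine ⟨AlgEquiv.restrictNormal (σ.restrictScalars F) K, fun k => ?_⟩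
  exact AlgEquiv.restrictNormal_commutes (σ.restrictScalars F) K k

theorem norm_gal (σ : Ω ≃ₐ[L] Ω) (τ : K ≃ₐ[F] K)
    (h : ∀ k : K, algebraMap K Ω (τ k) = σ (algebraMap K Ω k)) (y : Ω) :
    Algebra.norm K (σ y) = τ (Algebra.norm K y) := by
  have h1 := Algebra.norm_eq_of_equiv_equiv (A₁ := K) (A₂ := K) (B₁ := Ω) (B₂ := Ω)
    (τ : K ≃+* K) (σ : Ω ≃+* Ω) (by
      ext k
      exact h k) y
  rw [h1]
  exact ((τ : K ≃+* K).apply_symm_apply _).symm

end res

section descent

variable {F K L Ω : Type*} [Field F] [Field K] [Field L] [Field Ω] [Algebra F K] [Algebra F L]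
  [Algebra F Ω] [Algebra K Ω] [Algebra L Ω] [IsScalarTower F K Ω] [IsScalarTower F L Ω]
  [FiniteDimensional F K] [IsGalois F K]
  {ι : Type*} [Fintype ι] [DecidableEq ι] (b : Module.Basis ι F L) (b' : Module.Basis ι K Ω)
  (hb : ∀ i, b' i = algebraMap L Ω (b i))

include b b' hb

theorem finDim : FiniteDimensional F Ω := by
  haveI : FiniteDimensional K Ω := Module.Finite.of_basis b'
  exact FiniteDimensional.trans F K Ω

theorem rank_eq : Module.finrank L Ω = Module.finrank F K := by
  haveI := finDim b b' hb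
  haveI : FiniteDimensional F L := Module.Finite.of_basis b
  have h1 := Module.finrank_mul_finrank F K Ω
  have h2 := Module.finrank_mul_finrank F L Ω
  rw [Module.finrank_eq_card_basis b'] at h1
  rw [Module.finrank_eq_card_basis b] at h2
  have h3 : 0 < Fintype.card ι := by
    rw [← Module.finrank_eq_card_basis b]
    exact Module.finrank_pos
  rw [← h1, mul_comm] at h2
  exact Nat.eq_of_mul_eq_mul_right h3 h2

theorem galois : IsGalois L Ω := by
  haveI := finDim b b' hb
  haveI : FiniteDimensional L Ω := FiniteDimensional.right F L Ω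
  obtain ⟨p, hsep, hsp⟩ := IsGalois.is_separable_splitting_field F K
  haveI : (p.map (algebraMap F L)).IsSplittingField L Ω := by
    constructor
    · rw [Polynomial.map_map, ← IsScalarTower.algebraMap_eq F L Ω, IsScalarTower.algebraMap_eq F K Ω,
        ← Polynomial.map_map]
      exact hsp.splits'.map _
    · rw [eq_top_iff]
      rintro y -
      -- every element of `K` is in the algebra generated by the zeros
      have hK : ∀ k : K, algebraMap K Ω k ∈
          Algebra.adjoin L ((p.map (algebraMap F L)).rootSet Ω) := by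
        intro k
        have hk : k ∈ Algebra.adjoin F (p.rootSet K) := by
          rw [hsp.adjoin_rootSet']
          trivial
        induction hk using Algebra.adjoin_induction with
        | mem x hx =>
          refine Algebra.subset_adjoin ?_
          rw [mem_rootSet'] at hx ⊢
          rw [Polynomial.map_map, ← IsScalarTower.algebraMap_eq F L Ω]
          refine ⟨?_, ?_⟩
          · rw [Polynomial.map_ne_zero_iff (algebraMap F Ω).injective]
            rw [Polynomial.map_ne_zero_iff (algebraMap F K).injective] at hx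
            exact hx.1
          · rw [aeval_map_algebraMap, aeval_algebraMap_apply, hx.2, map_zero]
        | algebraMap r =>
          rw [← IsScalarTower.algebraMap_apply F K Ω, IsScalarTower.algebraMap_apply F L Ω]
          exact Subalgebra.algebraMap_mem _ _
        | add x y _ _ hx hy =>
          rw [map_add]
          exact add_mem hx hy
        | mul x y _ _ hx hy =>
          rw [map_mul]
          exact mul_mem hx hy
      rw [← b'.sum_repr y]
      refine sum_mem fun i _ => ?_
      rw [Algebra.smul_def, hb]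
      exact mul_mem (hK _) (Subalgebra.algebraMap_mem _ _)
  exact IsGalois.of_separable_splitting_field (p := p.map (algebraMap F L)) hsep.map

theorem norm_up (x : L) :
    Algebra.norm K (algebraMap L Ω x) = algebraMap F K (Algebra.norm F x) := by
  rw [Algebra.norm_eq_matrix_det b', Algebra.norm_eq_matrix_det b, RingHom.map_det]
  congr 1
  ext i j
  rw [Algebra.leftMulMatrix_eq_repr_mul, RingHom.mapMatrix_apply, Matrix.map_apply,
    Algebra.leftMulMatrix_eq_repr_mul]
  have h1 : algebraMap L Ω x * b' j = ∑ k, (algebraMap F K (b.repr (x * b j) k)) • b' k := by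
    rw [hb, ← map_mul]
    conv_lhs => rw [← b.sum_repr (x * b j)]
    rw [map_sum]
    refine Finset.sum_congr rfl fun k _ => ?_
    rw [Algebra.smul_def, map_mul, ← IsScalarTower.algebraMap_apply F L Ω, hb, Algebra.smul_def,
      ← IsScalarTower.algebraMap_apply F K Ω]
  rw [h1, map_sum, Finsupp.finset_sum_apply]
  simp only [map_smul, Module.Basis.repr_self, Finsupp.smul_single, smul_eq_mul, mul_one]
  rw [Finset.sum_eq_single i]
  · rw [Finsupp.single_eq_same]
  · intro k _ hk
    rw [Finsupp.single_eq_of_ne]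
    exact fun h => hk h.symm
  · intro h
    exact absurd (Finset.mem_univ _) h

theorem fixed_mem (n : ℕ) (hn : Module.finrank F K = 2 ^ n) (hodd : Odd (Fintype.card ι)) (r : K)
    (hr : ∀ σ : Ω ≃ₐ[L] Ω, σ (algebraMap K Ω r) = algebraMap K Ω r) :
    ∃ a : F, algebraMap F K a = r := by
  haveI := finDim b b' hb
  haveI := galois b b' hb
  haveI : FiniteDimensional L Ω := FiniteDimensional.right F L Ω
  haveI : FiniteDimensional F L := Module.Finite.of_basis b
  obtain ⟨l, hl⟩ : algebraMap K Ω r ∈ (⊥ : IntermediateField L Ω) :=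
    (IsGalois.mem_bot_iff_fixed (F := L) (algebraMap K Ω r)).2 hr
  have hl' : algebraMap L Ω l = algebraMap K Ω r := hl
  have e1 : minpoly F l = minpoly F r := by
    rw [← minpoly.algebraMap_eq (B := L) (B' := Ω) (algebraMap L Ω).injective, hl',
      minpoly.algebraMap_eq (B := K) (B' := Ω) (algebraMap K Ω).injective]
  have d1 : (minpoly F r).natDegree ∣ 2 ^ n := by
    rw [← hn, ← IntermediateField.adjoin.finrank (Algebra.IsIntegral.isIntegral r)]
    exact ⟨_, (Module.finrank_mul_finrank F (IntermediateField.adjoin F {r}) K).symm⟩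
  have d2 : (minpoly F r).natDegree ∣ Fintype.card ι := by
    rw [← e1, ← Module.finrank_eq_card_basis b,
      ← IntermediateField.adjoin.finrank (Algebra.IsIntegral.isIntegral l)]
    exact ⟨_, (Module.finrank_mul_finrank F (IntermediateField.adjoin F {l}) L).symm⟩
  have d3 : (minpoly F r).natDegree = 1 := by
    have hc : Nat.Coprime (2 ^ n) (Fintype.card ι) :=
      Nat.Coprime.pow_left n ((Nat.coprime_two_left).2 hodd)
    exact Nat.eq_one_of_dvd_coprimes hc d1 d2
  have h3 := minpoly.natDegree_eq_one_iff.1 d3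
  exact h3

/-- **Descent.** -/
theorem descend (n : ℕ) (hn : Module.finrank F K = 2 ^ n) (hodd : Odd (Fintype.card ι))
    (h2 : (2 : Ω) ≠ 0) (z : Ω) (hz0 : z ≠ 0) (hN : IsSquare (Algebra.norm K z))
    (hfix : ∀ σ : Ω ≃ₐ[L] Ω, ∃ c : Ω, σ z = z * c ^ 2) :
    ∃ (x : L) (u : Ω), x ≠ 0 ∧ u ≠ 0 ∧ z = algebraMap L Ω x * u ^ 2 ∧
      IsSquare (Algebra.norm F x) := by
  haveI := finDim b b' hb
  haveI := galois b b' hb
  haveI : FiniteDimensional L Ω := FiniteDimensional.right F L Ω
  haveI : FiniteDimensional F L := Module.Finite.of_basis b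
  haveI : FiniteDimensional K Ω := Module.Finite.of_basis b'
  obtain ⟨w, hw⟩ := hN
  have hw0 : w ≠ 0 := by
    rintro rfl
    rw [mul_zero, Algebra.norm_eq_zero_iff] at hw
    exact hz0 hw
  choose τ hτ using exists_res (F := F) (K := K) (L := L) (Ω := Ω)
  have hrk : Module.finrank K Ω = Fintype.card ι := Module.finrank_eq_card_basis b'
  -- the normalised elements
  have hex : ∀ σ : Ω ≃ₐ[L] Ω, ∃ c : Ω, σ z = z * c ^ 2 ∧ τ σ w = w * Algebra.norm K c := by
    intro σ
    obtain ⟨c, hc⟩ := hfix σ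
    have h3 := congrArg (Algebra.norm K) hc
    rw [norm_gal σ (τ σ) (hτ σ), map_mul, map_pow, hw, map_mul] at h3
    have h4 : (τ σ w - w * Algebra.norm K c) * (τ σ w + w * Algebra.norm K c) = 0 := by
      linear_combination h3
    rcases mul_eq_zero.1 h4 with h5 | h5
    · exact ⟨c, hc, sub_eq_zero.1 h5⟩
    · refine ⟨-c, by rw [neg_sq]; exact hc, ?_⟩
      have h6 : Algebra.norm K (-c) = - Algebra.norm K c := by
        have : (-c : Ω) = algebraMap K Ω (-1) * c := by rw [map_neg, map_one]; ring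
        rw [this, map_mul, Algebra.norm_algebraMap, hrk, hodd.neg_one_pow]
        ring
      rw [h6]
      linear_combination h5
  have huniq : ∀ (σ : Ω ≃ₐ[L] Ω) (c c' : Ω), σ z = z * c ^ 2 → τ σ w = w * Algebra.norm K c →
      σ z = z * c' ^ 2 → τ σ w = w * Algebra.norm K c' → c = c' := by
    intro σ c c' a1 a2 a3 a4
    have h3 : (c - c') * (c + c') = 0 := by
      have : z * ((c - c') * (c + c')) = 0 := by linear_combination a3 - a1
      rcases mul_eq_zero.1 this with h | h
      · exact absurd h hz0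
      · exact h
    rcases mul_eq_zero.1 h3 with h5 | h5
    · exact sub_eq_zero.1 h5
    · exfalso
      have h6 : Algebra.norm K c = - Algebra.norm K c' := by
        have : (c : Ω) = algebraMap K Ω (-1) * c' := by rw [map_neg, map_one]; linear_combination h5
        rw [this, map_mul, Algebra.norm_algebraMap, hrk, hodd.neg_one_pow]
        ring
      have h7 : w * Algebra.norm K c' = 0 := by
        have h8 : (2 : K) * (w * Algebra.norm K c') = 0 := by
          rw [h6] at a2
          linear_combination a2 - a4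
        rcases mul_eq_zero.1 h8 with h | h
        · exfalso
          apply h2
          have := congrArg (algebraMap K Ω) h
          rwa [map_ofNat, map_zero] at this
        · exact h
      rw [← a4] at h7
      exact hw0 ((map_eq_zero _).1 h7)
  choose c hc1 hc2 using hex
  have hc0 : ∀ σ, c σ ≠ 0 := by
    intro σ h
    have := hc1 σ
    rw [h, zero_pow two_ne_zero, mul_zero, EmbeddingLike.map_eq_zero_iff] at this
    exact hz0 this
  let f : (Ω ≃ₐ[L] Ω) → Ωˣ := fun σ => Units.mk0 (c σ) (hc0 σ)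
  have hf : groupCohomology.IsMulCocycle₁ f := by
    intro σ ρ
    ext
    change c (σ * ρ) = σ (c ρ) * c σ
    apply huniq (σ * ρ) _ _ (hc1 _) (hc2 _)
    · rw [AlgEquiv.mul_apply, hc1 ρ, map_mul, map_pow, hc1 σ]
      ring
    · have e1 : τ (σ * ρ) w = τ σ (τ ρ w) := by
        apply (algebraMap K Ω).injective
        rw [hτ, hτ, hτ, AlgEquiv.mul_apply]
      rw [e1, hc2 ρ, map_mul, hc2 σ, map_mul, norm_gal σ (τ σ) (hτ σ)]
      ring
  obtain ⟨u, hu⟩ := groupCohomology.isMulCoboundary₁_of_isMulCocycle₁_of_aut_to_units f hf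
  have hu' : ∀ σ : Ω ≃ₐ[L] Ω, σ (u : Ω) = c σ * u := by
    intro σ
    have h3 := hu σ
    rw [div_eq_iff_eq_mul] at h3
    have h4 := congrArg (fun t : Ωˣ => (t : Ω)) h3
    exact h4
  have hu0 : (u : Ω) ≠ 0 := u.ne_zero
  obtain ⟨x, hx⟩ : z / (u : Ω) ^ 2 ∈ (⊥ : IntermediateField L Ω) := by
    rw [IsGalois.mem_bot_iff_fixed]
    intro σ
    rw [map_div₀, map_pow, hu', hc1 σ]
    have := hc0 σ
    field_simp
  have hx' : algebraMap L Ω x = z / (u : Ω) ^ 2 := hx
  refine ⟨x, u, ?_, hu0, ?_, ?_⟩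
  · rintro rfl
    rw [map_zero, eq_comm, div_eq_zero_iff] at hx'
    rcases hx' with h | h
    · exact hz0 h
    · exact hu0 (pow_eq_zero_iff two_ne_zero |>.1 h)
  · rw [hx']
    field_simp
  · have hnu : Algebra.norm K (u : Ω) ≠ 0 := by
      rw [Algebra.norm_ne_zero_iff]
      exact hu0
    obtain ⟨a, ha⟩ := fixed_mem b b' hb n hn hodd (w / Algebra.norm K (u : Ω)) (by
      intro σ
      rw [← hτ σ]
      congr 1
      rw [map_div₀, ← norm_gal σ (τ σ) (hτ σ), hu', map_mul, hc2 σ]
      have h9 : Algebra.norm K (c σ) ≠ 0 := by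
        rw [Algebra.norm_ne_zero_iff]
        exact hc0 σ
      field_simp)
    refine ⟨a, ?_⟩
    apply (algebraMap F K).injective
    have e2 : algebraMap L Ω x * (u : Ω) ^ 2 = z := by
      rw [hx']
      field_simp
    have e3 := congrArg (Algebra.norm K) e2
    rw [map_mul, map_pow, hw] at e3
    rw [← norm_up b b' hb, map_mul, ha]
    field_simp
    linear_combination e3

/-- If the set `P` (closed under products, the Galois group, containing `1` and all the squares)
contains only squares of `L` among the elements of `L` with square norm, it contains only squares. -/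
theorem all_squares (n : ℕ) (hn : Module.finrank F K = 2 ^ n) (hodd : Odd (Fintype.card ι))
    (h2 : (2 : Ω) ≠ 0) (P : Ω → Prop) (h0 : ∀ x, P x → x ≠ 0)
    (hN : ∀ x, P x → IsSquare (Algebra.norm K x)) (hmul : ∀ x y, P x → P y → P (x * y))
    (hsq : ∀ x, x ≠ 0 → P (x ^ 2)) (hgal : ∀ (σ : Ω ≃ₐ[L] Ω) x, P x → P (σ x))
    (hbase : ∀ x : L, x ≠ 0 → IsSquare (Algebra.norm F x) → P (algebraMap L Ω x) → IsSquare x)
    (x : Ω) (hx : P x) : IsSquare x := by
  haveI := finDim b b' hb
  haveI := galois b b' hb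
  haveI : FiniteDimensional L Ω := FiniteDimensional.right F L Ω
  by_contra hns
  obtain ⟨z, hz, hzn, hzf⟩ := exists_fixed (L := L) (Ω := Ω) (n := n)
    ((rank_eq b b' hb).trans hn) P h0 hmul hgal (by simpa using hsq 1 one_ne_zero) x hx hns
  obtain ⟨y, u, hy0, hu0, hzy, hyN⟩ := descend b b' hb n hn hodd h2 z (h0 z hz) (hN z hz) hzf
  have h5 : algebraMap L Ω y = z * (u⁻¹) ^ 2 := by
    rw [hzy]
    field_simp
  obtain ⟨t, ht⟩ := hbase y hy0 hyN (by
    rw [h5]
    exact hmul _ _ hz (hsq _ (inv_ne_zero hu0)))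
  apply hzn
  refine ⟨algebraMap L Ω t * u, ?_⟩
  rw [hzy, ht, map_mul]
  ring

end descent

end Pool.Agent.V7H54.Desc
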