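import Pool.Agent.V7H54.Sel

/-!
# Classes of divisors are classes of points, for an irreducible cubic polynomial
-/

set_option autoImplicit false
set_option linter.all false

open Polynomial

namespace Pool.Agent.V7H54.V3

open Pool.Agent.N783.PQ (LocIm)

variable {E : Type} [Field E] {f : E[X]}

/-- Reduction of divisors. -/
theorem one_pt (hm : f.Monic) (hd : f.natDegree = 3) (hf : Irreducible f) :
    ∀ (N : ℕ) (u v h s : E[X]), u.natDegree = N → u.Monic → IsCoprime u f → u ∣ v ^ 2 - f →
      f ∣ h * ((-1) ^ u.natDegree * u) - s ^ 2 →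
      (∃ s : E[X], f ∣ h - s ^ 2) ∨
      ∃ x y : E, y ^ 2 = f.eval x ∧ ∃ s : E[X], f ∣ h * (C x - X) - s ^ 2 := by
  have hfp : Prime f := hf.prime
  intro N
  induction N using Nat.strong_induction_on with
  | _ N ih =>
    intro u v h s hN hu hcop hdv hs
    rcases Nat.lt_or_ge N 2 with hN2 | hN2
    · interval_cases N
      · -- degree zero
        have hu1 : u = 1 := by
          exact hu.natDegree_eq_zero.1 hN
        left
        rw [hu1] at hs
        simp at hs
        exact ⟨s, hs⟩
      · -- degree one
        right
        obtain ⟨x, hx⟩ : ∃ x : E, u = X - C x := by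
          refine ⟨-u.coeff 0, ?_⟩
          have := hu.as_sum
          rw [hN] at this
          rw [this]
          simp
        refine ⟨x, v.eval x, ?_, s, ?_⟩
        · rw [hx, dvd_iff_isRoot, IsRoot.def, eval_sub, eval_pow, sub_eq_zero] at hdv
          exact hdv
        · have e : C x - X = (-1) ^ u.natDegree * u := by
            rw [hN, hx]
            ring
          rw [e]
          exact hs
    · -- reduction
      have hu0 : u ≠ 0 := hu.ne_zero
      obtain ⟨v₁, hv₁⟩ : ∃ v₁, v₁ = v %ₘ u := ⟨_, rfl⟩
      have hdeg : v₁.natDegree < N := by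
        rw [hv₁, ← hN]
        refine natDegree_modByMonic_lt v hu ?_
        rintro rfl
        rw [natDegree_one] at hN
        omega
      have hdv₁ : u ∣ v₁ ^ 2 - f := by
        have h1 : u ∣ v₁ - v := by
          rw [hv₁, modByMonic_eq_sub_mul_div]
          exact ⟨-(v /ₘ u), by ring⟩
        have e : v₁ ^ 2 - f = (v₁ - v) * (v₁ + v) + (v ^ 2 - f) := by ring
        rw [e]
        exact dvd_add (dvd_mul_of_dvd_left h1 _) hdv
      obtain ⟨w, hw⟩ := hdv₁
      -- the degree and the leading coefficient of `v₁ ^ 2 - f`
      have hlead : v₁ ^ 2 - f ≠ 0 ∧ (v₁ ^ 2 - f).natDegree + 2 ≤ 2 * N + 1 ∧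
          (((v₁ ^ 2 - f).natDegree = 3 ∧ (v₁ ^ 2 - f).leadingCoeff = -1 ∧ v₁.natDegree ≤ 1) ∨
          ((v₁ ^ 2 - f).natDegree = 2 * v₁.natDegree ∧
            (v₁ ^ 2 - f).leadingCoeff = v₁.leadingCoeff ^ 2 ∧ v₁ ≠ 0)) := by
        rcases Nat.lt_or_ge v₁.natDegree 2 with hv2 | hv2
        · have h1 : (v₁ ^ 2).degree < (-f).degree := by
            rw [degree_neg]
            refine degree_lt_degree ?_
            rw [natDegree_pow, hd]
            omega
          have h2 : (v₁ ^ 2 - f).natDegree = 3 := by
            rw [sub_eq_add_neg, natDegree_add_eq_right_of_degree_lt h1, natDegree_neg, hd]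
          have h3 : (v₁ ^ 2 - f).leadingCoeff = -1 := by
            rw [sub_eq_add_neg, leadingCoeff_add_of_degree_lt h1, leadingCoeff_neg, hm.leadingCoeff]
          refine ⟨?_, by omega, Or.inl ⟨h2, h3, by omega⟩⟩
          intro h0
          rw [h0, natDegree_zero] at h2
          omega
        · have hv0 : v₁ ≠ 0 := by
            rintro h0
            rw [h0, natDegree_zero] at hv2
            omega
          have h1 : (-f).degree < (v₁ ^ 2).degree := by
            rw [degree_neg]
            refine degree_lt_degree ?_
            rw [natDegree_pow, hd]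
            omega
          have h2 : (v₁ ^ 2 - f).natDegree = 2 * v₁.natDegree := by
            rw [sub_eq_add_neg, natDegree_add_eq_left_of_degree_lt h1, natDegree_pow]
          have h3 : (v₁ ^ 2 - f).leadingCoeff = v₁.leadingCoeff ^ 2 := by
            rw [sub_eq_add_neg, leadingCoeff_add_of_degree_lt' h1, leadingCoeff_pow]
          refine ⟨?_, by omega, Or.inr ⟨h2, h3, hv0⟩⟩
          intro h0
          rw [h0, natDegree_zero] at h2
          omega
      obtain ⟨hne, hdegs, hcase⟩ := hlead
      have hw0 : w ≠ 0 := by
        rintro rfl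
        rw [mul_zero] at hw
        exact hne hw
      have hwd : u.natDegree + w.natDegree = (v₁ ^ 2 - f).natDegree := by
        rw [hw, natDegree_mul hu0 hw0]
      have hwl : (v₁ ^ 2 - f).leadingCoeff = w.leadingCoeff := by
        rw [hw, leadingCoeff_mul, hu.leadingCoeff, one_mul]
      obtain ⟨c, hc⟩ : ∃ c, c = w.leadingCoeff := ⟨_, rfl⟩
      have hc0 : c ≠ 0 := by
        rw [hc]
        exact leadingCoeff_ne_zero.2 hw0
      obtain ⟨u', hu'⟩ : ∃ u', u' = C c⁻¹ * w := ⟨_, rfl⟩
      have hwu : w = C c * u' := by
        rw [hu', ← mul_assoc, ← C_mul, mul_inv_cancel₀ hc0, C_1, one_mul]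
      have hu'm : u'.Monic := by
        rw [hu', Monic, leadingCoeff_mul, leadingCoeff_C, ← hc, inv_mul_cancel₀ hc0]
      have hu'd : u'.natDegree = w.natDegree := by
        rw [hu', natDegree_C_mul (inv_ne_zero hc0)]
      -- the sign
      have hsign : ∃ d : E, (-1 : E[X]) ^ (u.natDegree + u'.natDegree) * C (d ^ 2) = C c ∧ d ≠ 0 := by
        rw [hu'd, hwd]
        rcases hcase with ⟨h1, h2, -⟩ | ⟨h1, h2, h3⟩
        · refine ⟨1, ?_, one_ne_zero⟩
          rw [h1, hc, ← hwl, h2]
          simp
          norm_num
        · refine ⟨v₁.leadingCoeff, ?_, leadingCoeff_ne_zero.2 h3⟩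
          rw [h1, hc, ← hwl, h2, pow_mul]
          simp
      obtain ⟨d, hd1, hd0⟩ := hsign
      have hwN : w.natDegree < N := by omega
      -- the inverse of `u` modulo `f`
      obtain ⟨α, β, hαβ⟩ := hcop
      by_cases hfu : f ∣ u'
      · -- `f` divides `u'`
        have h1 : f ∣ v₁ := by
          refine hfp.dvd_of_dvd_pow (n := 2) ?_
          have e : v₁ ^ 2 = u * w + f := by rw [← hw]; ring
          rw [e, hwu]
          exact dvd_add (dvd_mul_of_dvd_right (dvd_mul_of_dvd_right hfu _) _) dvd_rfl
        obtain ⟨u₂, hu₂⟩ := hfu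
        obtain ⟨v₂, hv₂⟩ := h1
        have hf0 : f ≠ 0 := hm.ne_zero
        have h2 : C c * (u * u₂) = f * v₂ ^ 2 - 1 := by
          apply mul_left_cancel₀ hf0
          have e : f * (C c * (u * u₂)) = u * (C c * (f * u₂)) := by ring
          rw [e, ← hu₂, ← hwu, ← hw, hv₂]
          ring
        have hu₂m : u₂.Monic := by
          have := hu'm
          rw [hu₂] at this
          exact hm.of_mul_monic_left this
        have hdeg2 : u'.natDegree = 3 + u₂.natDegree := by
          rw [hu₂, hm.natDegree_mul hu₂m, hd]
        refine ih u₂.natDegree (by omega) u₂ v₁ h (s * (α * C d⁻¹)) rfl hu₂m ?_ ?_ ?_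
        · refine ⟨-(C c * u), v₂ ^ 2, ?_⟩
          linear_combination (-1 : E[X]) * h2
        · refine ⟨f * (C c * u), ?_⟩
          rw [hv₂]
          linear_combination (-f) * h2
        · -- the class
          have hpar : (-1 : E[X]) ^ u.natDegree * (-1) ^ u₂.natDegree * C (d ^ 2) = -C c := by
            rw [← hd1, hdeg2]
            ring
          have key : f ∣ C (d ^ 2) * (u * ((-1) ^ u.natDegree * ((-1) ^ u₂.natDegree * u₂))) - 1 := by
            have e : C (d ^ 2) * (u * ((-1) ^ u.natDegree * ((-1) ^ u₂.natDegree * u₂))) =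
                ((-1 : E[X]) ^ u.natDegree * (-1) ^ u₂.natDegree * C (d ^ 2)) * (u * u₂) := by ring
            rw [e, hpar]
            refine ⟨-v₂ ^ 2, ?_⟩
            linear_combination (-1 : E[X]) * h2
          obtain ⟨A, hA⟩ := key
          obtain ⟨B, hB⟩ := hs
          have hdd : C d⁻¹ * C d = (1 : E[X]) := by
            rw [← C_mul, inv_mul_cancel₀ hd0, C_1]
          have hd2 : C (d ^ 2) = C d * C d := by rw [pow_two, C_mul]
          -- `(-1) ^ du * (-1) ^ du = 1`
          have hss : ((-1 : E[X]) ^ u.natDegree) * ((-1) ^ u.natDegree) = 1 := by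
            rw [← mul_pow]
            norm_num
          rw [hd2] at hA
          -- let `U = (-1) ^ du * u`, `U₂ = (-1) ^ du₂ * u₂`
          obtain ⟨σ, hσ⟩ : ∃ σ : E[X], σ = (-1) ^ u.natDegree := ⟨_, rfl⟩
          obtain ⟨U₂, hU₂⟩ : ∃ U₂ : E[X], U₂ = (-1) ^ u₂.natDegree * u₂ := ⟨_, rfl⟩
          rw [← hσ] at hA hB hss
          rw [← hU₂] at hA ⊢
          obtain ⟨D, hD⟩ : ∃ D : E[X], D = C d := ⟨_, rfl⟩
          obtain ⟨D', hD'⟩ : ∃ D' : E[X], D' = C d⁻¹ := ⟨_, rfl⟩
          rw [← hD] at hA hdd
          rw [← hD'] at hdd ⊢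
          -- `D² u σ U₂ = 1 + f A`, `h σ u = s² + f B`, `α u + β f = 1`, `D' D = 1`, `σ² = 1`
          -- `h U₂ = (s α D')²` modulo `f`
          rw [← AdjoinRoot.mk_eq_zero]
          have mA := congrArg (AdjoinRoot.mk f) hA
          have mB := congrArg (AdjoinRoot.mk f) hB
          have mC := congrArg (AdjoinRoot.mk f) hαβ
          have mD := congrArg (AdjoinRoot.mk f) hdd
          have mS := congrArg (AdjoinRoot.mk f) hss
          simp only [map_add, map_sub, map_mul, map_pow, map_one, AdjoinRoot.mk_self, zero_mul,
            mul_zero, add_zero] at mA mB mC mD mS ⊢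
          generalize AdjoinRoot.mk f h = h at mA mB mC mD mS ⊢
          generalize AdjoinRoot.mk f s = s at mA mB mC mD mS ⊢
          generalize AdjoinRoot.mk f u = u at mA mB mC mD mS ⊢
          generalize AdjoinRoot.mk f U₂ = U₂ at mA mB mC mD mS ⊢
          generalize AdjoinRoot.mk f σ = σ at mA mB mC mD mS ⊢
          generalize AdjoinRoot.mk f α = α at mA mB mC mD mS ⊢
          generalize AdjoinRoot.mk f D = D at mA mB mC mD mS ⊢
          generalize AdjoinRoot.mk f D' = D' at mA mB mC mD mS ⊢
          clear hN hu hdv hu0 hw hwd hwl hwu hA hB hdd hss hαβ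
          haveI : Fact (Irreducible f) := ⟨hf⟩
          have hu0' : u ≠ 0 := by
            rintro rfl
            rw [mul_zero] at mC
            exact zero_ne_one mC
          have hD0' : D ≠ 0 := by
            rintro rfl
            rw [mul_zero] at mD
            exact zero_ne_one mD
          have hσ0' : σ ≠ 0 := by
            rintro rfl
            rw [mul_zero] at mS
            exact zero_ne_one mS
          have e1 : α = 1 / u := by
            field_simp
            exact mC
          have e2 : D' = 1 / D := by
            field_simp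
            exact mD
          have e3 : U₂ = 1 / (D * D * u * σ) := by
            field_simp
            linear_combination mA
          have e4 : h = s ^ 2 * σ / u := by
            field_simp
            linear_combination σ * mB - (h * u) * mS
          rw [e1, e2, e3, e4]
          field_simp
          ring
      · -- `u'` is prime to `f`
        have hcop' : IsCoprime u' f := ((hf.coprime_iff_not_dvd).2 hfu).symm
        refine ih u'.natDegree (by rw [hu'd]; exact hwN) u' v₁ h (s * (v₁ * (α * C d⁻¹))) rfl hu'm
          hcop' ?_ ?_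
        · refine ⟨u * C c, ?_⟩
          rw [hw, hwu]
          ring
        · have hpar : (-1 : E[X]) ^ u.natDegree * (-1) ^ u'.natDegree * C (d ^ 2) = C c := by
            rw [← hd1, pow_add]
          have key : C (d ^ 2) * (u * ((-1) ^ u.natDegree * ((-1) ^ u'.natDegree * u'))) =
              v₁ ^ 2 - f := by
            have e : C (d ^ 2) * (u * ((-1) ^ u.natDegree * ((-1) ^ u'.natDegree * u'))) =
                ((-1 : E[X]) ^ u.natDegree * (-1) ^ u'.natDegree * C (d ^ 2)) * (u * u') := by ring
            rw [e, hpar, hw, hwu]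
            ring
          obtain ⟨B, hB⟩ := hs
          have hdd : C d⁻¹ * C d = (1 : E[X]) := by
            rw [← C_mul, inv_mul_cancel₀ hd0, C_1]
          have hd2 : C (d ^ 2) = C d * C d := by rw [pow_two, C_mul]
          have hss : ((-1 : E[X]) ^ u.natDegree) * ((-1) ^ u.natDegree) = 1 := by
            rw [← mul_pow]
            norm_num
          rw [hd2] at key
          obtain ⟨σ, hσ⟩ : ∃ σ : E[X], σ = (-1) ^ u.natDegree := ⟨_, rfl⟩
          obtain ⟨U₂, hU₂⟩ : ∃ U₂ : E[X], U₂ = (-1) ^ u'.natDegree * u' := ⟨_, rfl⟩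
          rw [← hσ] at key hB hss
          rw [← hU₂] at key ⊢
          obtain ⟨D, hD⟩ : ∃ D : E[X], D = C d := ⟨_, rfl⟩
          obtain ⟨D', hD'⟩ : ∃ D' : E[X], D' = C d⁻¹ := ⟨_, rfl⟩
          rw [← hD] at key hdd
          rw [← hD'] at hdd ⊢
          rw [← AdjoinRoot.mk_eq_zero]
          have mA := congrArg (AdjoinRoot.mk f) key
          have mB := congrArg (AdjoinRoot.mk f) hB
          have mC := congrArg (AdjoinRoot.mk f) hαβ
          have mD := congrArg (AdjoinRoot.mk f) hdd
          have mS := congrArg (AdjoinRoot.mk f) hss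
          simp only [map_add, map_sub, map_mul, map_pow, map_one, AdjoinRoot.mk_self, zero_mul,
            mul_zero, add_zero, sub_zero] at mA mB mC mD mS ⊢
          generalize AdjoinRoot.mk f h = h at mA mB mC mD mS ⊢
          generalize AdjoinRoot.mk f s = s at mA mB mC mD mS ⊢
          generalize AdjoinRoot.mk f u = u at mA mB mC mD mS ⊢
          generalize AdjoinRoot.mk f U₂ = U₂ at mA mB mC mD mS ⊢
          generalize AdjoinRoot.mk f σ = σ at mA mB mC mD mS ⊢
          generalize AdjoinRoot.mk f α = α at mA mB mC mD mS ⊢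
          generalize AdjoinRoot.mk f D = D at mA mB mC mD mS ⊢
          generalize AdjoinRoot.mk f D' = D' at mA mB mC mD mS ⊢
          generalize AdjoinRoot.mk f v₁ = V at mA mB mC mD mS ⊢
          clear hN hu hdv hu0 hw hwd hwl hwu key hB hdd hss hαβ
          haveI : Fact (Irreducible f) := ⟨hf⟩
          have hu0' : u ≠ 0 := by
            rintro rfl
            rw [mul_zero] at mC
            exact zero_ne_one mC
          have hD0' : D ≠ 0 := by
            rintro rfl
            rw [mul_zero] at mD
            exact zero_ne_one mD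
          have hσ0' : σ ≠ 0 := by
            rintro rfl
            rw [mul_zero] at mS
            exact zero_ne_one mS
          have e1 : α = 1 / u := by
            field_simp
            exact mC
          have e2 : D' = 1 / D := by
            field_simp
            exact mD
          have e3 : U₂ = V ^ 2 / (D * D * u * σ) := by
            field_simp
            linear_combination mA
          have e4 : h = s ^ 2 * σ / u := by
            field_simp
            linear_combination σ * mB - (h * u) * mS
          rw [e1, e2, e3, e4]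
          field_simp
          ring

end Pool.Agent.V7H54.V3
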