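import Pool.Agent.V7H54.TwK
import Pool.Agent.N40.PQ.Spl
import Pool.Agent.N296.PQ.SPD

/-!
# The set `S` of primes which split completely in `K`
-/

set_option autoImplicit false
set_option linter.all false

open Polynomial IsDedekindDomain NumberField
open scoped Classical IntermediateField

namespace Pool.Agent.V7H54

open Pool.Agent.N922.PQ (Gen SplitMod)
open Pool.Agent.N783.PF (GoodS)

/-- Primes, congruent to 1 modulo 8, modulo which `g` splits (after `N40/PQ/Spl.lean` of helper40;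
the field need not be Galois). -/
theorem splK (M : Type) [Field M] [NumberField M] (γ : M) (g : ℤ[X]) (δ : ℤ)
    (hG : Gen ℚ γ g δ) (N r : ℕ) :
    ∃ S : Finset ℕ, S.card = r ∧ ∀ q ∈ S, q.Prime ∧ N < q ∧ q % 8 = 1 ∧ SplitMod (q : ℤ) g := by
  set f : ℤ[X] := g * (X ^ 4 + 1) with hf
  have h41 : (X ^ 4 + 1 : ℤ[X]).Monic := by monicity!
  have hfm : f.Monic := hG.monic.mul h41
  have hNN : NumberField (f.map (algebraMap ℤ ℚ)).SplittingField :=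
    { to_charZero := charZero_of_injective_algebraMap
        (algebraMap ℚ (f.map (algebraMap ℤ ℚ)).SplittingField).injective
      to_finiteDimensional := inferInstance }
  have hfs : (f.map (algebraMap ℤ (f.map (algebraMap ℤ ℚ)).SplittingField)).Splits := by
    have h1 := SplittingField.splits (f.map (algebraMap ℤ ℚ))
    rw [Polynomial.map_map] at h1
    convert h1 using 2
    exact RingHom.ext_int _ _
  obtain ⟨η, G, δ', hGG, hdG⟩ :=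
    Pool.Agent.N40.PQ.gen (f.map (algebraMap ℤ ℚ)).SplittingField
  obtain ⟨Δ, hΔ0, hΔ⟩ := Pool.Agent.N40.PQ.claim1 η G δ' hGG hdG f hfm hfs
  have hg0 : G.natDegree ≠ 0 := by
    rw [hdG]; exact Module.finrank_pos.ne'
  have hgood : ∀ q : ℕ, q.Prime → ¬ (q : ℤ) ∣ 2 * Δ → ∀ c : ℤ, (q : ℤ) ∣ G.eval c →
      SplitMod (q : ℤ) g ∧ q % 8 = 1 := by
    intro q hq hqΔ c hc
    have : Fact q.Prime := ⟨hq⟩
    have h1 := hΔ q hq (fun h => hqΔ (h.mul_left _)) c hc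
    rw [hf, Polynomial.map_mul] at h1
    have hne1 : g.map (Int.castRingHom (ZMod q)) ≠ 0 := (hG.monic.map _).ne_zero
    have hne2 : (X ^ 4 + 1 : ℤ[X]).map (Int.castRingHom (ZMod q)) ≠ 0 := (h41.map _).ne_zero
    rw [splits_mul_iff hne1 hne2] at h1
    refine ⟨Pool.Agent.N40.PQ.splitMod_of_splits q hq g hG.monic h1.1,
      Pool.Agent.N40.PQ.mod8 hq ?_ h1.2⟩
    rintro rfl
    exact hqΔ (dvd_mul_right _ _)
  have hinf : {q : ℕ | q.Prime ∧ q % 8 = 1 ∧ SplitMod (q : ℤ) g}.Infinite := by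
    intro hfin
    set P₀ : ℤ := 2 * Δ * ∏ Q ∈ hfin.toFinset, (Q : ℤ) with hPi
    have hPi0 : P₀ ≠ 0 := by
      refine mul_ne_zero (mul_ne_zero two_ne_zero hΔ0) (Finset.prod_ne_zero_iff.2 fun Q hQ => ?_)
      exact_mod_cast (hfin.mem_toFinset.1 hQ).1.ne_zero
    obtain ⟨q, c, h1, h3, h4⟩ := Pool.Agent.N40.PQ.claim2 G hGG.monic hg0 P₀ hPi0
    obtain ⟨h5, h6⟩ := hgood q h1 (fun h => h3 (h.mul_right _)) c h4
    apply h3
    exact (Finset.dvd_prod_of_mem (fun Q : ℕ => (Q : ℤ)) (hfin.mem_toFinset.2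
      ⟨h1, h6, h5⟩)).mul_left _
  obtain ⟨S, hS1, hS2⟩ := (hinf.sdiff (Finset.range (N + 1)).finite_toSet).exists_subset_card_eq r
  refine ⟨S, hS2, fun q hq => ?_⟩
  obtain ⟨⟨h1, h2, h3⟩, h4⟩ := hS1 hq
  refine ⟨h1, ?_, h2, h3⟩
  by_contra h
  apply h4
  rw [Finset.mem_coe, Finset.mem_range]
  omega

/-- The residue fields at the primes modulo which `g` splits. -/
theorem card_split {K : Type} [Field K] [NumberField K] {γ : K} {g : ℤ[X]} {δ : ℤ}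
    (hG : Gen ℚ γ g δ) {q : ℕ} (hq : q.Prime) (hs : SplitMod (q : ℤ) g) (hδ : ¬ (q : ℤ) ∣ δ)
    (𝔔 : Ideal (𝓞 K)) (h𝔔 : 𝔔.IsPrime) (hm : (q : 𝓞 K) ∈ 𝔔) : Nat.card (𝓞 K ⧸ 𝔔) = q := by
  have hb : 𝔔 ≠ ⊥ := Pool.Agent.N710.PF.ne_bot_of_mem hq hm
  obtain ⟨𝔓, h𝔓⟩ : ∃ 𝔓 : HeightOneSpectrum (𝓞 K), 𝔓.asIdeal = 𝔔 := ⟨⟨𝔔, h𝔔, hb⟩, rfl⟩
  subst h𝔓
  have hqZ : Prime (q : ℤ) := Nat.prime_iff_prime_int.1 hq
  have hnot : ∀ m : ℤ, ¬ (q : ℤ) ∣ m → (m : 𝓞 K) ∉ 𝔓.asIdeal := by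
    intro m hm' hmm
    have hc : IsCoprime (q : ℤ) m := (Prime.coprime_iff_not_dvd hqZ).2 hm'
    obtain ⟨u, v, huv⟩ := hc
    apply h𝔔.ne_top
    rw [Ideal.eq_top_iff_one]
    have h9 : (1 : 𝓞 K) = (u : 𝓞 K) * (q : 𝓞 K) + (v : 𝓞 K) * (m : 𝓞 K) := by
      have := congrArg (Int.cast (R := 𝓞 K)) huv
      push_cast at this
      exact this.symm
    rw [h9]
    exact Ideal.add_mem _ (Ideal.mul_mem_left _ _ hm) (Ideal.mul_mem_left _ _ hmm)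
  have hval : ∀ m : ℤ, 𝔓.valuation K (m : K) = 𝔓.valuation K (algebraMap (𝓞 K) K (m : 𝓞 K)) := by
    intro m
    rw [map_intCast (algebraMap (𝓞 K) K)]
  have hone : ∀ m : ℤ, ¬ (q : ℤ) ∣ m → 𝔓.valuation K (m : K) = 1 := by
    intro m hm'
    rw [hval]
    refine le_antisymm (𝔓.valuation_le_one _) (not_lt.1 fun h => hnot m hm' ?_)
    exact (HeightOneSpectrum.valuation_lt_one_iff_mem _ _).1 h
  have hlt : ∀ m : ℤ, (q : ℤ) ∣ m → 𝔓.valuation K (m : K) < 1 := by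
    intro m hm'
    rw [hval, HeightOneSpectrum.valuation_lt_one_iff_mem]
    obtain ⟨k, rfl⟩ := hm'
    push_cast
    exact Ideal.mul_mem_right _ _ hm
  -- surjectivity
  have hsurj : ∀ a : 𝓞 K, ∃ c : ℤ, a - (c : 𝓞 K) ∈ 𝔓.asIdeal := by
    intro a
    by_cases ha : a ∈ 𝔓.asIdeal
    · exact ⟨0, by simpa using ha⟩
    have hva : 𝔓.valuation K (algebraMap (𝓞 K) K a) = 1 := by
      refine le_antisymm (𝔓.valuation_le_one _) (not_lt.1 fun h => ha ?_)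
      exact (HeightOneSpectrum.valuation_lt_one_iff_mem _ _).1 h
    have ha0 : algebraMap (𝓞 K) K a ≠ 0 := by
      intro h0
      rw [h0, map_zero] at hva
      exact zero_ne_one hva
    obtain ⟨s₀, hs₀⟩ := Pool.Agent.N296.PQ.spd ℚ K (𝓞 K) γ g δ hG (q : ℤ) hqZ hs 𝔓
      (by
        change ((q : ℤ) : 𝓞 K) ∈ _
        rw [Int.cast_natCast]
        exact hm) (hnot δ hδ) _ ha0
    rw [hva] at hs₀
    have hvs : 𝔓.valuation K (algebraMap ℚ K s₀) = 1 := by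
      have := Valuation.map_sub_eq_of_lt_left (𝔓.valuation K) (x := algebraMap (𝓞 K) K a)
        (y := algebraMap (𝓞 K) K a - algebraMap ℚ K s₀) (by rw [hva]; exact hs₀)
      rw [sub_sub_cancel, hva] at this
      exact this
    have hs₀' : algebraMap ℚ K s₀ * ((s₀.den : ℤ) : K) = ((s₀.num : ℤ) : K) := by
      have h1 : s₀ * (s₀.den : ℚ) = (s₀.num : ℚ) := Rat.mul_den_eq_num s₀
      have h2 := congrArg (algebraMap ℚ K) h1
      rw [map_mul, map_natCast, map_intCast] at h2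
      exact_mod_cast h2
    have hvv := congrArg (𝔓.valuation K) hs₀'
    rw [map_mul, hvs, one_mul] at hvv
    have hden : ¬ (q : ℤ) ∣ (s₀.den : ℤ) := by
      intro hd
      have h1 := hlt _ hd
      rw [hvv] at h1
      have h2 : (q : ℤ) ∣ s₀.num := by
        by_contra h3
        rw [hone _ h3] at h1
        exact lt_irrefl _ h1
      have h3 : (q : ℕ) ∣ s₀.num.natAbs := Int.natCast_dvd.1 h2
      have h4 : (q : ℕ) ∣ s₀.den := Int.natCast_dvd_natCast.1 hd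
      have h5 := Nat.dvd_gcd h3 h4
      rw [s₀.reduced] at h5
      exact hq.one_lt.ne' (Nat.dvd_one.1 h5)
    obtain ⟨u, v, huv⟩ := (Prime.coprime_iff_not_dvd hqZ).2 hden
    refine ⟨s₀.num * v, ?_⟩
    refine (HeightOneSpectrum.valuation_lt_one_iff_mem (K := K) 𝔓 _).1 ?_
    have e1 : algebraMap (𝓞 K) K (a - ((s₀.num * v : ℤ) : 𝓞 K)) =
        (algebraMap (𝓞 K) K a - algebraMap ℚ K s₀) +
        algebraMap ℚ K s₀ * (((q : ℤ) * u : ℤ) : K) := by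
      rw [map_sub, map_intCast]
      have h6 := congrArg (Int.cast (R := K)) huv
      push_cast at h6 ⊢
      rw [Int.cast_natCast] at hs₀'
      linear_combination (-(algebraMap ℚ K s₀)) * h6 + (v : K) * hs₀'
    refine lt_of_eq_of_lt (congrArg (𝔓.valuation K) e1) ?_
    refine lt_of_le_of_lt (Valuation.map_add _ _ _) (max_lt hs₀ ?_)
    rw [map_mul, hvs, one_mul]
    exact hlt _ (dvd_mul_right _ _)
  let φ : ℤ →+* 𝓞 K ⧸ 𝔓.asIdeal := Int.castRingHom _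
  have hφ : Function.Surjective φ := by
    intro x
    obtain ⟨a, rfl⟩ := Ideal.Quotient.mk_surjective x
    obtain ⟨c, hc⟩ := hsurj a
    refine ⟨c, ?_⟩
    have := Ideal.Quotient.eq.2 hc
    rw [this, map_intCast]
    rfl
  have hker : RingHom.ker φ = Ideal.span {(q : ℤ)} := by
    ext m
    rw [RingHom.mem_ker, Ideal.mem_span_singleton]
    have e1 : φ m = Ideal.Quotient.mk 𝔓.asIdeal (m : 𝓞 K) := by
      rw [map_intCast]
      rfl
    rw [e1, Ideal.Quotient.eq_zero_iff_mem]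
    constructor
    · intro h
      by_contra h2
      exact hnot m h2 h
    · rintro ⟨k, rfl⟩
      push_cast
      exact Ideal.mul_mem_right _ _ hm
  have e2 := Nat.card_congr (RingHom.quotientKerEquivOfSurjective hφ).toEquiv
  rw [← e2, hker]
  have e3 := Nat.card_congr (Int.quotientSpanNatEquivZMod q).toEquiv
  rw [e3, Nat.card_zmod]

/-- EXS with respect to `K`. -/
theorem exsK (F K : Type) [Field F] [NumberField F] [Field K] [NumberField K] (W m : ℕ) :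
    ∃ (S : Finset ℕ) (𝔮 : ℕ → Ideal (𝓞 F)) (h P : ℕ → (𝓞 F)[X]),
      GoodS 1 W S 𝔮 h P ∧ S.card = m ∧
      ∀ q ∈ S, ∀ 𝔔 : Ideal (𝓞 K), 𝔔.IsPrime → (q : 𝓞 K) ∉ 𝔔 ^ 2 ∧
        ((q : 𝓞 K) ∈ 𝔔 → Nat.card (𝓞 K ⧸ 𝔔) = q) := by
  obtain ⟨γ, g, δ, hG, -⟩ := Pool.Agent.N40.PQ.gen K
  obtain ⟨S, hS, hS2⟩ := splK K γ g δ hG
    (W + 3 + (discr F).natAbs + (discr K).natAbs + δ.natAbs) m
  have hdata : ∀ q : ℕ, ∃ (𝔮 : Ideal (𝓞 F)) (h A : (𝓞 F)[X]), q ∈ S →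
    (∀ 𝔭 : Ideal (𝓞 F), 𝔭.IsPrime → (q : 𝓞 F) ∉ 𝔭 ^ 2) ∧
    𝔮.IsPrime ∧ (q : 𝓞 F) ∈ 𝔮 ∧
    h.Monic ∧ h.natDegree = 2 * 1 ∧ Irreducible (Pool.Agent.N783.PF.rd 𝔮 h) ∧
    A.Monic ∧ A.natDegree = 2 * 1 + 1 ∧ A.coeff (2 * 1) = 0 ∧
    Pool.Agent.N783.PF.Cg 𝔮 A (X * h) ∧
    ∀ 𝔭 : Ideal (𝓞 F), 𝔭.IsPrime → (q : 𝓞 F) ∈ 𝔭 → 𝔭 ≠ 𝔮 →
      Irreducible (Pool.Agent.N783.PF.rd 𝔭 A) := by
    intro q
    by_cases hq : q ∈ S
    · obtain ⟨h1, h2, h3, h4⟩ := hS2 q hq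
      obtain ⟨𝔮, h, A, hh⟩ := Pool.Agent.N710.PF.exists_data F 1 q le_rfl h1 (by omega) (by omega)
      exact ⟨𝔮, h, A, fun _ => hh⟩
    · exact ⟨⊥, 0, 0, fun h => absurd h hq⟩
  choose 𝔮 h A hh using hdata
  refine ⟨S, 𝔮, h, A, fun q hq => ?_, hS, fun q hq 𝔔 h𝔔 => ⟨?_, fun hm => ?_⟩⟩
  · obtain ⟨h1, h2, h3, h4⟩ := hS2 q hq
    exact ⟨h1, by omega, by omega, h3, hh q hq⟩
  · obtain ⟨h1, h2, h3, h4⟩ := hS2 q hq
    exact Pool.Agent.N710.PF.not_mem_sq h1 (by omega) h𝔔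
  · obtain ⟨h1, h2, h3, h4⟩ := hS2 q hq
    refine card_split hG h1 h4 ?_ 𝔔 h𝔔 hm
    intro hd
    have h5 := Int.le_of_dvd (Int.natAbs_pos.2 hG.ne |> fun h => by exact_mod_cast h)
      ((Int.dvd_natAbs.2 hd))
    omega

end Pool.Agent.V7H54
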