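import Pool.Agent.V7H54.E3
import Pool.Agent.V7H54.D4
import Pool.Agent.N2.PQ.Cant

/-!
# Classes in the cubic algebra
-/

set_option autoImplicit false
set_option linter.all false

open Polynomial WithZero

namespace Pool.Agent.V7H54.V3

open Pool.Agent.N783.PQ (LocIm)

section cls

variable {E : Type} [Field E] {f : E[X]}

/-- The classes of divisors. -/
def Lc (f : E[X]) (z : AdjoinRoot f) : Prop := ∃ h : E[X], AdjoinRoot.mk f h = z ∧ LocIm E f h

theorem Lc.loc {h : E[X]} (H : Lc f (AdjoinRoot.mk f h)) : LocIm E f h := by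
  obtain ⟨h', h1, h2⟩ := H
  exact LocIm.congr' (by rw [← AdjoinRoot.mk_eq_zero, map_sub, h1, sub_self]) h2

theorem Lc.of_loc {h : E[X]} (H : LocIm E f h) : Lc f (AdjoinRoot.mk f h) := ⟨h, rfl, H⟩

theorem Lc.mul {z z' : AdjoinRoot f} (H : Lc f z) (H' : Lc f z') : Lc f (z * z') := by
  obtain ⟨h, rfl, h2⟩ := H
  obtain ⟨h', rfl, h2'⟩ := H'
  exact ⟨h * h', map_mul _ _ _, LocIm.mul' h2 h2'⟩

theorem Lc.sq (s : AdjoinRoot f) : Lc f (s ^ 2) := by
  obtain ⟨p, rfl⟩ := AdjoinRoot.mk_surjective s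
  exact ⟨p ^ 2, map_pow _ _ _, LocIm.sq' p⟩

theorem Lc.of_mul_sq [Fact (Irreducible f)] {z s : AdjoinRoot f} (hs : s ≠ 0)
    (H : Lc f (z * s ^ 2)) : Lc f z := by
  have := Lc.mul H (Lc.sq s⁻¹)
  have e : z * s ^ 2 * s⁻¹ ^ 2 = z := by
    field_simp
  rwa [e] at this

theorem Lc.pt {x y : E} (hxy : y ^ 2 = f.eval x) (hx : f.eval x ≠ 0) :
    Lc f (algebraMap E _ x - AdjoinRoot.root f) := by
  refine ⟨C x - X, ?_, [(X - C x, C y)], C x - X, ?_, ?_⟩
  · rw [map_sub, AdjoinRoot.mk_X, AdjoinRoot.mk_C, AdjoinRoot.algebraMap_eq]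
  · intro p hp
    rw [List.mem_singleton] at hp
    subst hp
    refine ⟨monic_X_sub_C x, ?_, ?_⟩
    · refine ((irreducible_X_sub_C x).coprime_iff_not_dvd).2 fun hd => hx ?_
      rw [dvd_iff_isRoot] at hd
      exact hd
    · change X - C x ∣ (C y) ^ 2 - f
      rw [dvd_iff_isRoot, IsRoot.def, eval_sub, eval_pow, eval_C, sub_eq_zero]
      exact hxy
  · simp only [List.map_cons, List.map_nil, List.prod_cons, List.prod_nil, mul_one,
      natDegree_X_sub_C, pow_one]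
    have e : (C x - X) * (-1 * (X - C x)) - (C x - X) ^ 2 = (0 : E[X]) := by ring
    rw [e]
    exact dvd_zero _

theorem Lc.cases [CharZero E] (hm : f.Monic) (hd : f.natDegree = 3) (hf : Irreducible f)
    {z : AdjoinRoot f} (H : Lc f z) : (∃ s, z = s ^ 2) ∨ ∃ x y : E, y ^ 2 = f.eval x ∧
      ∃ s, z * (algebraMap E _ x - AdjoinRoot.root f) = s ^ 2 := by
  obtain ⟨h, rfl, h2⟩ := H
  obtain ⟨u, v, s, hu, hc, hdv, hs⟩ := Pool.Agent.N2.PQ.cant E 1 f h hm hd h2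
  rcases one_pt hm hd hf _ u v h s rfl hu hc hdv hs with ⟨s, hs⟩ | ⟨x, y, hxy, s, hs⟩
  · left
    refine ⟨AdjoinRoot.mk f s, ?_⟩
    rw [← AdjoinRoot.mk_eq_zero, map_sub, map_pow, sub_eq_zero] at hs
    exact hs
  · right
    refine ⟨x, y, hxy, AdjoinRoot.mk f s, ?_⟩
    rw [← AdjoinRoot.mk_eq_zero, map_sub, map_pow, sub_eq_zero, map_mul, map_sub,
      AdjoinRoot.mk_X, AdjoinRoot.mk_C] at hs
    rw [AdjoinRoot.algebraMap_eq]
    exact hs

/-- The norm of `x - root`. -/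
theorem norm_pt [Fact (Irreducible f)] (hm : f.Monic) (x : E) :
    Algebra.norm E (algebraMap E _ x - AdjoinRoot.root f) = f.eval x := by
  have hf0 : f ≠ 0 := hm.ne_zero
  obtain ⟨pb, hpb⟩ : ∃ pb : PowerBasis E (AdjoinRoot f), pb = AdjoinRoot.powerBasis hf0 := ⟨_, rfl⟩
  have hgen : pb.gen = AdjoinRoot.root f := by rw [hpb]; rfl
  have h1 : (Algebra.leftMulMatrix pb.basis (AdjoinRoot.root f)).charpoly = f := by
    rw [← hgen, charpoly_leftMulMatrix pb, hgen, AdjoinRoot.minpoly_root hf0, hm.leadingCoeff,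
      inv_one, C_1, mul_one]
  have h2 := congrArg (Polynomial.eval x) h1
  rw [Matrix.eval_charpoly] at h2
  rw [← h2, Algebra.norm_eq_matrix_det pb.basis, map_sub]
  congr 2
  rw [AlgHom.commutes]
  rfl

end cls

section map

variable {E : Type} [Field E] {E' : Type} [Field E'] (ι : E →+* E') (f : E[X])

/-- The map of the cubic algebras. -/
noncomputable def jj : AdjoinRoot f →+* AdjoinRoot (f.map ι) :=
  AdjoinRoot.lift ((AdjoinRoot.of (f.map ι)).comp ι) (AdjoinRoot.root (f.map ι)) (by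
    rw [← eval₂_map]
    exact AdjoinRoot.eval₂_root _)

theorem jj_mk (p : E[X]) : jj ι f (AdjoinRoot.mk f p) = AdjoinRoot.mk (f.map ι) (p.map ι) := by
  unfold jj
  rw [AdjoinRoot.lift_mk, ← eval₂_map]
  exact AdjoinRoot.aeval_eq (p.map ι)

theorem jj_root : jj ι f (AdjoinRoot.root f) = AdjoinRoot.root (f.map ι) := by
  rw [← AdjoinRoot.mk_X, jj_mk, map_X, AdjoinRoot.mk_X]

theorem jj_of (x : E) : jj ι f (algebraMap E _ x) = algebraMap E' _ (ι x) := by
  rw [AdjoinRoot.algebraMap_eq, AdjoinRoot.algebraMap_eq, ← AdjoinRoot.mk_C, jj_mk, map_C,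
    AdjoinRoot.mk_C]

theorem Lc.map {z : AdjoinRoot f} (H : Lc f z) : Lc (f.map ι) (jj ι f z) := by
  obtain ⟨h, rfl, h2⟩ := H
  exact ⟨h.map ι, (jj_mk ι f h).symm, LocIm.map' ι h2⟩

variable {ι f} {Γ : Type} [LinearOrderedCommGroupWithZero Γ] {v : Valuation E Γ}
  {v' : Valuation E' Γ} (hv : ∀ x, v' (ι x) = v x) [Fact (Irreducible f)]
  [Fact (Irreducible (f.map ι))] (h : Cub v f) (h' : Cub v' (f.map ι))

include hv in
theorem jj_V (z : AdjoinRoot f) : V h' (jj ι f z) = V h z := by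
  have e : ∀ i, co h' i (jj ι f z) = ι (co h i z) := by
    intro i
    obtain ⟨p, rfl⟩ := AdjoinRoot.mk_surjective z
    rw [jj_mk, co_mk, co_mk, ← Polynomial.map_modByMonic ι h.mon, coeff_map]
  rw [V_apply, V_apply, mx, mx, e, e, e, hv, hv, hv]

end map

end Pool.Agent.V7H54.V3
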