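import Pool.Agent.V7H54.F3

/-!
# Classes of points on a curve with reduction of type II
-/

set_option autoImplicit false
set_option linter.all false

open Polynomial WithZero

namespace Pool.Agent.V7H54.V3

open Pool.Agent.N783.PQ (LocIm)

section pt

variable {E : Type} [Field E] {v : Valuation E (WithZero (Multiplicative ℤ))} {f : E[X]}
  {x₀ y₀ a b γ : E} {e : ℕ}

theorem T2D.pol [CharZero E] (H : T2D v f x₀ y₀ a b γ e) :
    f = (X - C x₀) ^ 3 + C a * (X - C x₀) ^ 2 + C b * (X - C x₀) + C (y₀ ^ 2 + γ) := by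
  haveI : Infinite E := Infinite.of_injective (Nat.cast : ℕ → E) Nat.cast_injective
  refine Polynomial.funext fun r => ?_
  have h1 := H.hf (r - x₀)
  have e1 : x₀ + (r - x₀) = r := by ring
  rw [e1] at h1
  rw [h1]
  simp

/-- `root - x₀` -/
noncomputable def th (f : E[X]) (x₀ : E) : AdjoinRoot f := AdjoinRoot.root f - algebraMap E _ x₀

theorem th_eq [CharZero E] (H : T2D v f x₀ y₀ a b γ e) :
    th f x₀ ^ 3 + algebraMap E _ a * th f x₀ ^ 2 + algebraMap E _ b * th f x₀ +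
      (algebraMap E _ y₀ ^ 2 + algebraMap E _ γ) = 0 := by
  have h1 : AdjoinRoot.mk f ((X - C x₀) ^ 3 + C a * (X - C x₀) ^ 2 + C b * (X - C x₀) +
      C (y₀ ^ 2 + γ)) = 0 := by
    rw [← H.pol, AdjoinRoot.mk_self]
  rw [← h1]
  simp only [map_add, map_mul, map_pow, map_sub, AdjoinRoot.mk_X, AdjoinRoot.mk_C,
    AdjoinRoot.algebraMap_eq, th, C_add, C_pow]

variable [Fact (Irreducible f)]

/-- The class of a point, up to squares. -/
noncomputable def ze (f : E[X]) [Fact (Irreducible f)] (x₀ g₀ g₁ : E) : AdjoinRoot f :=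
  (algebraMap E _ g₀ + algebraMap E _ g₁ * th f x₀) / th f x₀ ^ 2

variable (h : Cub v f)

theorem V_th (hx : v x₀ ≤ exp 0) : V h (th f x₀) = 1 := by
  have h1 := V_quad h x₀ 0 1 0 (by rw [← exp_zero]; exact hx)
  simp only [map_zero, map_one, zero_mul, add_zero, zero_add, one_mul] at h1
  rw [th, h1]
  simp

theorem V_ze (hx : v x₀ ≤ exp 0) (g₀ g₁ : E) : V h (ze f x₀ g₀ g₁) = max (v g₀) (v g₁) := by
  have h1 := V_quad h x₀ g₀ g₁ 0 (by rw [← exp_zero]; exact hx)
  rw [ze, map_div₀, map_pow, V_th h hx, one_pow, div_one, th]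
  simp only [map_zero, zero_mul, add_zero] at h1
  rw [h1, max_eq_left (a := v g₁) zero_le]

theorem pt_id [CharZero E] (H : T2D v f x₀ y₀ a b γ e) {X Y : E} {n : ℕ} {t l g₀ g₁ : E}
    (D : PtD v x₀ y₀ a b γ X Y n t l g₀ g₁) :
    (algebraMap E _ X - AdjoinRoot.root f) * (th f x₀ ^ 2 + algebraMap E _ g₁ * th f x₀ +
      algebraMap E _ g₀) = (algebraMap E _ y₀ + algebraMap E _ l * th f x₀) ^ 2 := by
  have h1 := th_eq H
  have ht0 : t ≠ 0 := ne_of_exp D.ht
  have hX : algebraMap E (AdjoinRoot f) X - AdjoinRoot.root f =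
      algebraMap E _ t - th f x₀ := by
    rw [th, D.hX, map_add]
    ring
  have a1 : algebraMap E (AdjoinRoot f) t - algebraMap E _ g₁ =
      algebraMap E _ l ^ 2 - algebraMap E _ a := by
    rw [← map_sub, ← map_pow, ← map_sub, D.g1]
    congr 1
    ring
  have a2 : algebraMap E (AdjoinRoot f) t * algebraMap E _ g₁ =
      algebraMap E _ g₀ - algebraMap E _ b + 2 * algebraMap E _ y₀ * algebraMap E _ l := by
    rw [← map_mul, D.g1']
    simp only [map_add, map_sub, map_mul, map_ofNat]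
  have a3 : algebraMap E (AdjoinRoot f) t * algebraMap E _ g₀ = - algebraMap E _ γ := by
    rw [← map_mul, D.g0, ← map_neg]
    congr 1
    field_simp
  rw [hX]
  linear_combination (-1 : AdjoinRoot f) * h1 + th f x₀ ^ 2 * a1 + th f x₀ * a2 + a3

include h in
theorem one_ze [CharZero E] (H : T2D v f x₀ y₀ a b γ e) {X Y : E} {n : ℕ} {t l g₀ g₁ : E}
    (D : PtD v x₀ y₀ a b γ X Y n t l g₀ g₁) :
    (algebraMap E _ X - AdjoinRoot.root f) * ((1 + ze f x₀ g₀ g₁) * th f x₀ ^ 2) =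
      (algebraMap E _ y₀ + algebraMap E _ l * th f x₀) ^ 2 := by
  have hth : th f x₀ ≠ 0 := by
    have := V_th h H.hx
    rintro h0
    rw [h0, map_zero] at this
    exact zero_ne_one this
  rw [← pt_id H D, ze]
  field_simp
  ring

include h in
theorem fin_M : Module.Finite E (AdjoinRoot f) ∧ Module.finrank E (AdjoinRoot f) = 3 := by
  have hf0 : f ≠ 0 := h.mon.ne_zero
  refine ⟨(AdjoinRoot.powerBasis hf0).finite, ?_⟩
  rw [(AdjoinRoot.powerBasis hf0).finrank, AdjoinRoot.powerBasis_dim, h.deg]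

include h in
theorem pt_ne (x : E) : algebraMap E (AdjoinRoot f) x - AdjoinRoot.root f ≠ 0 := by
  intro h0
  have h1 := norm_pt (f := f) h.mon x
  haveI := (fin_M h).1
  rw [h0, Algebra.norm_zero] at h1
  exact h.root x h1.symm

/-- The classes of divisors are the classes of points. -/
theorem cls [CharZero E] (H : T2D v f x₀ y₀ a b γ e) {z : AdjoinRoot f} (hz : z ≠ 0)
    (HL : Lc f z) : ∃ s ζ : AdjoinRoot f, s ≠ 0 ∧ z = s ^ 2 * (1 + ζ) ∧ V h ζ ≤ exp (-1) ∧
      (V h ζ ≤ exp (-(2 * (e : ℤ))) ∨ ∃ (X Y : E) (n : ℕ) (t l g₀ g₁ : E), n + 1 ≤ e ∧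
        PtD v x₀ y₀ a b γ X Y n t l g₀ g₁ ∧ ζ = ze f x₀ g₀ g₁) := by
  have hth : th f x₀ ≠ 0 := by
    have := V_th h H.hx
    rintro h0
    rw [h0, map_zero] at this
    exact zero_ne_one this
  rcases HL.cases h.mon h.deg (Fact.out) with ⟨s, hs⟩ | ⟨x, y, hxy, s, hs⟩
  · refine ⟨s, 0, ?_, by rw [hs]; ring, by rw [map_zero]; exact zero_le,
      Or.inl (by rw [map_zero]; exact zero_le)⟩
    rintro rfl
    rw [zero_pow two_ne_zero] at hs
    exact hz hs
  · obtain ⟨n, t, l, g₀, g₁, D⟩ := exists_ptD H hxy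
    have hp := pt_ne h x
    have hid := one_ze h H D
    obtain ⟨b0, b1, b2⟩ := D.bd H
    have hV : V h (ze f x₀ g₀ g₁) ≤ exp (-1) := by
      rw [V_ze h H.hx]
      rcases Nat.lt_or_ge n e with hn | hn
      · refine max_le ?_ ?_
        · rw [b0, exp_le_exp]; omega
        · exact Le.mono (b1 (by omega)) (by omega)
      · have := H.he
        exact max_le (Le.mono (b2 hn).1 (by omega)) (Le.mono (b2 hn).2 (by omega))
    have h1z : 1 + ze f x₀ g₀ g₁ ≠ 0 := by
      intro h0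
      have h3 : ze f x₀ g₀ g₁ = -1 := by linear_combination h0
      rw [h3, Valuation.map_neg, map_one, ← exp_zero, exp_le_exp] at hV
      omega
    obtain ⟨w, hw⟩ : ∃ w : AdjoinRoot f, w = algebraMap E _ y₀ + algebraMap E _ l * th f x₀ :=
      ⟨_, rfl⟩
    rw [← hw] at hid
    have hw0 : w ≠ 0 := by
      rintro h0
      rw [h0, zero_pow two_ne_zero] at hid
      rcases mul_eq_zero.1 hid with h3 | h3
      · exact hp h3
      · rcases mul_eq_zero.1 h3 with h3 | h3
        · exact h1z h3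
        · exact (pow_ne_zero 2 hth) h3
    have hs0 : s ≠ 0 := by
      rintro h0
      rw [h0, zero_pow two_ne_zero] at hs
      rcases mul_eq_zero.1 hs with h3 | h3
      · exact hz h3
      · exact hp h3
    refine ⟨s * th f x₀ / w, ze f x₀ g₀ g₁, ?_, ?_, hV, ?_⟩
    · exact div_ne_zero (mul_ne_zero hs0 hth) hw0
    · have h3 : z * w ^ 2 = s ^ 2 * ((1 + ze f x₀ g₀ g₁) * th f x₀ ^ 2) := by
        rw [← hid, ← hs]
        ring
      field_simp
      linear_combination h3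
    · rcases Nat.lt_or_ge n e with hn | hn
      · exact Or.inr ⟨x, y, n, t, l, g₀, g₁, hn, D, rfl⟩
      · left
        rw [V_ze h H.hx]
        exact max_le (b2 hn).1 (b2 hn).2

include h in
/-- The class of a point is a class of a divisor. -/
theorem one_ze_L [CharZero E] (H : T2D v f x₀ y₀ a b γ e) {X Y : E} {n : ℕ} {t l g₀ g₁ : E}
    (D : PtD v x₀ y₀ a b γ X Y n t l g₀ g₁) (hXY : Y ^ 2 = f.eval X) :
    Lc f (1 + ze f x₀ g₀ g₁) ∧ IsSquare (Algebra.norm E (1 + ze f x₀ g₀ g₁)) := by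
  have hth : th f x₀ ≠ 0 := by
    have := V_th h H.hx
    rintro h0
    rw [h0, map_zero] at this
    exact zero_ne_one this
  have hp := pt_ne h X
  have hid := one_ze h H D
  obtain ⟨w, hw⟩ : ∃ w : AdjoinRoot f, w = algebraMap E _ y₀ + algebraMap E _ l * th f x₀ :=
    ⟨_, rfl⟩
  obtain ⟨P, hP⟩ : ∃ P : AdjoinRoot f, P = algebraMap E _ X - AdjoinRoot.root f := ⟨_, rfl⟩
  rw [← hw, ← hP] at hid
  rw [← hP] at hp
  have e1 : 1 + ze f x₀ g₀ g₁ = P * (w / (P * th f x₀)) ^ 2 := by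
    field_simp
    linear_combination hid
  rw [e1]
  refine ⟨?_, ?_⟩
  · refine Lc.mul ?_ (Lc.sq _)
    rw [hP]
    exact Lc.pt hXY (h.root X)
  · rw [map_mul, map_pow, hP, norm_pt h.mon, ← hXY]
    exact ⟨Y * Algebra.norm E (w / (P * th f x₀)), by rw [hP]; ring⟩

end pt

section map

variable {E : Type} [Field E] {E' : Type} [Field E'] {ι : E →+* E'} {f : E[X]}
  {v : Valuation E (WithZero (Multiplicative ℤ))} {v' : Valuation E' (WithZero (Multiplicative ℤ))}
  (hv : ∀ x, v' (ι x) = v x) {x₀ y₀ a b γ : E} {e : ℕ}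

include hv in
theorem T2D.map [CharZero E] (H : T2D v f x₀ y₀ a b γ e) :
    T2D v' (f.map ι) (ι x₀) (ι y₀) (ι a) (ι b) (ι γ) e where
  hf T := by
    rw [H.pol]
    simp
  hx := by rw [hv]; exact H.hx
  hy := by rw [hv]; exact H.hy
  ha := by rw [hv]; exact H.ha
  hb := by rw [hv]; exact H.hb
  hγ := by rw [hv]; exact H.hγ
  h2 := by
    have := hv 2
    rw [map_ofNat] at this
    rw [this]
    exact H.h2
  he := H.he

include hv in
theorem PtD.map {X Y : E} {n : ℕ} {t l g₀ g₁ : E} (D : PtD v x₀ y₀ a b γ X Y n t l g₀ g₁) :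
    PtD v' (ι x₀) (ι y₀) (ι a) (ι b) (ι γ) (ι X) (ι Y) n (ι t) (ι l) (ι g₀) (ι g₁) where
  hX := by rw [D.hX, map_add]
  ht := by rw [hv]; exact D.ht
  hl := by rw [hv]; exact D.hl
  hY := by rw [D.hY, map_add, map_mul]
  g0 := by rw [D.g0, map_div₀, map_neg]
  g1 := by rw [D.g1, map_sub, map_add, map_pow]
  g1' := by
    rw [← map_mul, D.g1']
    simp only [map_add, map_sub, map_mul, map_ofNat]

end map

end Pool.Agent.V7H54.V3
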