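import Pool.Agent.V7H54.F4

/-!
# Descent of local classes along an unramified extension, reduction of type II at 2
-/

set_option autoImplicit false
set_option linter.all false

open Polynomial WithZero

namespace Pool.Agent.V7H54.V3

open Pool.Agent.N783.PQ (LocIm)

section quad

variable {E : Type} [Field E] {v : Valuation E (WithZero (Multiplicative ℤ))} {f : E[X]}
  [Fact (Irreducible f)] (h : Cub v f)

include h in
theorem exists_quad (x₀ : E) (z : AdjoinRoot f) : ∃ c₀ c₁ c₂ : E,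
    z = algebraMap E _ c₀ + algebraMap E _ c₁ * th f x₀ + algebraMap E _ c₂ * th f x₀ ^ 2 := by
  refine ⟨co h 0 z + co h 1 z * x₀ + co h 2 z * x₀ ^ 2, co h 1 z + 2 * co h 2 z * x₀, co h 2 z, ?_⟩
  conv_lhs => rw [← mk_rep h z, rep]
  simp only [map_add, map_mul, map_pow, map_ofNat, AdjoinRoot.mk_X, AdjoinRoot.mk_C, th,
    AdjoinRoot.algebraMap_eq]
  ring

theorem V_two {e : ℕ} (h2 : v 2 = exp (-(e : ℤ))) : V h 2 = exp (-(e : ℤ)) := by
  have := V_of h 2
  rw [map_ofNat] at this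
  rw [this, h2]

end quad

section step

variable {E : Type} [Field E] [CharZero E] [Valued E (WithZero (Multiplicative ℤ))]
  [CompleteSpace E] [T0Space E]
  [Finite (IsLocalRing.ResidueField (Valued.v (R := E)).valuationSubring)]
  {E' : Type} [Field E'] [CharZero E'] {v' : Valuation E' (WithZero (Multiplicative ℤ))}
  {ι : E →+* E'} (hv : ∀ x, v' (ι x) = Valued.v (R := E) x) {f : E[X]} [Fact (Irreducible f)]
  [Fact (Irreducible (f.map ι))] (h : Cub (Valued.v (R := E)) f) (h' : Cub v' (f.map ι))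
  {x₀ y₀ a b γ : E} {e : ℕ} (H : T2D (Valued.v (R := E)) f x₀ y₀ a b γ e)

include hv h' H in
theorem step_odd {z : AdjoinRoot f} {n : ℕ} (hn : n + 1 ≤ e)
    (hz : V h (z - 1) = exp (-(2 * (n : ℤ)) - 1)) (HL : Lc (f.map ι) (jj ι f z)) :
    ∃ z₁ : AdjoinRoot f, Lc f z₁ ∧ IsSquare (Algebra.norm E z₁) ∧ z₁ ≠ 0 ∧
      V h (z * z₁ - 1) ≤ exp (-(2 * (n : ℤ)) - 2) := by
  have H' := H.map hv
  have he := H.he
  have hone : V h' 1 = exp 0 := by rw [map_one, exp_zero]
  have h2' : V h' 2 = exp (-(e : ℤ)) := V_two h' H'.h2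
  obtain ⟨Z, hZ⟩ : ∃ Z, Z = jj ι f z := ⟨_, rfl⟩
  have hZ1 : V h' (Z - 1) = exp (-(2 * (n : ℤ)) - 1) := by
    rw [← hz, ← jj_V hv h h', map_sub (jj ι f), map_one (jj ι f), hZ]
  have hZ0 : Z ≠ 0 := by
    rintro h0
    rw [h0, zero_sub, Valuation.map_neg, hone] at hZ1
    have := exp_injective hZ1
    omega
  rw [← hZ] at HL
  obtain ⟨s, ζ, hs0, hsζ, hζ1, hζ⟩ := cls h' H' hZ0 HL
  have h1ζ : V h' (1 + ζ) = exp 0 := Eq.add hone (Le.mono hζ1 (by omega))
  have h1ζ0 : 1 + ζ ≠ 0 := ne_of_exp h1ζ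
  have hs2 : V h' (s ^ 2 - 1) = V h' (Z - 1 - ζ) := by
    have e1 : Z - 1 - ζ = (s ^ 2 - 1) * (1 + ζ) := by
      rw [hsζ]
      ring
    rw [e1, map_mul, h1ζ, exp_zero, mul_one]
  have hA : ∀ i : ℤ, Odd i → i < 2 * (e : ℤ) → V h' (Z - 1 - ζ) ≠ exp (-i) := by
    intro i hi1 hi2 hi3
    rw [← hs2] at hi3
    have := rigid h2' hi3 hi1
    omega
  rcases hζ with hζ | ⟨X, Y, n', t, l, g₀, g₁, hn', D, hD⟩
  · exfalso
    refine hA (2 * (n : ℤ) + 1) ⟨n, rfl⟩ (by omega) ?_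
    rw [sub_eq_add_neg, Eq.add hZ1 (Le.neg (Le.mono hζ (by omega)))]
    congr 1
    ring
  · obtain ⟨b0, b1, -⟩ := D.bd H'
    have b1' := b1 hn'
    have hVζ : V h' ζ = exp (-(2 * (n' : ℤ)) - 1) := by
      rw [hD, V_ze h' H'.hx, b0, max_eq_left b1']
    have hnn : n' = n := by
      rcases lt_trichotomy n' n with h1 | h1 | h1
      · exfalso
        refine hA (2 * (n' : ℤ) + 1) ⟨n', rfl⟩ (by omega) ?_
        have e1 : Z - 1 - ζ = -ζ + (Z - 1) := by ring
        rw [e1, Eq.add (Eq.neg hVζ) (Le.mono hZ1.le (by omega))]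
        congr 1
        ring
      · exact h1
      · exfalso
        refine hA (2 * (n : ℤ) + 1) ⟨n, rfl⟩ (by omega) ?_
        rw [sub_eq_add_neg, Eq.add hZ1 (Le.neg (Le.mono hVζ.le (by omega)))]
        congr 1
        ring
    subst hnn
    have hle : V h' (Z - 1 - ζ) ≤ exp (-(2 * (n' : ℤ)) - 2) := by
      have h3 : V h' (Z - 1 - ζ) ≤ exp (-(2 * (n' : ℤ)) - 1) := Le.sub hZ1.le hVζ.le
      have h4 : V h' (Z - 1 - ζ) < exp (-(2 * (n' : ℤ)) - 1) := by
        refine lt_of_le_of_ne h3 fun h5 => hA (2 * (n' : ℤ) + 1) ⟨n', rfl⟩ (by omega) ?_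
        rw [h5]
        congr 1
        ring
      exact Le.mono (Le.lt_iff.1 h4) (by omega)
    -- coordinates
    obtain ⟨d₀, d₁, d₂, hd⟩ := exists_quad h x₀ (th f x₀ ^ 2 * (z - 1))
    have hjth : jj ι f (th f x₀) = th (f.map ι) (ι x₀) := by
      rw [th, th, map_sub, jj_root, jj_of]
    have hth' : V h' (th (f.map ι) (ι x₀)) = 1 := V_th h' H'.hx
    have hth0' : th (f.map ι) (ι x₀) ≠ 0 := by
      rintro h0
      rw [h0, map_zero] at hth'
      exact zero_ne_one hth'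
    have hth : V h (th f x₀) = 1 := V_th h H.hx
    have hth0 : th f x₀ ≠ 0 := by
      rintro h0
      rw [h0, map_zero] at hth
      exact zero_ne_one hth
    have hd' : th (f.map ι) (ι x₀) ^ 2 * (Z - 1 - ζ) =
        algebraMap E' _ (ι d₀ - g₀) + algebraMap E' _ (ι d₁ - g₁) * th (f.map ι) (ι x₀) +
        algebraMap E' _ (ι d₂) * th (f.map ι) (ι x₀) ^ 2 := by
      have h3 := congrArg (jj ι f) hd
      simp only [map_mul, map_pow, map_sub, map_add, map_one, hjth, jj_of, ← hZ] at h3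
      have h4 : th (f.map ι) (ι x₀) ^ 2 * ζ =
          algebraMap E' _ g₀ + algebraMap E' _ g₁ * th (f.map ι) (ι x₀) := by
        rw [hD, ze]
        field_simp
      rw [map_sub, map_sub]
      linear_combination h3 - h4
    have hq := V_quad h' (ι x₀) (ι d₀ - g₀) (ι d₁ - g₁) (ι d₂) (by rw [← exp_zero]; exact H'.hx)
    have hdd : v' (ι d₀ - g₀) ≤ exp (-(2 * (n' : ℤ)) - 2) := by
      have hq2 : V h' (algebraMap E' _ (ι d₀ - g₀) + algebraMap E' _ (ι d₁ - g₁) *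
          th (f.map ι) (ι x₀) + algebraMap E' _ (ι d₂) * th (f.map ι) (ι x₀) ^ 2) ≤
          exp (-(2 * (n' : ℤ)) - 2) := by
        rw [← hd', map_mul, map_pow, hth', one_pow, one_mul]
        exact hle
      exact ((le_max_left _ _).trans hq.ge).trans hq2
    -- the first approximation
    have hγ0 : γ ≠ 0 := ne_of_exp H.hγ
    have ht0 : t ≠ 0 := ne_of_exp D.ht
    have hγ0' : ι γ ≠ 0 := ne_of_exp H'.hγ
    obtain ⟨u₁, hu₁⟩ : ∃ u₁, u₁ = -d₀ / γ := ⟨_, rfl⟩
    have hvd : v' (ι d₀) = exp (-(2 * (n' : ℤ)) - 1) := by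
      have e1 : ι d₀ = g₀ + (ι d₀ - g₀) := by ring
      rw [e1]
      exact Eq.add b0 (Le.mono hdd (by omega))
    have hu : Valued.v (R := E) u₁ = exp (-(2 * (n' : ℤ))) := by
      rw [hv] at hvd
      rw [hu₁, Eq.div (Eq.neg hvd) H.hγ]
      congr 1
      ring
    have hu0 : u₁ ≠ 0 := ne_of_exp hu
    have hu' : v' (ι u₁) = exp (-(2 * (n' : ℤ))) := by rw [hv, hu]
    have hu0' : ι u₁ ≠ 0 := ne_of_exp hu'
    have htu : v' (1 / t - ι u₁) ≤ exp (-(2 * (n' : ℤ)) - 1) := by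
      have e1 : 1 / t - ι u₁ = (ι d₀ - g₀) / ι γ := by
        rw [hu₁, D.g0, map_div₀, map_neg]
        field_simp
        ring
      rw [e1]
      exact Le.mono (Le.div hdd H'.hγ) (by omega)
    obtain ⟨l₁, hl₁, hul⟩ := exists_slope H hu
    obtain ⟨X₁, Y₁, hXY₁, t₁, g₀₁, g₁₁, D₁, ht₁⟩ := exists_pt H hn hu hl₁ hul
    have D₁' := D₁.map hv
    have hll : v' (l - ι l₁) ≤ exp ((n' : ℤ) - 1) := by
      have k1 : v' (1 / ι u₁ + ι a - ι l₁ ^ 2) ≤ exp (2 * (n' : ℤ) - 1) := by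
        have e1 : 1 / ι u₁ + ι a - ι l₁ ^ 2 = ι (1 / u₁ + a - l₁ ^ 2) := by
          simp only [map_sub, map_add, map_pow, map_div₀, map_one]
        rw [e1, hv]
        exact hul
      have k2 : v' (t - 1 / ι u₁) ≤ exp (2 * (n' : ℤ) - 1) := by
        have e1 : t - 1 / ι u₁ = -((1 / t - ι u₁) * t / ι u₁) := by
          field_simp
          ring
        rw [e1]
        exact Le.neg (Le.mono (Le.div (Le.mul htu D.ht.le) hu') (by omega))
      have k3 : v' (l ^ 2 - ι l₁ ^ 2) ≤ exp (2 * (n' : ℤ) - 1) := by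
        have e1 : l ^ 2 - ι l₁ ^ 2 = (1 / ι u₁ + ι a - ι l₁ ^ 2) + (t - 1 / ι u₁) - g₁ := by
          rw [D.g1]
          ring
        rw [e1]
        exact Le.sub (Le.add k1 k2) (Le.mono b1' (by omega))
      have hl₁' : v' (ι l₁) ≤ exp (n' : ℤ) := by rw [hv]; exact hl₁
      have k4 : v' ((l - ι l₁) ^ 2) ≤ exp (2 * (n' : ℤ) - 1) := by
        have e1 : (l - ι l₁) ^ 2 = (l ^ 2 - ι l₁ ^ 2) - 2 * (ι l₁ * (l - ι l₁)) := by ring
        rw [e1]
        refine Le.sub k3 (Le.mono (Le.mul H'.h2.le (Le.mul hl₁' (Le.sub D.hl hl₁'))) ?_)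
        omega
      by_cases hl0 : l - ι l₁ = 0
      · rw [hl0, map_zero]
        exact zero_le
      · obtain ⟨k, hk⟩ := exists_exp (w := v') hl0
        rw [Eq.pow2 hk, exp_le_exp] at k4
        rw [hk, exp_le_exp]
        omega
    have htt : v' (1 / t - 1 / ι t₁) ≤ exp (-(2 * (n' : ℤ)) - 1) := by
      have e1 : 1 / t - 1 / ι t₁ = (1 / t - ι u₁) - ι (1 / t₁ - u₁) := by
        simp only [map_sub, map_div₀, map_one]
        ring
      rw [e1]
      refine Le.sub htu ?_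
      rw [hv]
      exact ht₁
    obtain ⟨c0, c1⟩ := PtD.cmp H' D D₁' hn htt hll
    -- comparison of the classes
    obtain ⟨ζ₁, hζ₁⟩ : ∃ ζ₁, ζ₁ = ze f x₀ g₀₁ g₁₁ := ⟨_, rfl⟩
    have hjζ : jj ι f ζ₁ = ze (f.map ι) (ι x₀) (ι g₀₁) (ι g₁₁) := by
      rw [hζ₁, ze, ze, map_div₀, map_add, map_mul, map_pow, hjth, jj_of, jj_of]
    have hcmp : V h' (ζ - jj ι f ζ₁) ≤ exp (-(2 * (n' : ℤ)) - 2) := by
      have e1 : ζ - jj ι f ζ₁ = ze (f.map ι) (ι x₀) (g₀ - ι g₀₁) (g₁ - ι g₁₁) := by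
        rw [hjζ, hD, ze, ze, ze, map_sub, map_sub]
        field_simp
        ring
      rw [e1, V_ze h' H'.hx]
      exact max_le c0 c1
    have hzζ : V h (z - 1 - ζ₁) ≤ exp (-(2 * (n' : ℤ)) - 2) := by
      rw [← jj_V hv h h', map_sub (jj ι f), map_sub (jj ι f), map_one (jj ι f), ← hZ]
      have e1 : Z - 1 - jj ι f ζ₁ = (Z - 1 - ζ) + (ζ - jj ι f ζ₁) := by ring
      rw [e1]
      exact Le.add hle hcmp
    have hone' : V h 1 = exp 0 := by rw [map_one, exp_zero]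
    obtain ⟨B0, B1, -⟩ := D₁.bd H
    have hζV : V h ζ₁ ≤ exp (-(2 * (n' : ℤ)) - 1) := by
      rw [hζ₁, V_ze h H.hx]
      exact max_le B0.le (B1 hn)
    obtain ⟨hL₁, hN₁⟩ := one_ze_L h H D₁ hXY₁
    refine ⟨1 + ζ₁, by rw [hζ₁]; exact hL₁, by rw [hζ₁]; exact hN₁, ?_, ?_⟩
    · exact ne_of_exp (Eq.add hone' (Le.mono hζV (by omega)))
    · have e1 : z * (1 + ζ₁) - 1 = (z - 1 - ζ₁) + 2 * ζ₁ + (z - 1) * ζ₁ := by ring
      rw [e1]
      refine Le.add (Le.add hzζ ?_) ?_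
      · exact Le.mono (Le.mul (V_two h H.h2).le hζV) (by omega)
      · exact Le.mono (Le.mul hz.le hζV) (by omega)

include hv h' H in
theorem ind (k : ℕ) : ∀ i : ℕ, 1 ≤ i → i + k = 2 * e + 1 → ∀ z : AdjoinRoot f,
    V h (z - 1) ≤ exp (-(i : ℤ)) → IsSquare (Algebra.norm E z) → Lc (f.map ι) (jj ι f z) →
    Lc f z := by
  have he := H.he
  have hone : V h 1 = exp 0 := by rw [map_one, exp_zero]
  have h2 : V h 2 = exp (-(e : ℤ)) := V_two h H.h2
  have h4 : V h 4 = exp (-(2 * (e : ℤ))) := by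
    have e1 : (4 : AdjoinRoot f) = 2 ^ 2 := by norm_num
    rw [e1, Eq.pow2 h2]
    congr 1
    ring
  have h40 : (4 : AdjoinRoot f) ≠ 0 := ne_of_exp h4
  have h2lt : Valued.v (R := E) (2 : E) < 1 := by
    rw [Le.one_iff]
    exact Le.mono H.h2.le (by omega)
  have hγ0 : γ ≠ 0 := ne_of_exp H.hγ
  have hγn : ∀ m : ℕ, V h (algebraMap E _ (γ ^ m)) = exp (-(m : ℤ)) := by
    intro m
    rw [V_of]
    induction m with
    | zero => rw [pow_zero, map_one]; simp
    | succ m ih =>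
      rw [pow_succ, Eq.mul ih H.hγ]
      congr 1
      push_cast
      ring
  induction k with
  | zero =>
    intro i hi1 hik z hz hN HL
    obtain ⟨w, hw⟩ : ∃ w : AdjoinRoot f, w = (z - 1) / 4 := ⟨_, rfl⟩
    have hwV : V h w < 1 := by
      rw [Le.one_iff, hw]
      exact Le.mono (Le.div hz h4) (by omega)
    obtain ⟨t, ht⟩ := sqrt_M h w hwV
    have e1 : z = (1 + 2 * t) ^ 2 := by
      have e2 : z = 1 + 4 * w := by
        rw [hw]
        field_simp
        ring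
      rw [e2, ← ht]
      ring
    rw [e1]
    exact Lc.sq _
  | succ k ih =>
    intro i hi1 hik z hz hN HL
    have hz0 : z ≠ 0 := by
      have e1 : z = 1 + (z - 1) := by ring
      rw [e1]
      exact ne_of_exp (Eq.add hone (Le.mono hz (by omega)))
    -- reduction
    have hred : ∀ z₁ : AdjoinRoot f, z₁ ≠ 0 → Lc f z₁ → IsSquare (Algebra.norm E z₁) →
        V h (z * z₁ - 1) ≤ exp (-((i + 1 : ℕ) : ℤ)) → Lc f z := by
      intro z₁ hz₁ hL₁ hN₁ hV₁
      have h3 := ih (i + 1) (by omega) (by omega) (z * z₁) hV₁ (by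
        rw [map_mul]
        exact hN.mul hN₁) (by
        rw [map_mul]
        exact HL.mul (Lc.map ι f hL₁))
      have h5 := Lc.mul h3 hL₁
      rw [mul_assoc, ← pow_two] at h5
      exact Lc.of_mul_sq hz₁ h5
    rcases Nat.lt_or_ge i (2 * e) with hie | hie
    · rcases Nat.even_or_odd' i with ⟨m, hm | hm⟩
      · -- even level
        obtain ⟨w, hw⟩ : ∃ w : AdjoinRoot f, w = (z - 1) / (algebraMap E _ (γ ^ m)) ^ 2 := ⟨_, rfl⟩
        have hwV : V h w ≤ 1 := by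
          rw [Le.zero_iff, hw]
          refine Le.mono (Le.div hz (Eq.pow2 (hγn m))) (by push_cast [hm]; omega)
        obtain ⟨⟨s, hs1, hs2⟩, -⟩ := res_M h h2lt w hwV
        rw [Le.zero_iff] at hs1
        rw [Le.one_iff] at hs2
        obtain ⟨g, hg⟩ : ∃ g : AdjoinRoot f, g = algebraMap E _ (γ ^ m) := ⟨_, rfl⟩
        have hgV : V h g = exp (-(m : ℤ)) := by rw [hg]; exact hγn m
        have hg0 : g ≠ 0 := ne_of_exp hgV
        rw [← hg] at hw
        have hgs : V h (1 + g * s) = exp 0 :=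
          Eq.add hone (Le.mono (Le.mul hgV.le hs1) (by omega))
        have hgs0 : 1 + g * s ≠ 0 := ne_of_exp hgs
        have h6 : V h (z - (1 + g * s) ^ 2) ≤ exp (-((i + 1 : ℕ) : ℤ)) := by
          have e1 : z - (1 + g * s) ^ 2 = g ^ 2 * (w - s ^ 2) - 2 * (g * s) := by
            rw [hw]
            field_simp
            ring
          rw [e1]
          refine Le.sub ?_ ?_
          · refine Le.mono (Le.mul (Eq.pow2 hgV).le hs2) (by push_cast; omega)
          · refine Le.mono (Le.mul h2.le (Le.mul hgV.le hs1)) (by push_cast; omega)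
        refine hred ((1 + g * s)⁻¹ ^ 2) (pow_ne_zero 2 (inv_ne_zero hgs0)) (Lc.sq _) ?_ ?_
        · rw [map_pow]
          exact IsSquare.sq _
        · have e1 : z * (1 + g * s)⁻¹ ^ 2 - 1 = (z - (1 + g * s) ^ 2) / (1 + g * s) ^ 2 := by
            field_simp
          rw [e1]
          exact Le.mono (Le.div h6 (Eq.pow2 hgs)) (by omega)
      · -- odd level
        by_cases hlt : V h (z - 1) ≤ exp (-((i + 1 : ℕ) : ℤ))
        · refine hred 1 one_ne_zero ?_ ?_ ?_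
          · have := Lc.sq (f := f) 1
            rwa [one_pow] at this
          · rw [map_one]
            exact ⟨1, by ring⟩
          · rw [mul_one]
            exact hlt
        · have hzz : V h (z - 1) = exp (-(2 * (m : ℤ)) - 1) := by
            refine le_antisymm (Le.mono hz (by omega)) (not_lt.1 fun h6 => hlt ?_)
            exact Le.mono (Le.lt_iff.1 h6) (by push_cast; omega)
          obtain ⟨z₁, k1, k2, k3, k4⟩ := step_odd hv h h' H (n := m) (by omega) hzz HL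
          exact hred z₁ k3 k1 k2 (Le.mono k4 (by push_cast; omega))
    · -- level `2 e`
      have hie' : i = 2 * e := by omega
      obtain ⟨w, hw⟩ : ∃ w : AdjoinRoot f, w = (z - 1) / 4 := ⟨_, rfl⟩
      have hwV : V h w ≤ 1 := by
        rw [Le.zero_iff, hw]
        exact Le.mono (Le.div hz h4) (by push_cast [hie']; omega)
      obtain ⟨-, s, r, hs, hr, hsr⟩ := res_M h h2lt w hwV
      rw [Le.zero_iff] at hs hr
      rw [Le.one_iff] at hsr
      have hrV : V h (algebraMap E _ r) ≤ exp 0 := by rw [V_of]; exact hr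
      obtain ⟨R, hR⟩ : ∃ R : AdjoinRoot f, R = algebraMap E _ r := ⟨_, rfl⟩
      rw [← hR] at hrV hsr
      obtain ⟨q, hq⟩ : ∃ q : E, q = 1 + 4 * r := ⟨_, rfl⟩
      have hqR : algebraMap E (AdjoinRoot f) q = 1 + 4 * R := by
        rw [hq, hR]
        simp only [map_add, map_mul, map_one, map_ofNat]
      have hQV : V h (1 + 4 * R) = exp 0 :=
        Eq.add hone (Le.mono (Le.mul h4.le hrV) (by omega))
      have hQ0 : (1 + 4 * R : AdjoinRoot f) ≠ 0 := ne_of_exp hQV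
      have hSV : V h (1 + 2 * s) = exp 0 :=
        Eq.add hone (Le.mono (Le.mul h2.le hs) (by omega))
      have hS0 : (1 + 2 * s : AdjoinRoot f) ≠ 0 := ne_of_exp hSV
      obtain ⟨w₂, hw₂⟩ : ∃ w₂ : AdjoinRoot f, w₂ = ((w - (s ^ 2 + s) - R) - 4 * (R * (s ^ 2 + s))) /
        ((1 + 4 * R) * (1 + 2 * s) ^ 2) := ⟨_, rfl⟩
      have hw₂V : V h w₂ < 1 := by
        rw [Le.one_iff, hw₂]
        refine Le.mono (Le.div (k := -1) (Le.sub hsr ?_) (Eq.mul hQV (Eq.pow2 hSV))) (by omega)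
        refine Le.mono (Le.mul h4.le (Le.mul hrV (Le.add (k := 0) (Le.mono (Le.pow2 hs) (by omega))
          hs))) (by omega)
      obtain ⟨t, ht⟩ := sqrt_M h w₂ hw₂V
      have e1 : z = algebraMap E _ q * ((1 + 2 * s) * (1 + 2 * t)) ^ 2 := by
        have e2 : z = 1 + 4 * w := by
          rw [hw]
          field_simp
          ring
        have e3 : (1 + 2 * t) ^ 2 = 1 + 4 * w₂ := by
          rw [← ht]
          ring
        rw [mul_pow, e3, e2, hqR, hw₂]
        field_simp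
        ring
      obtain ⟨σ, hσ⟩ : ∃ σ, σ = (1 + 2 * s) * (1 + 2 * t) := ⟨_, rfl⟩
      rw [← hσ] at e1
      have hσ0 : σ ≠ 0 := by
        rintro h0
        rw [h0, zero_pow two_ne_zero, mul_zero] at e1
        exact hz0 e1
      have hq0 : q ≠ 0 := by
        rintro h0
        rw [h0, map_zero, zero_mul] at e1
        exact hz0 e1
      haveI := (fin_M h).1
      have hNσ : Algebra.norm E σ ≠ 0 := by
        intro h0
        exact hσ0 (Algebra.norm_eq_zero_iff.1 h0)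
      obtain ⟨d, hd⟩ := hN
      rw [e1, map_mul, Algebra.norm_algebraMap, (fin_M h).2, map_pow] at hd
      have e4 : q = (d / (q * Algebra.norm E σ)) ^ 2 := by
        field_simp
        linear_combination hd
      have e5 : z = (algebraMap E _ (d / (q * Algebra.norm E σ)) * σ) ^ 2 := by
        rw [mul_pow, ← map_pow, ← e4]
        exact e1
      rw [e5]
      exact Lc.sq _

include hv h h' H in
/-- **Descent of local classes.** -/
theorem desc_loc {p : E[X]} (hcop : IsCoprime p f) (hN : IsSquare (Algebra.norm E (AdjoinRoot.mk f p)))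
    (hL : LocIm E' (f.map ι) (p.map ι)) : LocIm E f p := by
  have H' := H.map hv
  have he := H.he
  have hone : V h 1 = exp 0 := by rw [map_one, exp_zero]
  have hone' : V h' 1 = exp 0 := by rw [map_one, exp_zero]
  have h2lt : Valued.v (R := E) (2 : E) < 1 := by
    rw [Le.one_iff]
    exact Le.mono H.h2.le (by omega)
  obtain ⟨z, hz⟩ : ∃ z, z = AdjoinRoot.mk f p := ⟨_, rfl⟩
  have hz0 : z ≠ 0 := by
    obtain ⟨α, β, hαβ⟩ := hcop
    rintro h0
    have := congrArg (AdjoinRoot.mk f) hαβ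
    rw [map_add, map_mul, map_mul, ← hz, h0, AdjoinRoot.mk_self, mul_zero, mul_zero, add_zero,
      map_one] at this
    exact zero_ne_one this
  rw [← hz] at hN
  have HL : Lc (f.map ι) (jj ι f z) := by
    rw [hz, jj_mk]
    exact Lc.of_loc hL
  apply Lc.loc
  rw [← hz]
  -- parity
  obtain ⟨Z, hZ⟩ : ∃ Z, Z = jj ι f z := ⟨_, rfl⟩
  have hZ0 : Z ≠ 0 := by
    rw [hZ]
    exact (map_ne_zero_iff _ (jj ι f).injective).2 hz0
  have HL' := HL
  rw [← hZ] at HL'
  obtain ⟨s, ζ, hs0, hsζ, hζ1, -⟩ := cls h' H' hZ0 HL'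
  obtain ⟨m, hm⟩ := exists_exp (w := V h') hs0
  have hzV : V h z = exp (2 * m) := by
    rw [← jj_V hv h h', ← hZ, hsζ, Eq.mul (Eq.pow2 hm) (Eq.add hone' (Le.mono hζ1 (by omega)))]
    congr 1
    ring
  obtain ⟨c, hc⟩ : ∃ c : AdjoinRoot f, V h c = exp (-m) := by
    refine ⟨algebraMap E _ (γ ^ m), ?_⟩
    rw [V_of, map_zpow₀, H.hγ, ← exp_zsmul]
    congr 1
    simp
  have hc0 : c ≠ 0 := ne_of_exp hc
  have hzc : V h (z * c ^ 2) = exp 0 := by
    rw [Eq.mul hzV (Eq.pow2 hc)]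
    congr 1
    ring
  obtain ⟨⟨s₁, hs1, hs2⟩, -⟩ := res_M h h2lt (z * c ^ 2) (Le.zero_iff.2 hzc.le)
  rw [Le.one_iff] at hs2
  have hs₁0 : V h s₁ = exp 0 := by
    have e1 : s₁ ^ 2 = z * c ^ 2 - (z * c ^ 2 - s₁ ^ 2) := by ring
    have h3 : V h (s₁ ^ 2) = exp 0 := by
      rw [e1, sub_eq_add_neg]
      exact Eq.add hzc (Le.neg (Le.mono hs2 (by omega)))
    have hs₁ : s₁ ≠ 0 := by
      rintro h0
      rw [h0, zero_pow two_ne_zero, map_zero] at h3
      exact exp_ne_zero h3.symm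
    obtain ⟨k, hk⟩ := exists_exp (w := V h) hs₁
    rw [Eq.pow2 hk] at h3
    have := exp_injective h3
    rw [hk]
    congr 1
    omega
  have hs₁ : s₁ ≠ 0 := ne_of_exp hs₁0
  have hcs : c / s₁ ≠ 0 := div_ne_zero hc0 hs₁
  refine Lc.of_mul_sq hcs ?_
  refine ind hv h h' H (2 * e) 1 le_rfl (by omega) _ ?_ ?_ ?_
  · have e1 : z * (c / s₁) ^ 2 - 1 = (z * c ^ 2 - s₁ ^ 2) / s₁ ^ 2 := by
      field_simp
    rw [e1]
    exact Le.mono (Le.div hs2 (Eq.pow2 hs₁0)) (by norm_num)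
  · rw [map_mul, map_pow]
    exact hN.mul (IsSquare.sq _)
  · rw [map_mul, map_pow]
    exact HL.mul (Lc.sq _)

end step

end Pool.Agent.V7H54.V3
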