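import Pool.Agent.V7H54.Gf2

/-!
# Many polynomials in the family, with positive coefficient of `x`

After `N352/PF/SML.lean` (helper99) and `N951/PF/Fam.lean` (helper951).
-/

set_option autoImplicit false
set_option linter.all false

open Polynomial NumberField IsDedekindDomain
open scoped Classical

namespace Pool.Agent.V7H54

section sml

open Pool.Agent.N352.PF
open Pool.Agent.N352.PF.SML99
open Pool.Agent.N352.PJ (dd pol dis Dy D2)

theorem smlK (F : Type) [Field F] [NumberField F] (g : ℕ) (hg : 1 ≤ g) (k : ℕ) (hk : 1 ≤ k) :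
    ∃ M C : ℕ, 1 ≤ C ∧
    ∀ (B W : ℕ) (A : Fin (2 * g) → 𝓞 F), 0 < W → C * W ≤ B →
    k * {a ∈ Bx g B W A | ∃ v : HeightOneSpectrum (𝓞 F), M < nv v ∧ nv v ^ 2 < B ^ dg F ∧
      (W : 𝓞 F) ∉ v.asIdeal ∧ dis a ∈ v.asIdeal ^ 2}.ncard ≤ (Bx g B W A).ncard := by
  have h1 : S_CU := Pool.Agent.N75.PF.cu
  have h2 : S_BX := bxT
  have h3 : S_LD := Pool.Agent.N189.PF.ld
  have h4 : S_PR := Pool.Agent.N195.PF.pr
  have h5 : S_PF := Pool.Agent.N195.PF.pf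
  have hk0 : (0 : ℝ) < k := by exact_mod_cast hk
  obtain ⟨C, hC⟩ := h1 F
  obtain ⟨C₂, h1C, hC2⟩ := h2 F g
  obtain ⟨h51, h52, h53⟩ := h5 F
  set K : ℕ := cc g * (2 * C) ^ (2 * g) * C₂ with hK
  have hε : (0 : ℝ) < 1 / ((k : ℝ) * ((K : ℝ) + 1)) := by positivity
  obtain ⟨M₀, hM₀⟩ := h4 F _ hε
  set M : ℕ := max M₀ ((2 * g + 1).factorial ^ dg F) with hM
  refine ⟨M, C₂, h1C, fun B W A hW hWB => ?_⟩
  set U : Set (Fin (2 * g) → 𝓞 F) := {a ∈ Bx g B W A | ∃ v : HeightOneSpectrum (𝓞 F), M < nv v ∧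
    nv v ^ 2 < B ^ dg F ∧ (W : 𝓞 F) ∉ v.asIdeal ∧ dis a ∈ v.asIdeal ^ 2} with hU
  have hBf : (Bx g B W A).Finite := (hC2 B W A hW hWB).1
  set X : ℕ := (Bx g B W A).ncard with hX
  set I : Finset (HeightOneSpectrum (𝓞 F)) := (h51 (B ^ dg F)).toFinset.filter
    (fun v => M < nv v ∧ nv v ^ 2 < B ^ dg F ∧ (W : 𝓞 F) ∉ v.asIdeal) with hI
  have hVf : ∀ v : HeightOneSpectrum (𝓞 F), {a ∈ Bx g B W A | dis a ∈ v.asIdeal ^ 2}.Finite :=
    fun v => hBf.subset fun a ha => ha.1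
  have hsub : U ⊆ ↑(I.biUnion fun v => (hVf v).toFinset) := by
    rintro a ⟨ha, v, hMv, hvB, hvW, hd⟩
    simp only [Finset.coe_biUnion, Set.mem_iUnion, Finset.mem_coe]
    refine ⟨v, ?_, ?_⟩
    · rw [hI, Finset.mem_filter, Set.Finite.mem_toFinset]
      refine ⟨?_, hMv, hvB, hvW⟩
      have : nv v ≤ nv v ^ 2 := Nat.le_self_pow (by norm_num) _
      show nv v ≤ B ^ dg F
      exact this.trans hvB.le
    · rw [Set.Finite.mem_toFinset]
      exact ⟨ha, hd⟩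
  have hU1 : U.ncard ≤ ∑ v ∈ I, {a ∈ Bx g B W A | dis a ∈ v.asIdeal ^ 2}.ncard := by
    have h3 := Set.ncard_le_ncard hsub (Finset.finite_toSet _)
    rw [Set.ncard_coe_finset] at h3
    refine h3.trans (Finset.card_biUnion_le.trans (Finset.sum_le_sum fun v _ => ?_))
    rw [Set.ncard_eq_toFinset_card _ (hVf v)]
  have hU2 : (U.ncard : ℝ) ≤ K * X * (1 / ((k : ℝ) * ((K : ℝ) + 1))) := by
    calc (U.ncard : ℝ) ≤ ∑ v ∈ I, ({a ∈ Bx g B W A | dis a ∈ v.asIdeal ^ 2}.ncard : ℝ) := by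
          exact_mod_cast hU1
      _ ≤ ∑ v ∈ I, (K * X : ℝ) * (1 / ((nv v : ℝ) ^ 2)) := by
          refine Finset.sum_le_sum fun v hv => ?_
          rw [hI, Finset.mem_filter] at hv
          obtain ⟨_, hMv, hvB, hvW⟩ := hv
          have hv2 : 2 ≤ nv v := h53 v
          have hfac : ((2 * g + 1).factorial : 𝓞 F) ∉ v.asIdeal := by
            intro hcon
            have h6 := h52 v _ (Nat.factorial_pos _) hcon
            have h7 : (2 * g + 1).factorial ^ dg F ≤ M := le_max_right _ _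
            omega
          have h4 := one_prime hC hg hC2 h3 A h1C hW hWB (v := v) (by omega) hfac hvB hvW
          have h5 : ({a ∈ Bx g B W A | dis a ∈ v.asIdeal ^ 2}.ncard : ℝ) * (nv v : ℝ) ^ 2 ≤
              K * X := by
            rw [hK, hX]
            exact_mod_cast h4
          have h6 : (0 : ℝ) < (nv v : ℝ) ^ 2 := by
            have : 0 < nv v := by omega
            positivity
          rw [mul_one_div, le_div_iff₀ h6]
          exact h5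
      _ = (K * X : ℝ) * ∑ v ∈ I, (1 / ((nv v : ℝ) ^ 2)) := by
          rw [Finset.mul_sum]
      _ ≤ K * X * (1 / ((k : ℝ) * ((K : ℝ) + 1))) := by
          refine mul_le_mul_of_nonneg_left ?_ (by positivity)
          apply hM₀ I
          intro v hv
          rw [hI, Finset.mem_filter] at hv
          exact lt_of_le_of_lt (le_max_left _ _) hv.2.1
  have hfin : (k : ℝ) * (U.ncard : ℝ) ≤ X := by
    have hX0 : (0 : ℝ) ≤ X := by positivity
    have hK0 : (0 : ℝ) ≤ K := by positivity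
    calc (k : ℝ) * (U.ncard : ℝ) ≤ (k : ℝ) * (K * X * (1 / ((k : ℝ) * ((K : ℝ) + 1)))) :=
          mul_le_mul_of_nonneg_left hU2 hk0.le
      _ = (K / ((K : ℝ) + 1)) * X := by field_simp
      _ ≤ 1 * X := by
          refine mul_le_mul_of_nonneg_right ?_ hX0
          rw [div_le_one (by positivity)]
          linarith
      _ = X := one_mul _
  exact_mod_cast hfin


end sml


section low

open Pool.Agent.N352.PF
open Pool.Agent.N352.PJ (dd)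

variable (F : Type) [Field F] [NumberField F]

/-- The box with the sign condition. -/
def Bp (B W : ℕ) (A : Fin (2 * 1) → 𝓞 F) : Set (Fin (2 * 1) → 𝓞 F) :=
  {a | a ∈ Bx 1 B W A ∧ ∀ σ : F →+* ℝ, 0 ≤ σ (a 1 : F)}

theorem bp_low : ∃ C : ℕ, 1 ≤ C ∧ ∀ (B W : ℕ) (A : Fin (2 * 1) → 𝓞 F), 0 < W → C * W ≤ B →
    (Bp F B W A).Finite ∧ B ^ (dg F * dd 1) ≤ C * (Bp F B W A).ncard * W ^ (2 * 1 * dg F) := by
  obtain ⟨C₁, hC₁, k1⟩ := Pool.Agent.N364.PF.cl F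
  obtain ⟨C₂, hC₂, k2⟩ := bxT F 1
  refine ⟨8 ^ dg F * C₁ ^ 2 + 16 * C₁ + C₂, by
    have : 1 ≤ 8 ^ dg F * C₁ ^ 2 := Nat.one_le_iff_ne_zero.2 (by positivity)
    omega, ?_⟩
  intro B W A hW hB
  have hB2 : C₂ * W ≤ B := (Nat.mul_le_mul_right W (Nat.le_add_left _ _)).trans hB
  have hBC : 16 * C₁ * W ≤ B :=
    (Nat.mul_le_mul_right W ((Nat.le_add_left _ _).trans (Nat.le_add_right _ _))).trans hB
  have hBW : 16 * W ≤ B := by nlinarith
  have hB16 : 16 ≤ B := by omega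
  obtain ⟨hfin, -, -⟩ := k2 B W A hW hB2
  have hfp : (Bp F B W A).Finite := hfin.subset fun a ha => ha.1
  refine ⟨hfp, ?_⟩
  -- the shift
  obtain ⟨T, hT⟩ : ∃ T : ℕ, T = B ^ 2 / 4 := ⟨_, rfl⟩
  have hT4 : 4 * T ≤ B ^ 2 := by
    rw [hT]
    omega
  have hT8 : B ^ 2 ≤ 8 * T := by
    have h1 : 16 * 16 ≤ B ^ 2 := by nlinarith
    rw [hT]
    omega
  obtain ⟨t, ht⟩ : ∃ t : ℕ, t = W * (T / W + 1) := ⟨_, rfl⟩
  have ht1 : T ≤ t := by
    rw [ht]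
    have := Nat.lt_div_mul_add (a := T) hW
    nlinarith
  have ht2 : t ≤ T + W := by
    rw [ht, mul_add, mul_one]
    have := Nat.div_mul_le_self T W
    nlinarith
  have ht3 : t + T ≤ B ^ 2 := by
    have : W ≤ B ^ 2 / 2 := by
      rw [Nat.le_div_iff_mul_le (by norm_num)]
      nlinarith
    omega
  have hC1T : C₁ * W ≤ T := by
    have h1 : 16 * (C₁ * W) ≤ B := by nlinarith
    nlinarith
  have hC1B : C₁ * W ≤ B ^ 3 := by
    have h1 : C₁ * W ≤ B := by nlinarith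
    calc C₁ * W ≤ B := h1
      _ ≤ B ^ 3 := Nat.le_self_pow (by norm_num) B
  have e1 := k1 T W (A 1) hW hC1T
  have e0 := k1 (B ^ 3) W (A 0) hW hC1B
  obtain ⟨X1, hX1⟩ : ∃ X1 : Set (𝓞 F), X1 = {x ∈ Bal F T | (W : 𝓞 F) ∣ x - A 1} := ⟨_, rfl⟩
  obtain ⟨X0, hX0⟩ : ∃ X0 : Set (𝓞 F), X0 = {x ∈ Bal F (B ^ 3) | (W : 𝓞 F) ∣ x - A 0} := ⟨_, rfl⟩
  rw [← hX1] at e1
  rw [← hX0] at e0
  let Φ : 𝓞 F × 𝓞 F → (Fin (2 * 1) → 𝓞 F) := fun p => ![p.1, (t : 𝓞 F) + p.2]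
  have hΦ : Set.MapsTo Φ (X0 ×ˢ X1) (Bp F B W A) := by
    rintro ⟨x, y⟩ ⟨hx, hy⟩
    rw [hX0] at hx
    rw [hX1] at hy
    obtain ⟨hx1, hx2⟩ := hx
    obtain ⟨hy1, hy2⟩ := hy
    refine ⟨⟨?_, ?_⟩, ?_⟩
    · intro j
      fin_cases j
      · exact hx1
      · intro σ
        have h1 := hy1 σ
        change ‖σ (((t : 𝓞 F) + y : 𝓞 F) : F)‖ ≤ ((B ^ (2 * 1 + 1 - 1) : ℕ) : ℝ)
        have h2 : (((t : 𝓞 F) + y : 𝓞 F) : F) = (t : F) + (y : F) := by push_cast; rfl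
        rw [h2, map_add, map_natCast]
        calc ‖(t : ℂ) + σ (y : F)‖ ≤ ‖(t : ℂ)‖ + ‖σ (y : F)‖ := norm_add_le _ _
          _ ≤ (t : ℝ) + T := by
            rw [Complex.norm_natCast]
            exact add_le_add le_rfl h1
          _ ≤ ((B ^ (2 * 1 + 1 - 1) : ℕ) : ℝ) := by exact_mod_cast ht3
    · intro j
      fin_cases j
      · exact hx2
      · change (W : 𝓞 F) ∣ ((t : 𝓞 F) + y) - A 1
        have h3 : ((t : 𝓞 F) + y) - A 1 = (W : 𝓞 F) * ((T / W + 1 : ℕ) : 𝓞 F) + (y - A 1) := by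
          rw [ht]
          push_cast
          ring
        rw [h3]
        exact dvd_add (dvd_mul_right _ _) hy2
    · intro σ
      change 0 ≤ σ (((t : 𝓞 F) + y : 𝓞 F) : F)
      have h2 : (((t : 𝓞 F) + y : 𝓞 F) : F) = (t : F) + (y : F) := by push_cast; rfl
      rw [h2, map_add, map_natCast]
      have h1 := hy1 ((algebraMap ℝ ℂ).comp σ)
      have h4 : ‖((algebraMap ℝ ℂ).comp σ) (y : F)‖ = |σ (y : F)| := by
        change ‖((σ (y : F) : ℝ) : ℂ)‖ = _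
        rw [Complex.norm_real, Real.norm_eq_abs]
      rw [h4] at h1
      have h5 := (abs_le.1 h1).1
      have h6 : (T : ℝ) ≤ t := by exact_mod_cast ht1
      linarith
  have hΦi : Set.InjOn Φ (X0 ×ˢ X1) := by
    rintro ⟨x, y⟩ - ⟨x', y'⟩ - h
    have h1 := congrFun h 0
    have h2 := congrFun h 1
    change x = x' at h1
    change (t : 𝓞 F) + y = (t : 𝓞 F) + y' at h2
    rw [h1, add_left_cancel h2]
  have hcard : X0.ncard * X1.ncard ≤ (Bp F B W A).ncard := by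
    rw [← Set.ncard_prod]
    exact Set.ncard_le_ncard_of_injOn Φ hΦ hΦi hfp
  have hdd : dd 1 = 5 := rfl
  rw [hdd]
  calc B ^ (dg F * 5) = (B ^ 3) ^ dg F * (B ^ 2) ^ dg F := by
        rw [← pow_mul, ← pow_mul, ← pow_add]
        congr 1
        ring
    _ ≤ (B ^ 3) ^ dg F * (8 * T) ^ dg F := by gcongr
    _ = 8 ^ dg F * ((B ^ 3) ^ dg F * T ^ dg F) := by
        rw [mul_pow]
        ring
    _ ≤ 8 ^ dg F * ((C₁ * X0.ncard * W ^ dg F) * (C₁ * X1.ncard * W ^ dg F)) := by gcongr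
    _ = 8 ^ dg F * C₁ ^ 2 * (X0.ncard * X1.ncard) * W ^ (2 * 1 * dg F) := by
        have : W ^ (2 * 1 * dg F) = W ^ dg F * W ^ dg F := by
          rw [← pow_add]
          congr 1
          ring
        rw [this]
        ring
    _ ≤ (8 ^ dg F * C₁ ^ 2 + 16 * C₁ + C₂) * (Bp F B W A).ncard * W ^ (2 * 1 * dg F) := by
        gcongr
        omega

end low

section fam

open Pool.Agent.N951.PF
open Pool.Agent.N352.PJ (dd pol dis Dy D2)
open Pool.Agent.N352.PF (dg Bal nv rv Bz Bx S_BX S_SML S_WK S_STR S_DSC S_GF S_PF bxT)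
open Pool.Agent.N783.PF (Bd Cg sp rd Ht GoodS GoodF Fam S_FAM)

/-- **Many polynomials in the family, with positive coefficient of `x`.** -/
theorem famK (F : Type) [Field F] [NumberField F] (N₀ : ℕ) : ∃ (W : ℕ) (f₁ : (𝓞 F)[X]),
    N₀ ≤ W ∧ GF2 N₀ W f₁ ∧ ∃ c : ℝ, 0 < c ∧
    ∀ (S : Finset ℕ) (𝔮 : ℕ → Ideal (𝓞 F)) (h P : ℕ → (𝓞 F)[X]), GoodS 1 W S 𝔮 h P →
    ∃ B₀ : ℕ, ∀ B ≥ B₀, c * (B : ℝ) ^ (Module.finrank ℚ F * dd 1) ≤
      (((∏ q ∈ S, q ^ (2 * 1)) ^ Module.finrank ℚ F : ℕ) : ℝ) *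
      ({f : (𝓞 F)[X] | Fam 1 B W f₁ S P f ∧ ∀ σ : F →+* ℝ, 0 ≤ σ (f.coeff 1 : F)}.ncard : ℝ) := by
  have h3 : S_WK := Pool.Agent.N935.PF.WK.wk
  have h4 : S_STR := Pool.Agent.N352.PF.STR331.str Pool.Agent.N75.PF.cu Pool.Agent.N364.PF.cl
    Pool.Agent.N195.PF.pf
  have h5 : S_DSC := Pool.Agent.N195.PF.dscp
  have h7 : S_PF := Pool.Agent.N195.PF.pf
  have hg : 1 ≤ 1 := le_rfl
  obtain ⟨C₁, hC₁, hBP⟩ := bp_low F
  obtain ⟨C₃, hC₃, hBX⟩ := bxT F 1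
  obtain ⟨M, C₂, hC₂, hM⟩ := smlK F 1 hg (4 * (C₁ * C₃)) (by
    have : 1 ≤ C₁ * C₃ := Nat.one_le_iff_ne_zero.2 (by positivity)
    omega)
  obtain ⟨p₀, hp₀K, hp₀⟩ := Nat.exists_infinite_primes N₀
  obtain ⟨W, f₁, hGF⟩ := gf2 F (max p₀ (max M (2 * 1 + 1)))
  obtain ⟨hmon, hdeg, htr, hW0, hfour, hirr, htyp, hW⟩ := hGF
  have hGF : GF2 (max p₀ (max M (2 * 1 + 1))) W f₁ :=
    ⟨hmon, hdeg, htr, hW0, hfour, hirr, htyp, hW⟩
  have hKW : N₀ ≤ W := hp₀K.trans (Nat.le_of_dvd hW0 (hW p₀ hp₀ (le_max_left _ _)))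
  have hgood : GoodF 1 W f₁ := hGF.good
  have hsep : ∀ v : HeightOneSpectrum (𝓞 F), (W : 𝓞 F) ∈ v.asIdeal → (rv v f₁).Separable :=
    fun v hv => hgood.sep v.asIdeal v.isPrime hv
  refine ⟨W, f₁, hKW, ⟨hmon, hdeg, htr, hW0, hfour, hirr, htyp, fun p hp hle =>
    hW p hp ((hle.trans hp₀K).trans (le_max_left _ _))⟩,
    1 / (2 * C₁ * (W : ℝ) ^ (2 * 1 * dg F)), by positivity,
    fun S 𝔮 h P hS => ?_⟩
  obtain ⟨Q, hQ⟩ : ∃ Q : ℕ, Q = ∏ q ∈ S, q := ⟨_, rfl⟩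
  have hQ0 : 0 < Q := by
    rw [hQ]
    exact Finset.prod_pos fun q hq => (hS q hq).1.pos
  have hWQ : 0 < W * Q := Nat.mul_pos hW0 hQ0
  -- residues
  have hcrt : ∀ j : Fin (2 * 1), ∃ x : 𝓞 F, (W : 𝓞 F) ∣ x - f₁.coeff j ∧
      ∀ q ∈ S, (q : 𝓞 F) ∣ x - (P q).coeff j := fun j =>
    crt W S (fun q hq => ⟨(hS q hq).1, fun hd =>
      absurd (Nat.le_of_dvd hW0 hd) (by have := (hS q hq).2.1; omega)⟩) _ _
  choose A hA1 hA2 using hcrt
  obtain ⟨B₁, hB₁⟩ := h4 F 1 hg (1 / (4 * C₁ * ((W * Q : ℕ) : ℝ) ^ (2 * 1 * dg F))) (by positivity)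
  refine ⟨max B₁ (max (C₁ * (W * Q)) (max (C₂ * (W * Q)) (C₃ * (W * Q)))), fun B hB => ?_⟩
  have hBB1 : B₁ ≤ B := (le_max_left _ _).trans hB
  have hBC1 : C₁ * (W * Q) ≤ B := ((le_max_left _ _).trans (le_max_right _ _)).trans hB
  have hBC2 : C₂ * (W * Q) ≤ B :=
    (((le_max_left _ _).trans (le_max_right _ _)).trans (le_max_right _ _)).trans hB
  have hBC3 : C₃ * (W * Q) ≤ B :=
    (((le_max_right _ _).trans (le_max_right _ _)).trans (le_max_right _ _)).trans hB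
  obtain ⟨hfin, hcard⟩ := hBP B (W * Q) A hWQ hBC1
  obtain ⟨hfinX, -, hup⟩ := hBX B (W * Q) A hWQ hBC3
  obtain ⟨hfin0, -, -⟩ := hBX B 1 (fun _ => 0) one_pos
    (le_trans (Nat.mul_le_mul_left C₃ hWQ) hBC3)
  have hBz : (Bz F 1 B).Finite := by
    refine hfin0.subset ?_
    intro a ha
    exact ⟨ha, fun j => by simp⟩
  have hsml := hM B (W * Q) A hWQ hBC2
  have hstr := hB₁ B hBB1
  set U := Bp F B (W * Q) A with hU
  set U1 := {a ∈ Bx 1 B (W * Q) A | ∃ v : HeightOneSpectrum (𝓞 F), M < nv v ∧ nv v ^ 2 < B ^ dg F ∧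
    ((W * Q : ℕ) : 𝓞 F) ∉ v.asIdeal ∧ dis a ∈ v.asIdeal ^ 2} with hU1
  set U2 := {a ∈ Bz F 1 B | ∃ v : HeightOneSpectrum (𝓞 F), B ^ dg F ≤ nv v ^ 2 ∧
    dis a ∈ v.asIdeal ∧ D2 a ∈ v.asIdeal} with hU2
  have hU1f : U1.Finite := hfinX.subset (Set.sep_subset _ _)
  have hU2f : U2.Finite := hBz.subset (Set.sep_subset _ _)
  -- the good ones are in the family
  have key : pol '' (U \ (U1 ∪ U2)) ⊆ {f : (𝓞 F)[X] | Fam 1 B W f₁ S P f ∧
      ∀ σ : F →+* ℝ, 0 ≤ σ (f.coeff 1 : F)} := by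
    rintro _ ⟨a, ⟨haU', ha⟩, rfl⟩
    have haU : a ∈ Bx 1 B (W * Q) A := haU'.1
    have hco : (pol a).coeff 1 = a 1 := pol_coeff_lt (g := 1) a 1
    refine ⟨?_, by rw [hco]; exact haU'.2⟩
    have haB : a ∈ Bz F 1 B := haU.1
    have haR : ∀ j, ((W * Q : ℕ) : 𝓞 F) ∣ a j - A j := haU.2
    have hone : Cg (sp F W) (pol a) f₁ := by
      apply cg_pol a hmon hdeg htr
      intro j
      rw [Ideal.mem_span_singleton]
      have e1 : (W : 𝓞 F) ∣ a j - A j := dvd_trans (by push_cast; exact dvd_mul_right _ _) (haR j)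
      have e2 : a j - f₁.coeff j = (a j - A j) + (A j - f₁.coeff j) := by ring
      rw [e2]
      exact dvd_add e1 (hA1 j)
    have hcon : ∀ q ∈ S, Cg (sp F q) (pol a) (P q) := by
      intro q hq
      obtain ⟨hq1, hq2, hq3, hq4, hq5, hq6, hq7, hq8, hq9, hq10, hq11, hq12, hq13, hq14, hq15⟩ :=
        hS q hq
      apply cg_pol a hq11 hq12 hq13
      intro j
      rw [Ideal.mem_span_singleton]
      have e0 : (q : 𝓞 F) ∣ ((W * Q : ℕ) : 𝓞 F) := by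
        have e3 : q ∣ W * Q := by
          rw [hQ]
          exact Dvd.dvd.mul_left (Finset.dvd_prod_of_mem (fun q => q) hq) W
        exact Nat.cast_dvd_cast e3
      have e1 : (q : 𝓞 F) ∣ a j - A j := dvd_trans e0 (haR j)
      have e2 : a j - (P q).coeff j = (a j - A j) + (A j - (P q).coeff j) := by ring
      rw [e2]
      exact dvd_add e1 (hA2 j q hq)
    refine ⟨ht_pol haB, hone, hcon, fun 𝔭 hp hb hPd => ?_⟩
    obtain ⟨v, hv⟩ : ∃ v : HeightOneSpectrum (𝓞 F), v.asIdeal = 𝔭 := ⟨⟨𝔭, hp, hb⟩, rfl⟩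
    subst hv
    have hPd' : dis a ∈ v.asIdeal ^ 2 := hPd
    have hPd1 : Pool.Agent.N352.PF.dsc 1 (pol a) ∈ v.asIdeal :=
      Ideal.pow_le_self two_ne_zero hPd
    haveI : Finite (𝓞 F ⧸ v.asIdeal) := v.asIdeal.finiteQuotientOfFreeOfNeBot v.ne_bot
    haveI : IsDomain (𝓞 F ⧸ v.asIdeal) := Ideal.Quotient.isDomain v.asIdeal
    have hPW : (W : 𝓞 F) ∉ v.asIdeal := by
      intro hd
      refine h5 F 1 v (pol a) f₁ hg (pol_monic a) (pol_natDegree a) ?_ (hsep v hd) hPd1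
      intro j
      exact (Ideal.span_singleton_le_iff_mem _).2 hd (hone j)
    have hPS : ∀ q ∈ S, (q : 𝓞 F) ∉ v.asIdeal := by
      intro q hq hd
      obtain ⟨hq1, hq2, hq3, hq4, hq5, hq6, hq7, hq8, hq9, hq10, hq11, hq12, hq13, hq14, hq15⟩ :=
        hS q hq
      have hc : ∀ j, (pol a).coeff j - (P q).coeff j ∈ v.asIdeal := fun j =>
        (Ideal.span_singleton_le_iff_mem _).2 hd (hcon q hq j)
      by_cases hv : v.asIdeal = 𝔮 q
      · refine h5 F 1 v (pol a) (X * h q) hg (pol_monic a) (pol_natDegree a) ?_ ?_ hPd1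
        · intro j
          have e1 : (pol a).coeff j - (X * h q).coeff j =
              ((pol a).coeff j - (P q).coeff j) + ((P q).coeff j - (X * h q).coeff j) := by ring
          rw [e1]
          refine Ideal.add_mem _ (hc j) ?_
          rw [hv]
          exact hq14 j
        · have e1 : rv v (X * h q) = X * rv v (h q) := by
            rw [rv, rv, Polynomial.map_mul, Polynomial.map_X]
          rw [e1]
          have e2 : Irreducible (rv v (h q)) := by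
            have e3 : Irreducible (rd v.asIdeal (h q)) := by
              rw [hv]
              exact hq10
            exact e3
          refine sep_X_mul e2 ?_
          rw [rv, hq8.natDegree_map, hq9]
          omega
      · refine h5 F 1 v (pol a) (P q) hg (pol_monic a) (pol_natDegree a) hc ?_ hPd1
        exact sep_of_irr (hq15 v.asIdeal v.isPrime hd hv)
    have hPQ : ((W * Q : ℕ) : 𝓞 F) ∉ v.asIdeal := by
      intro hd
      rw [Nat.cast_mul] at hd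
      rcases v.isPrime.mem_or_mem hd with hd | hd
      · exact hPW hd
      · rw [hQ, Nat.cast_prod] at hd
        obtain ⟨q, hq, hqm⟩ := (Ideal.IsPrime.prod_mem_iff (hp := v.isPrime)).1 hd
        exact hPS q hq hqm
    have hsmall : ∀ n : ℕ, 0 < n → (n : 𝓞 F) ∈ v.asIdeal →
        (∀ p : ℕ, p.Prime → p ∣ n → p ≤ max p₀ (max M (2 * 1 + 1))) → False := by
      intro n hn hm hle
      obtain ⟨p, hp1, hp2, hp3⟩ := prime_factor v.asIdeal v.isPrime n hn hm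
      have e1 := hW p hp1 (hle p hp1 hp2)
      apply hPW
      obtain ⟨m, hm⟩ := e1
      rw [hm, Nat.cast_mul]
      exact Ideal.mul_mem_right _ _ hp3
    have hfac : ((2 * 1 + 1).factorial : 𝓞 F) ∉ v.asIdeal := by
      intro hd
      refine hsmall _ (Nat.factorial_pos _) hd fun p hp hpd => ?_
      exact ((hp.dvd_factorial).1 hpd).trans ((le_max_right _ _).trans (le_max_right _ _))
    have hPM1 : M < nv v := by
      by_contra hc
      have hnv2 : 2 ≤ nv v := (h7 F).2.2 v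
      refine hsmall (nv v) (by omega) (Ideal.absNorm_mem v.asIdeal) fun p hp hpd => ?_
      have e1 := Nat.le_of_dvd (by omega) hpd
      exact (e1.trans (not_lt.1 hc)).trans ((le_max_left _ _).trans (le_max_right _ _))
    have hBP : B ^ dg F ≤ nv v ^ 2 := by
      by_contra hc
      exact ha (Or.inl ⟨haU, v, hPM1, not_le.1 hc, hPQ, hPd'⟩)
    refine ⟨hBP, h3 F 1 v hg hfac a hPd' fun hD => ?_⟩
    exact ha (Or.inr ⟨haB, v, hBP, hPd1, hD⟩)
  -- finiteness of the family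
  have hFf : {f : (𝓞 F)[X] | Fam 1 B W f₁ S P f ∧
      ∀ σ : F →+* ℝ, 0 ≤ σ (f.coeff 1 : F)}.Finite := by
    refine (hBz.image pol).subset ?_
    intro f hf
    exact ⟨fun j => f.coeff j, bz_coeff hf.1.ht, (eq_pol hf.1.ht).symm⟩
  -- counting
  have c1 : (U \ (U1 ∪ U2)).ncard ≤ {f : (𝓞 F)[X] | Fam 1 B W f₁ S P f ∧
      ∀ σ : F →+* ℝ, 0 ≤ σ (f.coeff 1 : F)}.ncard := by
    rw [← Set.ncard_image_of_injective _ pol_inj]
    exact Set.ncard_le_ncard key hFf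
  have c2 : U.ncard ≤ (U \ (U1 ∪ U2)).ncard + (U1.ncard + U2.ncard) := by
    have e1 := Set.ncard_le_ncard_diff_add_ncard U (U1 ∪ U2) (hU1f.union hU2f)
    have e2 := Set.ncard_union_le U1 U2
    omega
  have c3' : 4 * U1.ncard ≤ U.ncard := by
    have hpos : 0 < (W * Q) ^ (2 * 1 * dg F) := by positivity
    have d1 : (Bx 1 B (W * Q) A).ncard * (W * Q) ^ (2 * 1 * dg F) ≤
        (C₁ * C₃ * U.ncard) * (W * Q) ^ (2 * 1 * dg F) := by
      calc (Bx 1 B (W * Q) A).ncard * (W * Q) ^ (2 * 1 * dg F) ≤ C₃ * B ^ (dg F * dd 1) := hup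
        _ ≤ C₃ * (C₁ * U.ncard * (W * Q) ^ (2 * 1 * dg F)) := Nat.mul_le_mul_left _ hcard
        _ = _ := by ring
    have d2 : (Bx 1 B (W * Q) A).ncard ≤ C₁ * C₃ * U.ncard := Nat.le_of_mul_le_mul_right d1 hpos
    have d3 : (C₁ * C₃) * (4 * U1.ncard) ≤ (C₁ * C₃) * U.ncard := by
      calc (C₁ * C₃) * (4 * U1.ncard) = 4 * (C₁ * C₃) * U1.ncard := by ring
        _ ≤ (Bx 1 B (W * Q) A).ncard := hsml
        _ ≤ _ := d2
    exact Nat.le_of_mul_le_mul_left d3 (by positivity)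
  have c3 : (4 : ℝ) * U1.ncard ≤ U.ncard := by exact_mod_cast c3'
  have hC0 : (0 : ℝ) < C₁ := by exact_mod_cast hC₁
  have c4 : (B : ℝ) ^ (dg F * dd 1) ≤
      C₁ * U.ncard * ((W * Q : ℕ) : ℝ) ^ (2 * 1 * dg F) := by exact_mod_cast hcard
  have hP0 : (0 : ℝ) < ((W * Q : ℕ) : ℝ) ^ (2 * 1 * dg F) := by positivity
  have c5 : (4 : ℝ) * U2.ncard ≤ U.ncard := by
    have e1 : (U2.ncard : ℝ) ≤ 1 / (4 * C₁ * ((W * Q : ℕ) : ℝ) ^ (2 * 1 * dg F)) *
        (C₁ * U.ncard * ((W * Q : ℕ) : ℝ) ^ (2 * 1 * dg F)) :=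
      hstr.trans (mul_le_mul_of_nonneg_left c4 (by positivity))
    have e2 : 1 / (4 * C₁ * ((W * Q : ℕ) : ℝ) ^ (2 * 1 * dg F)) *
        (C₁ * U.ncard * ((W * Q : ℕ) : ℝ) ^ (2 * 1 * dg F)) = U.ncard / 4 := by
      field_simp
    rw [e2] at e1
    linarith
  have c6 : (U.ncard : ℝ) ≤ 2 * ({f : (𝓞 F)[X] | Fam 1 B W f₁ S P f ∧
          ∀ σ : F →+* ℝ, 0 ≤ σ (f.coeff 1 : F)}.ncard : ℝ) := by
    have e1 : (U.ncard : ℝ) ≤ ((U \ (U1 ∪ U2)).ncard : ℝ) + (U1.ncard + U2.ncard) := by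
      exact_mod_cast c2
    have e2 : ((U \ (U1 ∪ U2)).ncard : ℝ) ≤
        ({f : (𝓞 F)[X] | Fam 1 B W f₁ S P f ∧
          ∀ σ : F →+* ℝ, 0 ≤ σ (f.coeff 1 : F)}.ncard : ℝ) := by
      exact_mod_cast c1
    linarith
  have c7 : (((∏ q ∈ S, q ^ (2 * 1)) ^ Module.finrank ℚ F : ℕ) : ℝ) =
      (Q : ℝ) ^ (2 * 1 * dg F) := by
    rw [hQ, Finset.prod_pow]
    push_cast
    rw [← pow_mul]
  rw [c7]
  have hW1 : (0 : ℝ) < (W : ℝ) ^ (2 * 1 * dg F) := by positivity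
  have c8 : (B : ℝ) ^ (dg F * dd 1) ≤
      C₁ * (2 * ({f : (𝓞 F)[X] | Fam 1 B W f₁ S P f ∧
          ∀ σ : F →+* ℝ, 0 ≤ σ (f.coeff 1 : F)}.ncard : ℝ)) *
      ((W * Q : ℕ) : ℝ) ^ (2 * 1 * dg F) :=
    c4.trans (mul_le_mul_of_nonneg_right (mul_le_mul_of_nonneg_left c6 hC0.le) hP0.le)
  rw [one_div_mul_eq_div, div_le_iff₀ (by positivity)]
  refine c8.trans (le_of_eq ?_)
  push_cast
  rw [mul_pow]
  ring


end fam

end Pool.Agent.V7H54
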