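import Pool.Agent.V7H54.MainK
import Pool.Agent.V7H54.F5
import Pool.Agent.N814.JM.Cpl

/-!
# The descent property at the primes over two
-/

set_option autoImplicit false
set_option linter.all false

open Polynomial IsDedekindDomain NumberField WithZero

namespace Pool.Agent.V7H54.V3

open Pool.Agent.N783.PQ (LocIm)
open Pool.Agent.N704.PP (vx near near_one)
open Pool.Agent.N783.PF

section ev

variable {E : Type} [Field E] {Γ : Type} [LinearOrderedCommGroupWithZero Γ] {v : Valuation E Γ}

theorem eval_sub_le {p : E[X]} (hp : ∀ i, v (p.coeff i) ≤ 1) {t a : E} (ht : v t ≤ 1)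
    (ha : v a ≤ 1) : v (p.eval t - p.eval a) ≤ v (t - a) := by
  obtain ⟨q, rfl⟩ := lift_pol v hp
  obtain ⟨c, hc⟩ := sub_dvd_eval_sub (⟨t, ht⟩ : v.valuationSubring) ⟨a, ha⟩ q
  have h1 := congrArg v.valuationSubring.subtype hc
  rw [map_mul, map_sub, map_sub, ← Polynomial.eval_map_apply, ← Polynomial.eval_map_apply] at h1
  change (q.map v.valuationSubring.subtype).eval t - (q.map v.valuationSubring.subtype).eval a =
    (t - a) * (c : E) at h1
  rw [h1, map_mul]
  calc v (t - a) * v (c : E) ≤ v (t - a) * 1 := mul_le_mul' le_rfl c.2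
    _ = v (t - a) := mul_one _

end ev

section compl

variable {R F : Type} [CommRing R] [IsDedekindDomain R] [Field F] [Algebra R F]
  [IsFractionRing R F] (w : HeightOneSpectrum R)

/-- Integral elements of the completion are congruent to integral elements. -/
theorem res_int (x : w.adicCompletion F) (hx : Valued.v (R := w.adicCompletion F) x ≤ 1) :
    ∃ c : R, Valued.v (R := w.adicCompletion F)
      (x - algebraMap F (w.adicCompletion F) (algebraMap R F c)) < 1 := by
  obtain ⟨x0, hx0⟩ := near_one w x
  have h1 : w.valuation F x0 ≤ 1 := by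
    rw [← vx]
    have e : algebraMap F (w.adicCompletion F) x0 =
        x - (x - algebraMap F (w.adicCompletion F) x0) := by ring
    rw [e]
    exact (Valuation.map_sub _ _ _).trans (max_le hx hx0.le)
  obtain ⟨c, hc⟩ := w.exists_valuation_sub_lt_of_integer h1 1
  refine ⟨c, ?_⟩
  have e : x - algebraMap F (w.adicCompletion F) (algebraMap R F c) =
      (x - algebraMap F (w.adicCompletion F) x0) -
      algebraMap F (w.adicCompletion F) (algebraMap R F c - x0) := by
    rw [map_sub]
    ring
  rw [e]
  refine lt_of_le_of_lt (Valuation.map_sub _ _ _) (max_lt hx0 ?_)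
  rw [vx]
  exact hc

theorem v_int (c : R) : Valued.v (R := w.adicCompletion F)
    (algebraMap F (w.adicCompletion F) (algebraMap R F c)) ≤ 1 := by
  rw [vx]
  exact HeightOneSpectrum.valuation_le_one w c

theorem v_lt (c : R) : Valued.v (R := w.adicCompletion F)
    (algebraMap F (w.adicCompletion F) (algebraMap R F c)) < 1 ↔ c ∈ w.asIdeal := by
  rw [vx]
  exact HeightOneSpectrum.valuation_lt_one_iff_mem w c

theorem v_one {c : R} (hc : c ∉ w.asIdeal) : Valued.v (R := w.adicCompletion F)
    (algebraMap F (w.adicCompletion F) (algebraMap R F c)) = 1 :=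
  le_antisymm (v_int w c) (not_lt.1 fun h => hc ((v_lt w c).1 h))

/-- Cubic polynomials without zeros modulo `w`. -/
theorem cub_compl {f : R[X]} (hm : f.Monic) (hd : f.natDegree = 3)
    (hnr : ∀ a : R, f.eval a ∉ w.asIdeal) :
    Cub (Valued.v (R := w.adicCompletion F))
      ((f.map (algebraMap R F)).map (algebraMap F (w.adicCompletion F))) where
  mon := (hm.map _).map _
  deg := by rw [(hm.map _).natDegree_map, hm.natDegree_map, hd]
  int i := by
    rw [coeff_map, coeff_map]
    exact v_int w _
  nr t ht := by
    obtain ⟨a, ha⟩ := res_int w t ht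
    have h1 := eval_sub_le (v := Valued.v (R := w.adicCompletion F))
      (p := (f.map (algebraMap R F)).map (algebraMap F (w.adicCompletion F))) (fun i => by
        rw [coeff_map, coeff_map]
        exact v_int w _) ht (v_int w a)
    have h2 : ((f.map (algebraMap R F)).map (algebraMap F (w.adicCompletion F))).eval
        (algebraMap F (w.adicCompletion F) (algebraMap R F a)) =
        algebraMap F (w.adicCompletion F) (algebraMap R F (f.eval a)) := by
      rw [Polynomial.eval_map_apply, Polynomial.eval_map_apply]
    rw [h2] at h1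
    have h3 := v_one w (F := F) (hnr a)
    have e : ((f.map (algebraMap R F)).map (algebraMap F (w.adicCompletion F))).eval t =
        algebraMap F (w.adicCompletion F) (algebraMap R F (f.eval a)) +
        (((f.map (algebraMap R F)).map (algebraMap F (w.adicCompletion F))).eval t -
        algebraMap F (w.adicCompletion F) (algebraMap R F (f.eval a))) := by ring
    rw [e, Valuation.map_add_eq_of_lt_left, h3]
    rw [h3]
    exact lt_of_le_of_lt h1 ha

theorem fin_res [Finite (R ⧸ w.asIdeal)] :
    Finite (IsLocalRing.ResidueField (Valued.v (R := w.adicCompletion F)).valuationSubring) := by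
  let φ : R →+* (Valued.v (R := w.adicCompletion F)).valuationSubring :=
    { toFun := fun c => ⟨algebraMap F (w.adicCompletion F) (algebraMap R F c), v_int w c⟩
      map_one' := by
        refine Subtype.ext ?_
        change algebraMap F (w.adicCompletion F) (algebraMap R F 1) = 1
        rw [map_one, map_one]
      map_mul' := fun a b => by
        refine Subtype.ext ?_
        change algebraMap F (w.adicCompletion F) (algebraMap R F (a * b)) =
          algebraMap F (w.adicCompletion F) (algebraMap R F a) *
          algebraMap F (w.adicCompletion F) (algebraMap R F b)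
        rw [map_mul, map_mul]
      map_zero' := by
        refine Subtype.ext ?_
        change algebraMap F (w.adicCompletion F) (algebraMap R F 0) = 0
        rw [map_zero, map_zero]
      map_add' := fun a b => by
        refine Subtype.ext ?_
        change algebraMap F (w.adicCompletion F) (algebraMap R F (a + b)) =
          algebraMap F (w.adicCompletion F) (algebraMap R F a) +
          algebraMap F (w.adicCompletion F) (algebraMap R F b)
        rw [map_add, map_add] }
  let ψ : R →+* IsLocalRing.ResidueField (Valued.v (R := w.adicCompletion F)).valuationSubring :=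
    (IsLocalRing.residue _).comp φ
  have hψ : ∀ a ∈ w.asIdeal, ψ a = 0 := by
    intro a ha
    exact (red_zero _ _).2 ((v_lt w a).2 ha)
  let χ := Ideal.Quotient.lift w.asIdeal ψ hψ
  refine Finite.of_surjective χ ?_
  intro y
  obtain ⟨x, rfl⟩ := IsLocalRing.residue_surjective y
  obtain ⟨c, hc⟩ := res_int w (x : w.adicCompletion F) x.2
  refine ⟨Ideal.Quotient.mk _ c, ?_⟩
  change ψ c = _
  rw [← sub_eq_zero]
  change IsLocalRing.residue _ (φ c) - IsLocalRing.residue _ x = 0
  rw [← map_sub, red_zero]
  have e : ((φ c - x : (Valued.v (R := w.adicCompletion F)).valuationSubring) : w.adicCompletion F) =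
      -((x : w.adicCompletion F) - algebraMap F (w.adicCompletion F) (algebraMap R F c)) := by
    change algebraMap F (w.adicCompletion F) (algebraMap R F c) - (x : w.adicCompletion F) = _
    ring
  rw [e, Valuation.map_neg]
  exact hc

end compl

section norm

/-- Norms and completions. -/
theorem norm_loc {F L E : Type} [Field F] [Field L] [Algebra F L] [Field E] [Algebra F E]
    {m : ℕ} {f : F[X]} (hm : f.Monic) (hd : f.natDegree = m) {θ : L} (b : Module.Basis (Fin m) F L)
    (hb : ∀ i, b i = θ ^ (i : ℕ)) (hθ : aeval θ f = 0)
    [Fact (Irreducible (f.map (algebraMap F E)))] (h : F[X]) :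
    Algebra.norm E (AdjoinRoot.mk (f.map (algebraMap F E)) (h.map (algebraMap F E))) =
      algebraMap F E (Algebra.norm F (aeval θ h)) := by
  let pb : PowerBasis F L := { gen := θ, dim := m, basis := b, basis_eq_pow := hb }
  have hint : IsIntegral F pb.gen := pb.isIntegral_gen
  have hmin : minpoly F pb.gen = f := by
    refine (Polynomial.eq_of_monic_of_dvd_of_natDegree_le (minpoly.monic hint) hm
      (minpoly.dvd F _ hθ) ?_).symm
    rw [pb.natDegree_minpoly, hd]
  have hroot : aeval (AdjoinRoot.root (f.map (algebraMap F E))) (minpoly F pb.gen) = 0 := by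
    rw [hmin, ← aeval_map_algebraMap E, AdjoinRoot.aeval_eq, AdjoinRoot.mk_self]
  let φ : L →ₐ[F] AdjoinRoot (f.map (algebraMap F E)) := pb.lift _ hroot
  have hφ : φ θ = AdjoinRoot.root (f.map (algebraMap F E)) := pb.lift_gen _ hroot
  have hφh : φ (aeval θ h) =
      AdjoinRoot.mk (f.map (algebraMap F E)) (h.map (algebraMap F E)) := by
    rw [← aeval_algHom_apply, hφ, ← aeval_map_algebraMap E, AdjoinRoot.aeval_eq]
  rw [← hφh]
  -- bases
  have hmE : (f.map (algebraMap F E)).Monic := hm.map _
  have hdE : (f.map (algebraMap F E)).natDegree = m := by rw [hm.natDegree_map, hd]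
  let b' : Module.Basis (Fin m) E (AdjoinRoot (f.map (algebraMap F E))) :=
    (AdjoinRoot.powerBasis hmE.ne_zero).basis.reindex (finCongr (by
      rw [AdjoinRoot.powerBasis_dim, hdE]))
  have hb' : ∀ i, b' i = φ (b i) := by
    intro i
    rw [hb, map_pow, hφ]
    change ((AdjoinRoot.powerBasis hmE.ne_zero).basis.reindex _) i = _
    rw [Module.Basis.reindex_apply, PowerBasis.basis_eq_pow]
    rfl
  rw [Algebra.norm_eq_matrix_det b', Algebra.norm_eq_matrix_det b, RingHom.map_det]
  congr 1
  ext i j
  rw [Algebra.leftMulMatrix_eq_repr_mul, RingHom.mapMatrix_apply, Matrix.map_apply,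
    Algebra.leftMulMatrix_eq_repr_mul]
  have h1 : φ (aeval θ h) * b' j =
      ∑ k, (algebraMap F E (b.repr (aeval θ h * b j) k)) • b' k := by
    rw [hb', ← map_mul]
    conv_lhs => rw [← b.sum_repr (aeval θ h * b j)]
    rw [map_sum]
    refine Finset.sum_congr rfl fun k _ => ?_
    rw [map_smul, hb', algebraMap_smul]
  rw [h1, map_sum, Finsupp.finset_sum_apply]
  simp only [map_smul, Module.Basis.repr_self, Finsupp.smul_single, smul_eq_mul, mul_one]
  rw [Finset.sum_eq_single i]
  · rw [Finsupp.single_eq_same]
  · intro k _ hk
    rw [Finsupp.single_eq_of_ne]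
    exact fun h => hk h.symm
  · intro h
    exact absurd (Finset.mem_univ _) h

end norm

end Pool.Agent.V7H54.V3
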