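import Pool.Agent.V7H54.Sel

/-!
# Ramification
-/

set_option autoImplicit false
set_option linter.all false

open Polynomial IsDedekindDomain NumberField
open scoped Classical

namespace Pool.Agent.V7H54

open Pool.Agent.N874.PP (Ev Sq1 U0)
open Pool.Agent.N874.PM (Lies)
open Pool.Agent.N783.PF (IsGen fF Ov)

section

variable (F K : Type) [Field F] [NumberField F] [Field K] [NumberField K] [Algebra F K]

/-- The prime `w` of `F` is unramified in `K`. -/
def Unr (w : HeightOneSpectrum (𝓞 F)) : Prop :=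
  ∀ 𝔔 : Ideal (𝓞 K), 𝔔.IsPrime → ¬ w.asIdeal.map (algebraMap (𝓞 F) (𝓞 K)) ≤ 𝔔 ^ 2

variable {F K}

/-- `w'` lies over `w`. -/
def Over (w : HeightOneSpectrum (𝓞 F)) (w' : HeightOneSpectrum (𝓞 K)) : Prop :=
  ∀ a : 𝓞 F, a ∈ w.asIdeal ↔ algebraMap (𝓞 F) (𝓞 K) a ∈ w'.asIdeal

theorem exists_over (w' : HeightOneSpectrum (𝓞 K)) : ∃ w : HeightOneSpectrum (𝓞 F), Over w w' := by
  obtain ⟨w, -, h, -⟩ := Pool.Agent.N459.PF.lie F K w'
  exact ⟨w, h⟩

theorem Over.eq {w w₁ : HeightOneSpectrum (𝓞 F)} {w' : HeightOneSpectrum (𝓞 K)} (h : Over w w')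
    (h' : Over w₁ w') : w = w₁ := by
  ext a
  rw [h, h']

theorem Over.liesOver {w : HeightOneSpectrum (𝓞 F)} {w' : HeightOneSpectrum (𝓞 K)}
    (h : Over w w') : w'.asIdeal.LiesOver w.asIdeal := by
  constructor
  ext a
  exact h a

theorem Over.val_pow {w : HeightOneSpectrum (𝓞 F)} {w' : HeightOneSpectrum (𝓞 K)}
    (h : Over w w') : ∃ e : ℕ, 1 ≤ e ∧
      ∀ x : F, w'.valuation K (algebraMap F K x) = w.valuation F x ^ e := by
  haveI := h.liesOver
  refine ⟨w.asIdeal.ramificationIdx' w'.asIdeal, ?_, fun x => ?_⟩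
  · exact Nat.one_le_iff_ne_zero.2
      (Ideal.IsDedekindDomain.ramificationIdx'_ne_zero_of_liesOver w'.asIdeal w.ne_bot)
  · exact (HeightOneSpectrum.valuation_liesOver K w w' x).symm

theorem Over.lies {w : HeightOneSpectrum (𝓞 F)} {w' : HeightOneSpectrum (𝓞 K)}
    (h : Over w w') : Lies (M := F) (Ω := K) w w' := by
  obtain ⟨e, he, hv⟩ := h.val_pow
  refine ⟨fun x hx => ?_, fun x hx => ?_⟩
  · rw [hv]
    exact pow_le_one' hx e
  · rw [hv]
    exact pow_lt_one' hx (by omega)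

/-- existence of primes above -/
theorem exists_above (w : HeightOneSpectrum (𝓞 F)) : ∃ w' : HeightOneSpectrum (𝓞 K), Over w w' := by
  haveI := w.isMaximal
  obtain ⟨Q, hQ, hQw⟩ := Ideal.exists_ideal_over_maximal_of_isIntegral (S := 𝓞 K) w.asIdeal (by
    rw [(RingHom.injective_iff_ker_eq_bot _).1
      (FaithfulSMul.algebraMap_injective (𝓞 F) (𝓞 K))]
    exact bot_le)
  refine ⟨⟨Q, hQ.isPrime, ?_⟩, ?_⟩
  · rintro rfl
    apply w.ne_bot
    rw [← hQw, ← RingHom.ker_eq_comap_bot, (RingHom.injective_iff_ker_eq_bot _).1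
      (FaithfulSMul.algebraMap_injective (𝓞 F) (𝓞 K))]
  · intro a
    change a ∈ w.asIdeal ↔ algebraMap (𝓞 F) (𝓞 K) a ∈ Q
    rw [← hQw, Ideal.mem_comap]

theorem Over.val_eq {w : HeightOneSpectrum (𝓞 F)} {w' : HeightOneSpectrum (𝓞 K)}
    (h : Over w w') (hu : ¬ w.asIdeal.map (algebraMap (𝓞 F) (𝓞 K)) ≤ w'.asIdeal ^ 2) (x : F) :
    w'.valuation K (algebraMap F K x) = w.valuation F x := by
  obtain ⟨e, he, hv⟩ := h.val_pow
  rcases Nat.lt_or_ge 1 e with h1 | h1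
  · exfalso
    apply hu
    rw [Ideal.map_le_iff_le_comap]
    intro a ha
    rw [Ideal.mem_comap, ← HeightOneSpectrum.intValuation_le_pow_iff_mem,
      ← HeightOneSpectrum.valuation_of_algebraMap (K := K)]
    change w'.valuation K (algebraMap (𝓞 K) K (algebraMap (𝓞 F) (𝓞 K) a)) ≤ _
    rw [← IsScalarTower.algebraMap_apply (𝓞 F) (𝓞 K) K, IsScalarTower.algebraMap_apply (𝓞 F) F K,
      hv]
    have h2 : w.valuation F (algebraMap (𝓞 F) F a) ≤ WithZero.exp (-((1 : ℕ) : ℤ)) := by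
      rw [HeightOneSpectrum.valuation_of_algebraMap, HeightOneSpectrum.intValuation_le_pow_iff_mem,
        pow_one]
      exact ha
    have h3 : w.valuation F (algebraMap (𝓞 F) F a) ≤ 1 := HeightOneSpectrum.valuation_le_one w a
    calc w.valuation F (algebraMap (𝓞 F) F a) ^ e ≤ w.valuation F (algebraMap (𝓞 F) F a) ^ 2 :=
          pow_le_pow_right_of_le_one' h3 h1
      _ ≤ WithZero.exp (-((1 : ℕ) : ℤ)) ^ 2 := pow_le_pow_left' h2 2
      _ = WithZero.exp (-((2 : ℕ) : ℤ)) := by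
        rw [← WithZero.exp_nsmul]
        norm_num
  · have : e = 1 := by omega
    rw [hv, this, pow_one]

theorem Unr.val_eq {w : HeightOneSpectrum (𝓞 F)} (hu : Unr F K w) {w' : HeightOneSpectrum (𝓞 K)}
    (h : Over w w') (x : F) : w'.valuation K (algebraMap F K x) = w.valuation F x :=
  h.val_eq (hu _ w'.isPrime) x

end

/-- The prime `𝔓'` of `Ω = K(Θ)` at which `f'(Θ)` is a unit is unramified over `K`. -/
theorem val_eq_of_der {K Ω : Type} [Field K] [NumberField K] [Field Ω] [NumberField Ω]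
    [Algebra K Ω] {f : (𝓞 K)[X]} (hm : f.Monic) (hf : Irreducible (fF f)) {Θ : Ω}
    (hr : aeval Θ (fF f) = 0) (htop : IntermediateField.adjoin K {Θ} = ⊤)
    {w : HeightOneSpectrum (𝓞 K)} {𝔓 : HeightOneSpectrum (𝓞 Ω)} (h : Over w 𝔓)
    (hd : 𝔓.valuation Ω (aeval Θ (derivative (fF f))) = 1) (x : K) :
    𝔓.valuation Ω (algebraMap K Ω x) = w.valuation K x := by
  refine h.val_eq ?_ x
  intro hle
  have hint : IsIntegral (𝓞 K) Θ := by
    refine ⟨f, hm, ?_⟩
    rw [fF, aeval_map_algebraMap] at hr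
    exact hr
  obtain ⟨Θ', hΘ'⟩ : ∃ Θ' : 𝓞 Ω, algebraMap (𝓞 Ω) Ω Θ' = Θ :=
    ⟨⟨Θ, isIntegral_trans (R := ℤ) (A := 𝓞 K) Θ hint⟩, rfl⟩
  haveI : FiniteDimensional K Ω := inferInstance
  have hmin : minpoly K Θ = fF f :=
    (minpoly.eq_of_irreducible_of_monic hf hr (hm.map _)).symm
  have hint' : IsIntegral (𝓞 K) Θ' := Algebra.IsIntegral.isIntegral Θ'
  have hmin' : minpoly (𝓞 K) Θ' = f := by
    have h1 := minpoly.isIntegrallyClosed_eq_field_fractions K Ω hint'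
    rw [hΘ', hmin] at h1
    exact (Polynomial.map_injective _ (FaithfulSMul.algebraMap_injective (𝓞 K) K) h1).symm
  have h2 := aeval_derivative_mem_differentIdeal (𝓞 K) K Ω Θ' (by
    rw [hΘ', ← IntermediateField.adjoin_simple_toSubalgebra_of_isAlgebraic
      (Algebra.IsAlgebraic.isAlgebraic Θ), htop, IntermediateField.top_toSubalgebra])
  have h3 : 𝔓.asIdeal ∣ differentIdeal (𝓞 K) (𝓞 Ω) := by
    haveI := w.isMaximal
    have := pow_sub_one_dvd_differentIdeal (𝓞 K) (p := w.asIdeal) 𝔓.asIdeal 2 w.ne_bot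
      (Ideal.dvd_iff_le.2 hle)
    simpa using this
  have h4 : aeval Θ' (derivative f) ∈ 𝔓.asIdeal := by
    rw [hmin'] at h2
    exact (Ideal.dvd_iff_le.1 h3) h2
  have h5 : 𝔓.valuation Ω (algebraMap (𝓞 Ω) Ω (aeval Θ' (derivative f))) < 1 :=
    (HeightOneSpectrum.valuation_lt_one_iff_mem (K := Ω) 𝔓 _).2 h4
  have h6 : algebraMap (𝓞 Ω) Ω (aeval Θ' (derivative f)) = aeval Θ (derivative (fF f)) := by
    rw [← aeval_algebraMap_apply, fF, derivative_map, aeval_map_algebraMap, hΘ']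
  rw [h6, hd] at h5
  exact lt_irrefl _ h5

end Pool.Agent.V7H54
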