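import Pool.Agent.V7H54.Ram

/-!
# Ramification: the compositum
-/

set_option autoImplicit false
set_option linter.all false

open Polynomial IsDedekindDomain NumberField
open scoped Classical

namespace Pool.Agent.V7H54

open Pool.Agent.N874.PP (Ev Sq1 U0)
open Pool.Agent.N874.PM (Lies)
open Pool.Agent.N783.PF (IsGen fF Ov)

/-- The valuation of `Ω` extends that of `L` if it extends that of `F`. -/
theorem val_desc {F L Ω : Type} [Field F] [NumberField F] [Field L] [NumberField L] [Field Ω]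
    [NumberField Ω] [Algebra F L] [Algebra L Ω] [Algebra F Ω] [IsScalarTower F L Ω]
    {w : HeightOneSpectrum (𝓞 F)} {𝔓 : HeightOneSpectrum (𝓞 L)} {𝔓' : HeightOneSpectrum (𝓞 Ω)}
    (h1 : ∀ x : F, 𝔓'.valuation Ω (algebraMap F Ω x) = w.valuation F x)
    (h2 : Over w 𝔓) (h3 : Over 𝔓 𝔓') (x : L) :
    𝔓'.valuation Ω (algebraMap L Ω x) = 𝔓.valuation L x := by
  obtain ⟨e, he, hv⟩ := h3.val_pow
  obtain ⟨e', he', hv'⟩ := h2.val_pow
  obtain ⟨π, hπ⟩ := w.valuation_exists_uniformizer F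
  have h4 := h1 π
  rw [IsScalarTower.algebraMap_apply F L Ω, hv, hv', hπ, ← pow_mul, ← WithZero.exp_nsmul] at h4
  have h5 : (e' * e) • (-1 : ℤ) = -1 := WithZero.exp_injective h4
  have h6 : e' * e = 1 := by
    rw [nsmul_eq_mul] at h5
    have : ((e' * e : ℕ) : ℤ) = 1 := by linarith
    exact_mod_cast this
  have h7 : e = 1 := Nat.eq_one_of_mul_eq_one_left h6
  rw [hv, h7, pow_one]

/-- The elements of `L` are dense in `Ω` if the residue fields coincide. -/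
theorem dens {L Ω : Type} [Field L] [NumberField L] [Field Ω] [NumberField Ω] [Algebra L Ω]
    {𝔓 : HeightOneSpectrum (𝓞 L)} {𝔓' : HeightOneSpectrum (𝓞 Ω)}
    (hv : ∀ x : L, 𝔓'.valuation Ω (algebraMap L Ω x) = 𝔓.valuation L x) (ho : Over 𝔓 𝔓')
    (hc : Nat.card (𝓞 Ω ⧸ 𝔓'.asIdeal) = Nat.card (𝓞 L ⧸ 𝔓.asIdeal)) (s : Ω) (hs : s ≠ 0) :
    ∃ s₀ : L, 𝔓'.valuation Ω (s - algebraMap L Ω s₀) < 𝔓'.valuation Ω s := by
  haveI : Finite (𝓞 L ⧸ 𝔓.asIdeal) := Ideal.finiteQuotientOfFreeOfNeBot _ 𝔓.ne_bot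
  haveI : Finite (𝓞 Ω ⧸ 𝔓'.asIdeal) := Ideal.finiteQuotientOfFreeOfNeBot _ 𝔓'.ne_bot
  haveI := ho.liesOver
  -- surjectivity of the residue map
  have hle : 𝔓.asIdeal ≤ 𝔓'.asIdeal.comap (algebraMap (𝓞 L) (𝓞 Ω)) := fun a ha =>
    Ideal.mem_comap.2 ((ho a).1 ha)
  have hinj : Function.Injective (Ideal.quotientMap 𝔓'.asIdeal (algebraMap (𝓞 L) (𝓞 Ω)) hle) := by
    apply Ideal.quotientMap_injective'
    intro a ha
    exact (ho a).2 (Ideal.mem_comap.1 ha)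
  have hsurj : Function.Surjective
      (Ideal.quotientMap 𝔓'.asIdeal (algebraMap (𝓞 L) (𝓞 Ω)) hle) :=
    (Nat.bijective_iff_injective_and_card _).2 ⟨hinj, hc.symm⟩ |>.2
  obtain ⟨y, hy⟩ := 𝔓.valuation_surjective L (𝔓'.valuation Ω s)
  have hs0 : 𝔓'.valuation Ω s ≠ 0 := (Valuation.ne_zero_iff _).2 hs
  have hy0 : y ≠ 0 := by
    rintro rfl
    rw [map_zero] at hy
    exact hs0 hy.symm
  have hy0' : algebraMap L Ω y ≠ 0 := by
    rw [Ne, map_eq_zero]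
    exact hy0
  have ht : 𝔓'.valuation Ω (s / algebraMap L Ω y) = 1 := by
    rw [map_div₀, hv, hy, div_self hs0]
  obtain ⟨a, ha⟩ := 𝔓'.exists_valuation_sub_lt_of_integer ht.le 1
  obtain ⟨b, hb⟩ := hsurj (Ideal.Quotient.mk _ a)
  obtain ⟨c, rfl⟩ := Ideal.Quotient.mk_surjective b
  rw [Ideal.quotientMap_mk, Ideal.Quotient.eq] at hb
  have hb' : 𝔓'.valuation Ω (algebraMap (𝓞 Ω) Ω (algebraMap (𝓞 L) (𝓞 Ω) c - a)) < 1 :=
    (HeightOneSpectrum.valuation_lt_one_iff_mem _ _).2 hb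
  refine ⟨(algebraMap (𝓞 L) L c) * y, ?_⟩
  have e1 : algebraMap L Ω (algebraMap (𝓞 L) L c) = algebraMap (𝓞 Ω) Ω (algebraMap (𝓞 L) (𝓞 Ω) c) := by
    rw [← IsScalarTower.algebraMap_apply (𝓞 L) L Ω, ← IsScalarTower.algebraMap_apply (𝓞 L) (𝓞 Ω) Ω]
  have e2 : s - algebraMap L Ω (algebraMap (𝓞 L) L c * y) =
      -((algebraMap (𝓞 Ω) Ω (algebraMap (𝓞 L) (𝓞 Ω) c - a)) +
        (algebraMap (𝓞 Ω) Ω a - s / algebraMap L Ω y)) * algebraMap L Ω y := by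
    rw [map_mul, e1, map_sub]
    field_simp
    ring
  rw [e2, map_mul, Valuation.map_neg]
  have h7 : 𝔓'.valuation Ω (algebraMap L Ω y) = 𝔓'.valuation Ω s := by rw [hv, hy]
  rw [h7]
  have hpos : 0 < 𝔓'.valuation Ω s := zero_lt_iff.2 hs0
  calc _ < 1 * 𝔓'.valuation Ω s := by
        refine mul_lt_mul_of_pos_right ?_ hpos
        exact lt_of_le_of_lt (Valuation.map_add _ _ _) (max_lt hb' ha)
    _ = _ := one_mul _

section down

variable {L Ω O O' : Type} [Field L] [Field Ω] [Algebra L Ω]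
  [CommRing O] [IsDedekindDomain O] [Algebra O L] [IsFractionRing O L]
  [CommRing O'] [IsDedekindDomain O'] [Algebra O' Ω] [IsFractionRing O' Ω]
  {𝔓 : HeightOneSpectrum O} {𝔓' : HeightOneSpectrum O'}

/-- (after helper922) -/
theorem ev_down (hv : ∀ x : L, 𝔓'.valuation Ω (algebraMap L Ω x) = 𝔓.valuation L x) (x : L) :
    Ev 𝔓' (algebraMap L Ω x) ↔ Ev 𝔓 x := by
  constructor
  · rintro ⟨y, hy⟩
    obtain ⟨z, hz⟩ := 𝔓.valuation_surjective L (𝔓'.valuation Ω y)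
    exact ⟨z, by rw [hz, ← hy, hv]⟩
  · rintro ⟨y, hy⟩
    exact ⟨algebraMap L Ω y, by rw [hv, hv, hy]⟩

theorem sq_up (hv : ∀ x : L, 𝔓'.valuation Ω (algebraMap L Ω x) = 𝔓.valuation L x)
    {x : L} (h : Sq1 𝔓 x) : Sq1 𝔓' (algebraMap L Ω x) := by
  obtain ⟨s, hs⟩ := h
  refine ⟨algebraMap L Ω s, ?_⟩
  rw [← map_pow, ← map_sub, hv, hv]
  exact hs

/-- (after helper922) -/
theorem sq_down (hv : ∀ x : L, 𝔓'.valuation Ω (algebraMap L Ω x) = 𝔓.valuation L x)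
    (hd : ∀ s : Ω, s ≠ 0 → ∃ s₀ : L, 𝔓'.valuation Ω (s - algebraMap L Ω s₀) < 𝔓'.valuation Ω s)
    {x : L} (h : Sq1 𝔓' (algebraMap L Ω x)) : Sq1 𝔓 x := by
  obtain ⟨s, hs⟩ := h
  have h1 : 𝔓'.valuation Ω (s ^ 2) = 𝔓'.valuation Ω (algebraMap L Ω x) := by
    have := Valuation.map_sub_eq_of_lt_left (𝔓'.valuation Ω) (x := algebraMap L Ω x)
      (y := algebraMap L Ω x - s ^ 2) hs
    rwa [sub_sub_cancel] at this
  have hx0 : 𝔓'.valuation Ω (algebraMap L Ω x) ≠ 0 := by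
    intro h0
    rw [h0] at hs
    exact absurd hs (by simp)
  have hs0 : s ≠ 0 := by
    rintro rfl
    rw [zero_pow two_ne_zero, map_zero] at h1
    exact hx0 h1.symm
  obtain ⟨s₀, hs₀⟩ := hd s hs0
  refine ⟨s₀, ?_⟩
  rw [← hv, ← hv, map_sub, map_pow]
  have e : algebraMap L Ω x - algebraMap L Ω s₀ ^ 2 = (algebraMap L Ω x - s ^ 2) +
      (s - algebraMap L Ω s₀) * (s + algebraMap L Ω s₀) := by ring
  rw [e]
  refine lt_of_le_of_lt (Valuation.map_add _ _ _) (max_lt hs ?_)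
  have h2 : 𝔓'.valuation Ω (s + algebraMap L Ω s₀) ≤ 𝔓'.valuation Ω s := by
    have e2 : s + algebraMap L Ω s₀ = s + s - (s - algebraMap L Ω s₀) := by ring
    rw [e2]
    refine (Valuation.map_sub _ _ _).trans (max_le ?_ hs₀.le)
    exact (Valuation.map_add _ _ _).trans (max_le le_rfl le_rfl)
  have hpos : 0 < 𝔓'.valuation Ω s := by
    rw [zero_lt_iff]
    exact (Valuation.ne_zero_iff _).2 hs0
  rw [map_mul, ← h1, map_pow, pow_two]
  calc _ ≤ 𝔓'.valuation Ω (s - algebraMap L Ω s₀) * 𝔓'.valuation Ω s := mul_le_mul' le_rfl h2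
    _ < 𝔓'.valuation Ω s * 𝔓'.valuation Ω s := mul_lt_mul_of_pos_right hs₀ hpos

theorem u0_down (hv : ∀ x : L, 𝔓'.valuation Ω (algebraMap L Ω x) = 𝔓.valuation L x)
    (hd : ∀ s : Ω, s ≠ 0 → ∃ s₀ : L, 𝔓'.valuation Ω (s - algebraMap L Ω s₀) < 𝔓'.valuation Ω s)
    {ϖ x : L} (h : U0 𝔓' (algebraMap L Ω ϖ) (algebraMap L Ω x)) : U0 𝔓 ϖ x := by
  refine ⟨fun he => ?_, fun he => ?_⟩
  · exact sq_down hv hd (h.1 ((ev_down hv x).2 he))
  · have h1 := h.2 (fun h2 => he ((ev_down hv x).1 h2))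
    rw [← map_mul] at h1
    exact sq_down hv hd h1

end down

/-- Residue fields: if the residue field of `w'` has `q` elements, that of `𝔓` has `q ^ (2 m)` and
`[Ω : K] = 3`, then the residue field of `𝔓'` is that of `𝔓`. -/
theorem card_eq {K L Ω : Type} [Field K] [NumberField K] [Field L] [NumberField L] [Field Ω]
    [NumberField Ω] [Algebra K Ω] [Algebra L Ω]
    {w' : HeightOneSpectrum (𝓞 K)} {𝔓 : HeightOneSpectrum (𝓞 L)} {𝔓' : HeightOneSpectrum (𝓞 Ω)}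
    (h1 : Over w' 𝔓') (h2 : Over 𝔓 𝔓') (h3 : Module.finrank K Ω = 3) {q m : ℕ} (hq : 1 < q)
    (hw : Nat.card (𝓞 K ⧸ w'.asIdeal) = q) (hP : Nat.card (𝓞 L ⧸ 𝔓.asIdeal) = q ^ (2 * m)) :
    Nat.card (𝓞 Ω ⧸ 𝔓'.asIdeal) = Nat.card (𝓞 L ⧸ 𝔓.asIdeal) := by
  haveI := h1.liesOver
  haveI := h2.liesOver
  haveI := w'.isMaximal
  have e1 : Ideal.absNorm 𝔓'.asIdeal = Ideal.absNorm w'.asIdeal ^ (w'.asIdeal.inertiaDeg' 𝔓'.asIdeal) :=
    Ideal.absNorm_eq_pow_inertiaDeg'_of_liesOver _ _ w'.isPrime w'.ne_bot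
  have e2 : Ideal.absNorm 𝔓'.asIdeal = Ideal.absNorm 𝔓.asIdeal ^ (𝔓.asIdeal.inertiaDeg' 𝔓'.asIdeal) :=
    Ideal.absNorm_eq_pow_inertiaDeg'_of_liesOver _ _ 𝔓.isPrime 𝔓.ne_bot
  have e3 : w'.asIdeal.inertiaDeg' 𝔓'.asIdeal ≤ 3 := by
    rw [← h3]
    haveI : NoZeroSMulDivisors (𝓞 K) (𝓞 Ω) := by
      constructor
      intro c x hcx
      rw [Algebra.smul_def, mul_eq_zero] at hcx
      rcases hcx with h | h
      · left
        exact (FaithfulSMul.algebraMap_injective (𝓞 K) (𝓞 Ω)) (by rw [h, map_zero])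
      · right
        exact h
    exact Ideal.inertiaDeg_le_finrank (S := 𝓞 Ω) (K := K) (L := Ω) 𝔓'.asIdeal w'.ne_bot
  have e4 : Ideal.absNorm w'.asIdeal = q := by
    rw [Ideal.absNorm_apply, Submodule.cardQuot_apply]
    exact hw
  have e5 : Ideal.absNorm 𝔓.asIdeal = q ^ (2 * m) := by
    rw [Ideal.absNorm_apply, Submodule.cardQuot_apply]
    exact hP
  have e6 : Ideal.absNorm 𝔓.asIdeal ≠ 1 := by
    rw [Ne, Ideal.absNorm_eq_one_iff]
    exact 𝔓.isPrime.ne_top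
  have e7 : Ideal.absNorm 𝔓'.asIdeal ≠ 1 := by
    rw [Ne, Ideal.absNorm_eq_one_iff]
    exact 𝔓'.isPrime.ne_top
  rw [e5] at e2 e6
  rw [e2, ← pow_mul, e4] at e1
  have e8 := Nat.pow_right_injective hq e1
  have e9 : 1 ≤ m := by
    rcases Nat.eq_zero_or_pos m with h | h
    · rw [h, mul_zero, pow_zero] at e6
      exact absurd rfl e6
    · exact h
  have e10 : 1 ≤ 𝔓.asIdeal.inertiaDeg' 𝔓'.asIdeal := by
    rcases Nat.eq_zero_or_pos (𝔓.asIdeal.inertiaDeg' 𝔓'.asIdeal) with h | h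
    · rw [h, pow_zero] at e2
      exact absurd e2 e7
    · exact h
  have e11 : 𝔓.asIdeal.inertiaDeg' 𝔓'.asIdeal = 1 := by
    nlinarith
  rw [e11, pow_one] at e2
  rw [Ideal.absNorm_apply, Submodule.cardQuot_apply] at e2
  rw [hP]
  exact e2

end Pool.Agent.V7H54
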