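import Pool.Agent.V7H54.Ram2

/-!
# The real places: a cubic with one real root
-/

set_option autoImplicit false
set_option linter.all false

open Polynomial IsDedekindDomain NumberField
open scoped Classical ComplexConjugate

namespace Pool.Agent.V7H54

open Pool.Agent.N783.PQ (LocIm)

/-- At a real place at which the cubic `f` has only one root, a class of square norm is a square. -/
theorem real_sq {F L : Type} [Field F] [NumberField F] [Field L] [NumberField L] [Algebra F L]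
    {f : F[X]} (hm : f.Monic) (hd : f.natDegree = 3) {θ : L} (hr : aeval θ f = 0)
    (hrk : Module.finrank F L = 3)
    (hgen : ∀ x : L, ∃ c : Fin 3 → F, x = ∑ i, algebraMap F L (c i) * θ ^ (i : ℕ)) (σ : F →+* ℝ)
    (hone : ∀ x y : ℝ, eval x (f.map σ) = 0 → eval y (f.map σ) = 0 → x = y) (h : F[X])
    (hne : aeval θ h ≠ 0) (hN : IsSquare (Algebra.norm F (aeval θ h))) :
    ∃ s : ℝ[X], f.map σ ∣ h.map σ - s ^ 2 := by
  letI : Algebra F ℝ := σ.toAlgebra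
  letI : Algebra F ℂ := ((algebraMap ℝ ℂ).comp σ).toAlgebra
  have hFC : ∀ a : F, algebraMap F ℂ a = ((σ a : ℝ) : ℂ) := fun a => rfl
  have hext : ∀ τ τ' : L →ₐ[F] ℂ, τ θ = τ' θ → τ = τ' := by
    intro τ τ' he
    ext x
    obtain ⟨c, rfl⟩ := hgen x
    rw [map_sum, map_sum]
    refine Finset.sum_congr rfl fun i _ => ?_
    rw [map_mul, map_mul, map_pow, map_pow, he, τ.commutes, τ'.commutes]
  -- conjugation
  let cj : (L →ₐ[F] ℂ) → (L →ₐ[F] ℂ) := fun τ =>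
    { toRingHom := (starRingEnd ℂ).comp τ.toRingHom
      commutes' := by
        intro a
        change (starRingEnd ℂ) (τ (algebraMap F L a)) = _
        rw [τ.commutes, hFC, Complex.conj_ofReal] }
  have hcj : ∀ (τ : L →ₐ[F] ℂ) (x : L), cj τ x = conj (τ x) := fun τ x => rfl
  have hcc : ∀ τ, cj (cj τ) = τ := by
    intro τ
    ext x
    rw [hcj, hcj, Complex.conj_conj]
  have hcard : Fintype.card (L →ₐ[F] ℂ) = 3 := by
    rw [AlgHom.card, hrk]
  -- a real embedding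
  obtain ⟨τ₀, hτ₀⟩ : ∃ τ₀, cj τ₀ = τ₀ := by
    haveI : Fact (Nat.Prime 2) := ⟨Nat.prime_two⟩
    let e : Equiv.Perm (L →ₐ[F] ℂ) := ⟨cj, cj, hcc, hcc⟩
    have h1 : e ^ 2 ^ 1 = 1 := by
      ext1 τ
      rw [pow_one, pow_two]
      exact hcc τ
    exact Equiv.Perm.exists_fixed_point_of_prime (p := 2) (n := 1) (by
      rw [hcard]
      norm_num) h1
  have hreal : ∀ τ : L →ₐ[F] ℂ, cj τ = τ → ∃ x : ℝ, τ θ = x ∧ eval x (f.map σ) = 0 := by
    intro τ hτ
    have h1 : conj (τ θ) = τ θ := by rw [← hcj, hτ]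
    obtain ⟨x, hx⟩ := Complex.conj_eq_iff_real.1 h1
    refine ⟨x, hx, ?_⟩
    have h2 : aeval (τ θ) f = 0 := by
      rw [aeval_algHom_apply, hr, map_zero]
    rw [hx, aeval_def] at h2
    have h3 : eval₂ (algebraMap F ℂ) (x : ℂ) f = ((eval x (f.map σ) : ℝ) : ℂ) := by
      rw [eval_map]
      change eval₂ ((algebraMap ℝ ℂ).comp σ) ((algebraMap ℝ ℂ) x) f = (algebraMap ℝ ℂ) _
      rw [hom_eval₂]
    rw [h3] at h2
    exact_mod_cast h2
  have huniq : ∀ τ : L →ₐ[F] ℂ, cj τ = τ → τ = τ₀ := by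
    intro τ hτ
    obtain ⟨x, hx, hx'⟩ := hreal τ hτ
    obtain ⟨y, hy, hy'⟩ := hreal τ₀ hτ₀
    apply hext
    rw [hx, hy, hone x y hx' hy']
  obtain ⟨τ₁, hτ₁⟩ : ∃ τ₁ : L →ₐ[F] ℂ, τ₁ ≠ τ₀ := by
    haveI : Nontrivial (L →ₐ[F] ℂ) := Fintype.one_lt_card_iff_nontrivial.1 (by rw [hcard]; norm_num)
    exact exists_ne τ₀
  have h12 : cj τ₁ ≠ τ₁ := fun he => hτ₁ (huniq _ he)
  have h02 : cj τ₁ ≠ τ₀ := by
    intro he
    apply hτ₁
    rw [← hcc τ₁, he, hτ₀]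
  have huniv : (Finset.univ : Finset (L →ₐ[F] ℂ)) = {τ₀, τ₁, cj τ₁} := by
    symm
    apply Finset.eq_univ_of_card
    rw [hcard, Finset.card_eq_three]
    exact ⟨τ₀, τ₁, cj τ₁, hτ₁.symm, h02.symm, h12.symm, rfl⟩
  obtain ⟨ρ, hρ, hρ'⟩ := hreal τ₀ hτ₀
  -- the sign
  have hval : ∀ (τ : L →ₐ[F] ℂ) (p : F[X]), τ (aeval θ p) = eval (τ θ) (p.map (algebraMap F ℂ)) := by
    intro τ p
    rw [eval_map, ← aeval_def, aeval_algHom_apply]
  have hmapC : ∀ p : F[X], p.map (algebraMap F ℂ) = (p.map σ).map (algebraMap ℝ ℂ) := by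
    intro p
    rw [Polynomial.map_map]
    rfl
  have hevR : ∀ (x : ℝ) (p : ℝ[X]), eval (x : ℂ) (p.map (algebraMap ℝ ℂ)) = ((eval x p : ℝ) : ℂ) := by
    intro x p
    have := eval_map_algebraMap (B := ℂ) p (x : ℂ)
    rw [this]
    exact aeval_algebraMap_apply ℂ x p
  obtain ⟨a, ha⟩ : ∃ a : ℝ, a = eval ρ (h.map σ) := ⟨_, rfl⟩
  have h0v : τ₀ (aeval θ h) = (a : ℂ) := by
    rw [hval, hρ, hmapC, hevR, ha]
  have hinj : ∀ τ : L →ₐ[F] ℂ, τ (aeval θ h) ≠ 0 := by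
    intro τ h0
    apply hne
    exact (map_eq_zero τ).1 h0
  have hapos : 0 < a := by
    have h1 := Algebra.norm_eq_prod_embeddings F ℂ (aeval θ h)
    rw [huniv, Finset.prod_insert (by
        rw [Finset.mem_insert, Finset.mem_singleton]
        push Not
        exact ⟨hτ₁.symm, h02.symm⟩), Finset.prod_pair h12.symm, h0v, hcj, Complex.mul_conj,
      hFC] at h1
    obtain ⟨c, hc⟩ := hN
    rw [hc, map_mul] at h1
    have h2 : σ c * σ c = a * Complex.normSq (τ₁ (aeval θ h)) := by exact_mod_cast h1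
    have h3 : 0 < Complex.normSq (τ₁ (aeval θ h)) := Complex.normSq_pos.2 (hinj τ₁)
    have h4 : a ≠ 0 := by
      intro h0
      apply hinj τ₀
      rw [h0v, h0]
      simp
    have h5 : 0 ≤ a * Complex.normSq (τ₁ (aeval θ h)) := by
      rw [← h2]
      exact mul_self_nonneg _
    rcases lt_or_gt_of_ne h4 with h6 | h6
    · exfalso
      have := mul_neg_of_neg_of_pos h6 h3
      linarith
    · exact h6
  -- interpolation
  obtain ⟨z, hz⟩ : ∃ z : ℂ, z = τ₁ θ := ⟨_, rfl⟩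
  have hzi : z.im ≠ 0 := by
    intro h0
    apply h12
    apply hext
    rw [hcj, ← hz]
    exact Complex.conj_eq_iff_im.2 h0
  obtain ⟨ζ, hζ⟩ : ∃ ζ : ℂ, ζ * ζ = eval z ((h.map σ).map (algebraMap ℝ ℂ)) := by
    obtain ⟨ζ, hζ⟩ := IsAlgClosed.exists_pow_nat_eq (eval z ((h.map σ).map (algebraMap ℝ ℂ)))
      (n := 2) (by norm_num)
    exact ⟨ζ, by rw [← pow_two, hζ]⟩
  obtain ⟨r, hr2⟩ : ∃ r : ℝ, r = Real.sqrt a := ⟨_, rfl⟩
  have hrr : r * r = a := by
    rw [hr2]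
    exact Real.mul_self_sqrt hapos.le
  obtain ⟨μ, hμ⟩ : ∃ μ : ℂ, μ = (ζ - r) / (z - ρ) := ⟨_, rfl⟩
  have hzρ : z - ρ ≠ 0 := by
    intro h0
    apply hzi
    have : z = ρ := sub_eq_zero.1 h0
    rw [this]
    simp
  obtain ⟨c, hc⟩ : ∃ c : ℝ, c = μ.im / z.im := ⟨_, rfl⟩
  obtain ⟨b, hb⟩ : ∃ b : ℝ, b = μ.re - c * z.re := ⟨_, rfl⟩
  have hbc : (b : ℂ) + c * z = μ := by
    apply Complex.ext
    · simp [hb]
    · simp [hc]
      field_simp
  obtain ⟨s, hs⟩ : ∃ s : ℝ[X], s = C r + (X - C ρ) * (C b + C c * X) := ⟨_, rfl⟩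
  have hs1 : eval ρ s = r := by
    rw [hs]
    simp
  have hs2 : eval z (s.map (algebraMap ℝ ℂ)) = ζ := by
    rw [hs]
    simp only [Polynomial.map_add, Polynomial.map_mul, Polynomial.map_sub, map_C, map_X, eval_add,
      eval_mul, eval_sub, eval_C, eval_X, Complex.coe_algebraMap]
    rw [hbc, hμ]
    field_simp
    ring
  refine ⟨s, ?_⟩
  rw [← Polynomial.map_dvd_map' (algebraMap ℝ ℂ)]
  obtain ⟨P, hP⟩ : ∃ P : ℝ[X], P = h.map σ - s ^ 2 := ⟨_, rfl⟩
  rw [← hP]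
  have hP0 : eval (ρ : ℂ) (P.map (algebraMap ℝ ℂ)) = 0 := by
    rw [hevR, hP, eval_sub, eval_pow, hs1, ← ha, ← hrr]
    simp
    ring
  have hP1 : eval z (P.map (algebraMap ℝ ℂ)) = 0 := by
    rw [hP, Polynomial.map_sub, Polynomial.map_pow, eval_sub, eval_pow, hs2, ← hζ]
    ring
  have hconj : ∀ (p : ℝ[X]) (x : ℂ), eval (conj x) (p.map (algebraMap ℝ ℂ)) =
      conj (eval x (p.map (algebraMap ℝ ℂ))) := by
    intro p x
    rw [eval_map, eval_map, hom_eval₂]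
    congr 1
    ext y
    simp
  have hP2 : eval (conj z) (P.map (algebraMap ℝ ℂ)) = 0 := by
    rw [hconj, hP1, map_zero]
  have hf0 : eval (ρ : ℂ) ((f.map σ).map (algebraMap ℝ ℂ)) = 0 := by
    rw [hevR, hρ']
    simp
  have hf1 : eval z ((f.map σ).map (algebraMap ℝ ℂ)) = 0 := by
    rw [← hmapC, hz, ← hval, hr, map_zero]
  have hf2 : eval (conj z) ((f.map σ).map (algebraMap ℝ ℂ)) = 0 := by
    rw [hconj, hf1, map_zero]
  have hρz : (ρ : ℂ) ≠ z := by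
    intro h0
    apply hzρ
    rw [h0, sub_self]
  have hzz : z ≠ conj z := by
    intro h0
    exact hzi (Complex.conj_eq_iff_im.1 h0.symm)
  have hρzz : (ρ : ℂ) ≠ conj z := by
    intro h0
    apply hρz
    have := congrArg conj h0
    rw [Complex.conj_conj, Complex.conj_ofReal] at this
    exact this
  have hall : ∀ Q : ℂ[X], eval (ρ : ℂ) Q = 0 → eval z Q = 0 → eval (conj z) Q = 0 →
      (X - C (ρ : ℂ)) * ((X - C z) * (X - C (conj z))) ∣ Q := by
    intro Q q0 q1 q2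
    have c1 : IsCoprime (X - C z : ℂ[X]) (X - C (conj z)) :=
      isCoprime_X_sub_C_of_isUnit_sub (sub_ne_zero.2 hzz).isUnit
    have c2 : IsCoprime (X - C (ρ : ℂ) : ℂ[X]) ((X - C z) * (X - C (conj z))) :=
      IsCoprime.mul_right (isCoprime_X_sub_C_of_isUnit_sub (sub_ne_zero.2 hρz).isUnit)
        (isCoprime_X_sub_C_of_isUnit_sub (sub_ne_zero.2 hρzz).isUnit)
    exact c2.mul_dvd (dvd_iff_isRoot.2 q0) (c1.mul_dvd (dvd_iff_isRoot.2 q1) (dvd_iff_isRoot.2 q2))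
  have hfeq : (f.map σ).map (algebraMap ℝ ℂ) =
      (X - C (ρ : ℂ)) * ((X - C z) * (X - C (conj z))) := by
    have hM : ((X - C (ρ : ℂ)) * ((X - C z) * (X - C (conj z)))).Monic :=
      (monic_X_sub_C _).mul ((monic_X_sub_C _).mul (monic_X_sub_C _))
    refine Polynomial.eq_of_monic_of_dvd_of_natDegree_le hM ((hm.map _).map _)
      (hall _ hf0 hf1 hf2) ?_
    rw [(hm.map σ).natDegree_map, hm.natDegree_map, hd,
      (monic_X_sub_C _).natDegree_mul ((monic_X_sub_C _).mul (monic_X_sub_C _)),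
      (monic_X_sub_C _).natDegree_mul (monic_X_sub_C _), natDegree_X_sub_C, natDegree_X_sub_C,
      natDegree_X_sub_C]
  rw [hfeq]
  exact hall _ hP0 hP1 hP2

end Pool.Agent.V7H54
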