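import Pool.Agent.V7H54.Desc
import Pool.Agent.N783.PF.Final
import Pool.Agent.N667.PV.Ext

/-!
# The 2-Selmer group over a Galois 2-extension `K / F`, from classes over `F`
-/

set_option autoImplicit false
set_option linter.all false

open Polynomial IsDedekindDomain NumberField
open scoped Classical

namespace Pool.Agent.V7H54

open Pool.Agent.N783.PQ (LocIm)
open Pool.Agent.N874.JM (LocF)
open Pool.Agent.N874.QM (SelM)

/-! ### Local images -/

theorem LocIm.map' {E E' : Type} [Field E] [Field E'] {f h : E[X]} (s : E →+* E')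
    (H : LocIm E f h) : LocIm E' (f.map s) (h.map s) := by
  obtain ⟨l, t, hl, ht⟩ := H
  refine ⟨l.map fun p => (p.1.map s, p.2.map s), t.map s, ?_, ?_⟩
  · intro p hp
    rw [List.mem_map] at hp
    obtain ⟨q, hq, rfl⟩ := hp
    obtain ⟨a1, a2, a3⟩ := hl q hq
    refine ⟨a1.map s, a2.map (mapRingHom s), ?_⟩
    have := Polynomial.map_dvd s a3
    rwa [Polynomial.map_sub, Polynomial.map_pow] at this
  · have := Polynomial.map_dvd s ht
    rw [Polynomial.map_sub, Polynomial.map_pow, Polynomial.map_mul] at this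
    convert this using 3
    rw [← coe_mapRingHom, map_list_prod, List.map_map, List.map_map]
    congr 2
    funext p
    simp

theorem LocIm.mul' {E : Type} [Field E] {f h h' : E[X]} (H : LocIm E f h) (H' : LocIm E f h') :
    LocIm E f (h * h') := by
  obtain ⟨l, t, hl, ht⟩ := H
  obtain ⟨l', t', hl', ht'⟩ := H'
  refine ⟨l ++ l', t * t', ?_, ?_⟩
  · intro p hp
    rw [List.mem_append] at hp
    rcases hp with hp | hp
    · exact hl p hp
    · exact hl' p hp
  · rw [List.map_append, List.prod_append]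
    have e : ∀ A B : E[X], h * h' * (A * B) - (t * t') ^ 2 =
        (h * A - t ^ 2) * (h' * B) + t ^ 2 * (h' * B - t' ^ 2) := by
      intro A B
      ring
    rw [e]
    exact dvd_add (dvd_mul_of_dvd_left ht _) (dvd_mul_of_dvd_right ht' _)

theorem LocIm.sq' {E : Type} [Field E] {f : E[X]} (s : E[X]) : LocIm E f (s ^ 2) := by
  refine ⟨[], s, ?_, ?_⟩
  · intro p hp
    simp at hp
  · simp

theorem LocIm.congr' {E : Type} [Field E] {f h h' : E[X]} (hd : f ∣ h' - h) (H : LocIm E f h) :
    LocIm E f h' := by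
  obtain ⟨l, t, hl, ht⟩ := H
  refine ⟨l, t, hl, ?_⟩
  have e : ∀ A : E[X], h' * A - t ^ 2 = (h * A - t ^ 2) + (h' - h) * A := by
    intro A
    ring
  rw [e]
  exact dvd_add ht (dvd_mul_of_dvd_left hd _)

/-! ### The fields -/

section

variable {F K : Type} [Field F] [Field K] [Algebra F K]

/-- A polynomial of odd degree which is irreducible stays irreducible in extensions of 2-power
degree. -/
theorem irr_up [FiniteDimensional F K] [CharZero F] {f : F[X]} (hf : Irreducible f) (hm : f.Monic)
    (hodd : Odd f.natDegree) {n : ℕ} (hn : Module.finrank F K = 2 ^ n) :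
    Irreducible (f.map (algebraMap F K)) := by
  have hfm : (f.map (algebraMap F K)).Monic := hm.map _
  have hfd : (f.map (algebraMap F K)).natDegree = f.natDegree := hm.natDegree_map _
  have hpos : 0 < f.natDegree := hf.natDegree_pos
  obtain ⟨q, hq, hqd⟩ := WfDvdMonoid.exists_irreducible_factor (a := f.map (algebraMap F K))
    (by
      intro hu
      rw [hfm.isUnit_iff] at hu
      rw [hu, natDegree_one] at hfd
      omega) hfm.ne_zero
  haveI : Fact (Irreducible q) := ⟨hq⟩
  haveI : FiniteDimensional K (AdjoinRoot q) := (AdjoinRoot.powerBasis hq.ne_zero).finite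
  haveI : FiniteDimensional F (AdjoinRoot q) := FiniteDimensional.trans F K _
  have hα : aeval (AdjoinRoot.root q) f = 0 := by
    rw [← aeval_map_algebraMap K]
    obtain ⟨r, hr⟩ := hqd
    rw [hr, map_mul, AdjoinRoot.aeval_eq, AdjoinRoot.mk_self, zero_mul]
  have hmin : minpoly F (AdjoinRoot.root q) = f :=
    (minpoly.eq_of_irreducible_of_monic hf hα hm).symm
  have h1 : f.natDegree ∣ 2 ^ n * q.natDegree := by
    have h2 : Module.finrank F (AdjoinRoot q) = 2 ^ n * q.natDegree := by
      rw [← Module.finrank_mul_finrank F K (AdjoinRoot q), hn,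
        (AdjoinRoot.powerBasis hq.ne_zero).finrank, AdjoinRoot.powerBasis_dim]
    rw [← h2]
    conv_lhs => rw [← hmin]
    rw [← IntermediateField.adjoin.finrank (Algebra.IsIntegral.isIntegral (AdjoinRoot.root q))]
    exact ⟨_, (Module.finrank_mul_finrank F _ (AdjoinRoot q)).symm⟩
  have h3 : Nat.Coprime f.natDegree (2 ^ n) :=
    (Nat.Coprime.pow_left n ((Nat.coprime_two_left).2 hodd)).symm
  have h4 : f.natDegree ∣ q.natDegree := h3.dvd_of_dvd_mul_left h1
  have h5 : f.natDegree ≤ q.natDegree := Nat.le_of_dvd hq.natDegree_pos h4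
  obtain ⟨r, hr⟩ := hqd
  have hr0 : r ≠ 0 := by
    rintro rfl
    rw [mul_zero] at hr
    exact hfm.ne_zero hr
  have h6 : r.natDegree = 0 := by
    have := congrArg natDegree hr
    rw [natDegree_mul hq.ne_zero hr0, hfd] at this
    omega
  have hru : IsUnit r := by
    rw [isUnit_iff_degree_eq_zero, degree_eq_natDegree hr0, h6]
    rfl
  rw [hr]
  exact (irreducible_mul_isUnit hru).2 hq

end

/-- **The 2-Selmer group over `K` is zero if the classes over `F` which satisfy the local conditions
at the places of `K` are trivial.** -/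
theorem selM_of_base {F K : Type} [Field F] [NumberField F] [Field K] [NumberField K] [Algebra F K]
    [IsGalois F K] {n : ℕ} (hn : Module.finrank F K = 2 ^ n) {f : F[X]} (hf : Irreducible f)
    (hm : f.Monic) (hodd : Odd f.natDegree)
    (hbase : ∀ h : F[X], IsCoprime h f → IsSquare (Algebra.norm F (AdjoinRoot.mk f h)) →
      (∀ w : HeightOneSpectrum (𝓞 K), LocIm (w.adicCompletion K)
        ((f.map (algebraMap F K)).map (algebraMap K (w.adicCompletion K)))
        ((h.map (algebraMap F K)).map (algebraMap K (w.adicCompletion K)))) →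
      (∀ ρ : K →+* ℝ, LocIm ℝ ((f.map (algebraMap F K)).map ρ) ((h.map (algebraMap F K)).map ρ)) →
      ∃ s : F[X], f ∣ h - s ^ 2) :
    SelM K (f.map (algebraMap F K)) := by
  have hfK : Irreducible (f.map (algebraMap F K)) := irr_up hf hm hodd hn
  obtain ⟨fK, hfKe⟩ : ∃ fK : K[X], fK = f.map (algebraMap F K) := ⟨_, rfl⟩
  rw [← hfKe] at hfK ⊢
  have hmK : fK.Monic := by rw [hfKe]; exact hm.map _
  haveI : Fact (Irreducible f) := ⟨hf⟩
  haveI : Fact (Irreducible fK) := ⟨hfK⟩
  -- the map of the fields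
  let j : AdjoinRoot f →+* AdjoinRoot fK :=
    AdjoinRoot.lift ((AdjoinRoot.of fK).comp (algebraMap F K)) (AdjoinRoot.root fK) (by
      rw [← eval₂_map, ← hfKe]
      exact AdjoinRoot.eval₂_root fK)
  have hj : ∀ p : F[X], j (AdjoinRoot.mk f p) = AdjoinRoot.mk fK (p.map (algebraMap F K)) := by
    intro p
    change AdjoinRoot.lift _ _ _ (AdjoinRoot.mk f p) = _
    rw [AdjoinRoot.lift_mk, ← eval₂_map, ← AdjoinRoot.algebraMap_eq, ← aeval_def,
      AdjoinRoot.aeval_eq]
  letI : Algebra (AdjoinRoot f) (AdjoinRoot fK) := j.toAlgebra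
  have hjr : algebraMap (AdjoinRoot f) (AdjoinRoot fK) (AdjoinRoot.root f) = AdjoinRoot.root fK :=
    AdjoinRoot.lift_root _
  haveI : IsScalarTower F (AdjoinRoot f) (AdjoinRoot fK) := by
    refine IsScalarTower.of_algebraMap_eq fun a => ?_
    have e1 : j (AdjoinRoot.mk f (C a)) = AdjoinRoot.mk fK (C (algebraMap F K a)) := by
      rw [hj, map_C]
    exact e1.symm
  haveI : FiniteDimensional F K := inferInstance
  -- the bases
  have hdeg : fK.natDegree = f.natDegree := by rw [hfKe]; exact hm.natDegree_map _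
  let b : Module.Basis (Fin f.natDegree) F (AdjoinRoot f) := (AdjoinRoot.powerBasis' hm).basis
  let b' : Module.Basis (Fin f.natDegree) K (AdjoinRoot fK) :=
    (AdjoinRoot.powerBasis' hmK).basis.reindex
      (finCongr (show (AdjoinRoot.powerBasis' hmK).dim = f.natDegree from hdeg))
  have hb : ∀ i, b' i = algebraMap (AdjoinRoot f) (AdjoinRoot fK) (b i) := by
    intro i
    have e1 : b i = AdjoinRoot.root f ^ (i : ℕ) := (AdjoinRoot.powerBasis' hm).basis_eq_pow i
    have e2 : b' i = AdjoinRoot.root fK ^ (i : ℕ) := by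
      change (Module.Basis.reindex _ _) i = _
      rw [Module.Basis.reindex_apply, (AdjoinRoot.powerBasis' hmK).basis_eq_pow]
      rfl
    rw [e1, e2, map_pow, hjr]
  -- the set
  let P : AdjoinRoot fK → Prop := fun y => y ≠ 0 ∧ IsSquare (Algebra.norm K y) ∧
    ∃ h : K[X], AdjoinRoot.mk fK h = y ∧
      (∀ w : HeightOneSpectrum (𝓞 K), LocF (w.adicCompletion K) fK h) ∧
      ∀ ρ : K →+* ℝ, LocIm ℝ (fK.map ρ) (h.map ρ)
  have hcardodd : Odd (Fintype.card (Fin f.natDegree)) := by rw [Fintype.card_fin]; exact hodd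
  have h2 : (2 : AdjoinRoot fK) ≠ 0 := by
    have : (2 : K) ≠ 0 := two_ne_zero
    intro h
    apply this
    apply (algebraMap K (AdjoinRoot fK)).injective
    rw [map_ofNat, map_zero]
    exact h
  have key := Desc.all_squares (F := F) (K := K) b b' hb n hn hcardodd h2 P (fun x hx => hx.1)
    (fun x hx => hx.2.1) ?_ ?_ ?_ ?_
  · -- conclusion
    intro h hcop hnorm hloc hreal
    have hne : AdjoinRoot.mk fK h ≠ 0 := by
      intro h0
      obtain ⟨u, v, huv⟩ := hcop
      have := congrArg (AdjoinRoot.mk fK) huv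
      rw [map_add, map_mul, map_mul, h0, mul_zero, AdjoinRoot.mk_self, mul_zero, add_zero,
        map_one] at this
      exact zero_ne_one this
    obtain ⟨t, ht⟩ := key (AdjoinRoot.mk fK h) ⟨hne, hnorm, h, rfl, hloc, hreal⟩
    obtain ⟨s, rfl⟩ := AdjoinRoot.mk_surjective t
    refine ⟨s, ?_⟩
    rw [← AdjoinRoot.mk_eq_zero, map_sub, map_pow, ht]
    ring
  · -- products
    rintro x y ⟨hx0, hxN, hx, rfl, hx1, hx2⟩ ⟨hy0, hyN, hy, rfl, hy1, hy2⟩
    refine ⟨mul_ne_zero hx0 hy0, ?_, hx * hy, map_mul _ _ _, ?_, ?_⟩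
    · rw [map_mul]
      exact hxN.mul hyN
    · intro w
      have := LocIm.mul' (f := fK.map (algebraMap K (w.adicCompletion K))) (hx1 w) (hy1 w)
      rw [← Polynomial.map_mul] at this
      exact this
    · intro ρ
      rw [Polynomial.map_mul]
      exact LocIm.mul' (hx2 ρ) (hy2 ρ)
  · -- squares
    intro x hx0
    obtain ⟨h, rfl⟩ := AdjoinRoot.mk_surjective x
    refine ⟨pow_ne_zero 2 hx0, ?_, h ^ 2, map_pow _ _ _, ?_, ?_⟩
    · rw [map_pow]
      exact ⟨_, pow_two _⟩
    · intro w
      have := LocIm.sq' (f := fK.map (algebraMap K (w.adicCompletion K)))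
        (h.map (algebraMap K (w.adicCompletion K)))
      rw [← Polynomial.map_pow] at this
      exact this
    · intro ρ
      rw [Polynomial.map_pow]
      exact LocIm.sq' _
  · -- the Galois group
    rintro σ x ⟨hx0, hxN, h, rfl, hx1, hx2⟩
    obtain ⟨τ, hτ⟩ := Desc.exists_res (F := F) (K := K) σ
    have hσ : ∀ p : K[X], σ (AdjoinRoot.mk fK p) = AdjoinRoot.mk fK (p.map (τ : K →+* K)) := by
      intro p
      induction p using Polynomial.induction_on' with
      | add p q hp hq => rw [map_add, map_add, hp, hq, Polynomial.map_add, map_add]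
      | monomial m a =>
        rw [← C_mul_X_pow_eq_monomial, map_mul, map_mul, map_pow, map_pow, Polynomial.map_mul,
          Polynomial.map_pow, map_X, map_C, map_mul, map_pow]
        congr 1
        · exact (hτ a).symm
        · congr 1
          have e2 := σ.commutes (AdjoinRoot.root f)
          rw [hjr] at e2
          exact e2
    have hfτ : fK.map (τ : K →+* K) = fK := by
      rw [hfKe, Polynomial.map_map]
      congr 1
      ext a
      exact τ.commutes a
    refine ⟨?_, ?_, h.map (τ : K →+* K), (hσ h).symm, ?_, ?_⟩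
    · rw [Ne, EmbeddingLike.map_eq_zero_iff]
      exact hx0
    · rw [Desc.norm_gal (F := F) σ τ hτ]
      obtain ⟨r, hr⟩ := hxN
      exact ⟨τ r, by rw [hr, map_mul]⟩
    · intro w
      obtain ⟨w', s, hs, -⟩ := Pool.Agent.N667.PV.ext K (𝓞 K) (τ : K ≃+* K) w
      have h3 := LocIm.map' s (hx1 w')
      have e3 : ∀ p : K[X], (p.map (algebraMap K (w'.adicCompletion K))).map s =
          (p.map (τ : K →+* K)).map (algebraMap K (w.adicCompletion K)) := by
        intro p
        rw [Polynomial.map_map, Polynomial.map_map]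
        congr 1
        exact RingHom.ext fun a => hs a
      rw [e3, e3, hfτ] at h3
      exact h3
    · intro ρ
      have h3 := hx2 (ρ.comp (τ : K →+* K))
      have e3 : ∀ p : K[X], p.map (ρ.comp (τ : K →+* K)) = (p.map (τ : K →+* K)).map ρ := by
        intro p
        rw [Polynomial.map_map]
      rw [e3, e3, hfτ] at h3
      exact h3
  · -- the base
    rintro x hx0 hxN ⟨hy0, hyN, h, hh, hx1, hx2⟩
    obtain ⟨p, rfl⟩ := AdjoinRoot.mk_surjective x
    have hd : fK ∣ p.map (algebraMap F K) - h := by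
      rw [← AdjoinRoot.mk_eq_zero, map_sub, hh, sub_eq_zero]
      exact (hj p).symm
    have hcp : IsCoprime p f :=
      (hf.coprime_iff_not_dvd.2 fun hdv => hx0 (AdjoinRoot.mk_eq_zero.2 hdv)).symm
    obtain ⟨s, hs⟩ := hbase p hcp hxN (fun w => by
      rw [← hfKe]
      refine LocIm.congr' ?_ (hx1 w)
      rw [← Polynomial.map_sub]
      exact Polynomial.map_dvd _ hd) (fun ρ => by
      rw [← hfKe]
      refine LocIm.congr' ?_ (hx2 ρ)
      rw [← Polynomial.map_sub]
      exact Polynomial.map_dvd _ hd)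
    refine ⟨AdjoinRoot.mk f s, ?_⟩
    rw [← AdjoinRoot.mk_eq_zero, map_sub, map_pow, sub_eq_zero] at hs
    rw [hs, pow_two]

end Pool.Agent.V7H54
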