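import Pool.Agent.V7H54.LocK

/-!
# A twist with trivial 2-Selmer group over `K`
-/

set_option autoImplicit false
set_option linter.all false

open Polynomial IsDedekindDomain NumberField
open scoped Classical

namespace Pool.Agent.V7H54

open Pool.Agent.N874.PP (Ev Sq1 U0)
open Pool.Agent.N874.PM (Lies)
open Pool.Agent.N874.JM (LocF)
open Pool.Agent.N874.QM (SelM)
open Pool.Agent.N783.PQ (LocIm)
open Pool.Agent.N783.PF

/-- The conditions on `f` and `S` with respect to `K`. -/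
structure OKK (F K : Type) [Field F] [NumberField F] [Field K] [NumberField K] [Algebra F K]
    (S : Finset ℕ) (f : (𝓞 F)[X]) : Prop where
  ram : ∀ w : HeightOneSpectrum (𝓞 F), ¬ Unr F K w → Irreducible (rd w.asIdeal f)
  spl : ∀ q ∈ S, ∀ 𝔔 : Ideal (𝓞 K), 𝔔.IsPrime → (q : 𝓞 K) ∉ 𝔔 ^ 2 ∧
    ((q : 𝓞 K) ∈ 𝔔 → Nat.card (𝓞 K ⧸ 𝔔) = q)
  dsc : ∀ w : HeightOneSpectrum (𝓞 F), (2 : 𝓞 F) ∈ w.asIdeal → Dsc2 F K w f
  pos : ∀ σ : F →+* ℝ, 0 ≤ σ (f.coeff 1 : F)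

/-- From the absence of bad elements to a twist without 2-Selmer group over `K`. -/
theorem twK (F : Type) [Field F] [NumberField F] : ∃ κ : ℕ,
    ∀ (K : Type) [Field K] [NumberField K] [Algebra F K] [IsGalois F K] (n : ℕ),
    Module.finrank F K = 2 ^ n →
    ∀ (B N W : ℕ) (f₁ : (𝓞 F)[X]) (S : Finset ℕ) (𝔮 : ℕ → Ideal (𝓞 F)) (r P : ℕ → (𝓞 F)[X])
    (f : (𝓞 F)[X]), κ ≤ W → GoodF 1 W f₁ → GoodS 1 W S 𝔮 r P → Fam 1 B W f₁ S P f →
    2 ^ κ * B ≤ 4 ^ N → 1 ≤ B → ¬ LBad 1 N κ S 𝔮 P f → OKK F K S f →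
    ∃ J ⊆ S, Irreducible (fF (f.scaleRoots ((Dp J : ℕ) : 𝓞 F))) ∧
      SelM K ((fF (f.scaleRoots ((Dp J : ℕ) : 𝓞 F))).map (algebraMap F K)) ∧
      Min 1 (f.scaleRoots ((Dp J : ℕ) : 𝓞 F)) := by
  have hg : 1 ≤ 1 := le_rfl
  obtain ⟨κ₁, hκ₁⟩ := core 1 F hg
  obtain ⟨κ₂, hκ₂⟩ := sqf 1 F hg
  refine ⟨max κ₁ κ₂, fun K _ _ _ _ n hn B N W f₁ S 𝔮 r P f hW hf₁ hS hF hBN hB hnb hOK => ?_⟩
  have hBN1 : 2 ^ κ₁ * B ≤ 4 ^ N :=
    (Nat.mul_le_mul_right _ (Nat.pow_le_pow_right (by norm_num) (le_max_left _ _))).trans hBN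
  have hBN2 : 2 ^ κ₂ * B ≤ 4 ^ N :=
    (Nat.mul_le_mul_right _ (Nat.pow_le_pow_right (by norm_num) (le_max_right _ _))).trans hBN
  have hnb1 : ¬ LBad 1 N κ₁ S 𝔮 P f :=
    fun h => hnb (Pool.Agent.N170.PF.LBad.mono (le_max_left _ _) h)
  have hnb2 : ¬ LBad 1 N κ₂ S 𝔮 P f :=
    fun h => hnb (Pool.Agent.N170.PF.LBad.mono (le_max_right _ _) h)
  have hm := hF.ht.mon
  have hd := hF.ht.deg
  have hirr : Irreducible (fF f) := Pool.Agent.N667.PF.irr F 1 W f₁ f hf₁ hF.one hm hd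
  have hsq : SqF 1 f := hκ₂ B N W f₁ S 𝔮 r P f ((le_max_right _ _).trans hW) hf₁ hS hF hirr hBN2
    hB hnb2
  obtain ⟨L, _, _, _, θ, hc⟩ := Pool.Agent.N667.PF.gen F 1 f hm hd hirr
  obtain ⟨J, hJ, hcore⟩ := hκ₁ L f f₁ θ B N W S 𝔮 r P ((le_max_left _ _).trans hW) hc hsq hf₁ hS
    hF hBN1 hB hnb1
  have hdF : (fF f).natDegree = 3 := by rw [hm.natDegree_map, hd]
  have hirrK : Irreducible ((fF f).map (algebraMap F K)) :=
    irr_up hirr (hm.map _) (by rw [hdF]; decide) hn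
  obtain ⟨Ω, _, _, _, _, _, _, _, hcK⟩ := exists_comp (K := K) hc hirr hirrK
  refine ⟨J, hJ, ?_⟩
  have hloc5 := locK (Ω := Ω) hc hcK hirrK hsq hf₁ hS hF.one hF.con hJ hOK.ram hOK.spl hOK.dsc
    hOK.pos hF.ht.tr
  have hD0 : Dp J ≠ 0 := by
    rw [Dp, Finset.prod_ne_zero_iff]
    exact fun q hq => (hS q (hJ hq)).1.ne_zero
  have hmin := Pool.Agent.N547.PF.min 1 W F S J 𝔮 r P f hg hS hsq hm hd hF.con hJ
  generalize hDD : Dp J = D at hD0 hloc5 hmin ⊢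
  have hD0F : (D : F) ≠ 0 := Nat.cast_ne_zero.2 hD0
  have hmD : (f.scaleRoots (D : 𝓞 F)).Monic := (monic_scaleRoots_iff (D : 𝓞 F)).2 hm
  have hirrD : Irreducible (fF (f.scaleRoots (D : 𝓞 F))) := by
    rw [Pool.Agent.N170.PF.fF_scale hm]
    exact Pool.Agent.N170.PF.irr_scale hD0F hirr
  refine ⟨hirrD, ?_, hmin⟩
  obtain ⟨F', hF'⟩ : ∃ F' : F[X], F' = fF (f.scaleRoots (D : 𝓞 F)) := ⟨_, rfl⟩
  obtain ⟨Θ, hΘ⟩ : ∃ Θ : L, Θ = (D : L) * θ := ⟨_, rfl⟩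
  rw [← hΘ] at hloc5
  have hcomp : ∀ h : F[X], aeval θ (h.comp (C (D : F) * X)) = aeval Θ h := by
    intro h
    rw [aeval_comp, map_mul, aeval_C, aeval_X, hΘ, map_natCast]
  have hroot : aeval Θ F' = 0 := by
    have e1 := scaleRoots_eval₂_mul (p := fF f) (algebraMap F L) θ (D : F)
    have e2 : eval₂ (algebraMap F L) θ (fF f) = 0 := by
      rw [← aeval_def]
      exact hc.root
    rw [e2, mul_zero, map_natCast] at e1
    rw [hF', Pool.Agent.N170.PF.fF_scale hm, aeval_def, hΘ]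
    exact e1
  have hmF' : F'.Monic := by
    rw [hF']
    exact hmD.map _
  have hdF' : F'.natDegree = 2 * 1 + 1 := by
    rw [hF', fF, hmD.natDegree_map, natDegree_scaleRoots, hd]
  rw [← hF'] at hirrD hloc5 ⊢
  haveI hfact' : Fact (Irreducible F') := ⟨hirrD⟩
  obtain ⟨φ, hφ⟩ : ∃ φ : AdjoinRoot F' →ₐ[F] L,
    φ = AdjoinRoot.liftAlgHom F' (Algebra.ofId F _) Θ hroot := ⟨_, rfl⟩
  have hφmk : ∀ p : F[X], φ (AdjoinRoot.mk F' p) = aeval Θ p := by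
    intro p
    have h1 := AdjoinRoot.liftAlgHom_mk F' (Algebra.ofId F L) Θ hroot p
    rw [Algebra.toRingHom_ofId, ← Polynomial.aeval_def] at h1
    rw [hφ]
    exact h1
  have hφinj : Function.Injective φ := φ.toRingHom.injective
  haveI : FiniteDimensional F (AdjoinRoot F') := hmF'.finite_adjoinRoot
  haveI : FiniteDimensional F L := Module.finite_of_finrank_pos (by rw [hc.rank]; omega)
  have hrk : Module.finrank F (AdjoinRoot F') = Module.finrank F L := by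
    rw [hc.rank, (AdjoinRoot.powerBasis hmF'.ne_zero).finrank, AdjoinRoot.powerBasis_dim, hdF']
  have hφsurj : Function.Surjective φ :=
    (LinearMap.injective_iff_surjective_of_finrank_eq_finrank (f := φ.toLinearMap) hrk).1 hφinj
  obtain ⟨e, he⟩ : ∃ e : AdjoinRoot F' ≃ₐ[F] L, ∀ x, e x = φ x :=
    ⟨AlgEquiv.ofBijective φ ⟨hφinj, hφsurj⟩, fun _ => rfl⟩
  have hemk : ∀ p : F[X], e (AdjoinRoot.mk F' p) = aeval Θ p := fun p => (he _).trans (hφmk p)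
  refine selM_of_base hn hirrD hmF' (by rw [hdF']; decide) ?_
  intro h hcop hnorm hloc hreal
  have hne : aeval Θ h ≠ 0 := by
    intro h0
    obtain ⟨u, v, huv⟩ := hcop
    have := congrArg (aeval Θ) huv
    rw [map_add, map_mul, map_mul, hroot, h0, mul_zero, mul_zero, add_zero, map_one] at this
    exact zero_ne_one this
  have hnorm' : IsSquare (Algebra.norm F (aeval Θ h)) := by
    rw [← hemk, Algebra.norm_eq_of_algEquiv]
    exact hnorm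
  obtain ⟨k1, k2, k3, k4⟩ := hloc5 h hne hnorm' hloc
  have hcore' := hcore (h.comp (C (D : F) * X))
  rw [hcomp] at hcore'
  obtain ⟨y, hy⟩ := hcore' hne hnorm' k1 k2 k3 k4
  obtain ⟨z, rfl⟩ := hφsurj y
  obtain ⟨s, rfl⟩ := AdjoinRoot.mk_surjective z
  refine ⟨s, ?_⟩
  rw [← AdjoinRoot.mk_eq_zero]
  apply hφinj
  rw [map_zero, hφmk, map_sub, map_pow, sub_eq_zero]
  rw [hφmk] at hy
  rw [pow_two]
  exact hy

end Pool.Agent.V7H54
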