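import Mathlib

/-!
# The valuation on a cubic extension in which the residue polynomial has no zero
-/

set_option autoImplicit false
set_option linter.all false

open Polynomial WithZero

namespace Pool.Agent.V7H54.V3

variable {E : Type} [Field E] {Γ : Type} [LinearOrderedCommGroupWithZero Γ]

/-- The cubic polynomial `f` is monic, integral, and without zero modulo the maximal ideal. -/
structure Cub (v : Valuation E Γ) (f : E[X]) : Prop where
  mon : f.Monic
  deg : f.natDegree = 3
  int : ∀ i, v (f.coeff i) ≤ 1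
  nr : ∀ t : E, v t ≤ 1 → v (f.eval t) = 1

section red

variable (v : Valuation E Γ)

theorem red_zero (x : v.valuationSubring) :
    IsLocalRing.residue v.valuationSubring x = 0 ↔ v (x : E) < 1 := by
  rw [IsLocalRing.residue_eq_zero_iff, IsLocalRing.mem_maximalIdeal, mem_nonunits_iff]
  constructor
  · intro h
    refine lt_of_le_of_ne x.2 fun h1 => h ?_
    have hx0 : (x : E) ≠ 0 := by
      intro h0
      rw [h0, map_zero] at h1
      exact zero_ne_one h1
    refine IsUnit.of_mul_eq_one (a := x) ⟨(x : E)⁻¹, ?_⟩ ?_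
    · change v (x : E)⁻¹ ≤ 1
      rw [map_inv₀, h1, inv_one]
    · ext
      exact mul_inv_cancel₀ hx0
  · intro h hu
    obtain ⟨y, hy⟩ := hu.exists_right_inv
    have h1 : v (x : E) * v (y : E) = 1 := by
      rw [← map_mul]
      have := congrArg (fun z : v.valuationSubring => v (z : E)) hy
      simpa using this
    have h2 : v (x : E) * v (y : E) < 1 := by
      calc _ ≤ v (x : E) * 1 := mul_le_mul' le_rfl y.2
        _ < 1 := by rw [mul_one]; exact h
    exact absurd h1 h2.ne

theorem lift_pol {p : E[X]} (hp : ∀ i, v (p.coeff i) ≤ 1) :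
    ∃ q : v.valuationSubring[X], q.map v.valuationSubring.subtype = p := by
  refine (mem_lifts p).1 ((lifts_iff_coeff_lifts p).2 fun n => ?_)
  exact ⟨⟨p.coeff n, hp n⟩, rfl⟩

end red

variable {v : Valuation E Γ} {f : E[X]}

theorem Cub.root (h : Cub v f) (t : E) : f.eval t ≠ 0 := by
  intro h0
  rcases le_or_gt (v t) 1 with h1 | h1
  · have := h.nr t h1
    rw [h0, map_zero] at this
    exact zero_ne_one this
  · -- the leading term dominates
    have h2 : f.eval t = t ^ 3 + (f.coeff 2 * t ^ 2 + f.coeff 1 * t + f.coeff 0) := by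
      have h3 : f.coeff 3 = 1 := by
        have := h.mon.coeff_natDegree
        rwa [h.deg] at this
      rw [eval_eq_sum_range, h.deg]
      simp only [Finset.sum_range_succ, Finset.sum_range_zero, h3]
      ring
    have ht0 : v t ≠ 0 := ne_of_gt (lt_trans zero_lt_one h1)
    have hle : v (f.coeff 2 * t ^ 2 + f.coeff 1 * t + f.coeff 0) ≤ v t ^ 2 := by
      refine (v.map_add _ _).trans (max_le ((v.map_add _ _).trans (max_le ?_ ?_)) ?_)
      · rw [map_mul, map_pow]
        exact mul_le_of_le_one_left' (h.int 2)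
      · rw [map_mul]
        calc v (f.coeff 1) * v t ≤ 1 * v t := mul_le_mul' (h.int 1) le_rfl
          _ ≤ v t ^ 2 := by
            rw [one_mul, pow_two]
            exact le_mul_of_one_le_left' h1.le
      · exact (h.int 0).trans (one_le_pow₀ h1.le)
    have hlt : v t ^ 2 < v t ^ 3 := by
      exact pow_lt_pow_right₀ h1 (by norm_num)
    have h4 : v (f.eval t) = v t ^ 3 := by
      rw [h2, Valuation.map_add_eq_of_lt_left, map_pow]
      rw [map_pow]
      exact lt_of_le_of_lt hle hlt
    rw [h0, map_zero] at h4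
    exact pow_ne_zero 3 ht0 h4.symm

theorem Cub.irr (h : Cub v f) : Irreducible f := by
  rw [Polynomial.irreducible_iff_roots_eq_zero_of_degree_le_three (by rw [h.deg]; norm_num)
    (by rw [h.deg])]
  rw [Multiset.eq_zero_iff_forall_notMem]
  intro x hx
  exact h.root x ((Polynomial.mem_roots h.mon.ne_zero).1 hx)

/-- The residue polynomial. -/
theorem Cub.red (h : Cub v f) {g : v.valuationSubring[X]} (hg : g.map v.valuationSubring.subtype = f) :
    g.Monic ∧ g.natDegree = 3 ∧ (g.map (IsLocalRing.residue v.valuationSubring)).Monic ∧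
    (g.map (IsLocalRing.residue v.valuationSubring)).natDegree = 3 ∧
    Irreducible (g.map (IsLocalRing.residue v.valuationSubring)) := by
  have hinj : Function.Injective v.valuationSubring.subtype := Subtype.val_injective
  have hgm : g.Monic := by
    apply Polynomial.monic_of_injective hinj
    change (g.map v.valuationSubring.subtype).Monic
    rw [hg]
    exact h.mon
  have hgd : g.natDegree = 3 := by
    rw [← natDegree_map_eq_of_injective hinj g]
    change (g.map v.valuationSubring.subtype).natDegree = 3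
    rw [hg, h.deg]
  have hrm : (g.map (IsLocalRing.residue v.valuationSubring)).Monic := hgm.map _
  have hrd : (g.map (IsLocalRing.residue v.valuationSubring)).natDegree = 3 := by
    rw [hgm.natDegree_map, hgd]
  refine ⟨hgm, hgd, hrm, hrd, ?_⟩
  rw [Polynomial.irreducible_iff_roots_eq_zero_of_degree_le_three (by rw [hrd]; norm_num)
    (by rw [hrd])]
  rw [Multiset.eq_zero_iff_forall_notMem]
  intro x hx
  have h1 := (Polynomial.mem_roots hrm.ne_zero).1 hx
  obtain ⟨t, rfl⟩ := IsLocalRing.residue_surjective (R := v.valuationSubring) x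
  rw [IsRoot.def, eval_map, eval₂_at_apply, red_zero] at h1
  have h2 : ((g.eval t : v.valuationSubring) : E) = f.eval (t : E) := by
    rw [← hg, eval_map]
    exact (eval₂_at_apply v.valuationSubring.subtype t).symm
  rw [h2, h.nr t t.2] at h1
  exact lt_irrefl _ h1

section val

variable [Fact (Irreducible f)] (h : Cub v f)

/-- The coordinates. -/
noncomputable def co (h : Cub v f) (i : ℕ) : AdjoinRoot f →ₗ[E] E :=
  (lcoeff E i).comp (AdjoinRoot.modByMonicHom h.mon)

theorem co_mk (i : ℕ) (p : E[X]) : co h i (AdjoinRoot.mk f p) = (p %ₘ f).coeff i := by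
  change ((AdjoinRoot.modByMonicHom h.mon) (AdjoinRoot.mk f p)).coeff i = _
  rw [AdjoinRoot.modByMonicHom_mk]

theorem co_mk_of_lt (i : ℕ) {p : E[X]} (hp : p.natDegree < 3) :
    co h i (AdjoinRoot.mk f p) = p.coeff i := by
  rw [co_mk, (modByMonic_eq_self_iff h.mon).2]
  rw [degree_eq_natDegree h.mon.ne_zero, h.deg]
  exact lt_of_le_of_lt degree_le_natDegree (by exact_mod_cast hp)

/-- The representative. -/
noncomputable def rep (h : Cub v f) (z : AdjoinRoot f) : E[X] :=
  C (co h 0 z) + C (co h 1 z) * X + C (co h 2 z) * X ^ 2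

theorem rep_deg (z : AdjoinRoot f) : (rep h z).natDegree ≤ 2 := by
  unfold rep
  compute_degree

theorem rep_coeff (z : AdjoinRoot f) (i : ℕ) (hi : i < 3) : (rep h z).coeff i = co h i z := by
  unfold rep
  interval_cases i <;> simp [coeff_X, coeff_C]

theorem mk_rep (z : AdjoinRoot f) : AdjoinRoot.mk f (rep h z) = z := by
  have h1 : (AdjoinRoot.modByMonicHom h.mon) z = rep h z := by
    refine Polynomial.ext fun n => ?_
    rcases lt_or_ge n 3 with hn | hn
    · rw [rep_coeff h z n hn]
      rfl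
    · rw [coeff_eq_zero_of_natDegree_lt (p := rep h z) (by have := rep_deg h z; omega)]
      obtain ⟨p, rfl⟩ := AdjoinRoot.mk_surjective z
      rw [AdjoinRoot.modByMonicHom_mk]
      apply coeff_eq_zero_of_degree_lt
      refine lt_of_lt_of_le (degree_modByMonic_lt p h.mon) ?_
      rw [degree_eq_natDegree h.mon.ne_zero, h.deg]
      exact_mod_cast hn
  rw [← h1]
  exact AdjoinRoot.mk_leftInverse h.mon z

theorem ext_co {z z' : AdjoinRoot f} (h0 : co h 0 z = co h 0 z') (h1 : co h 1 z = co h 1 z')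
    (h2 : co h 2 z = co h 2 z') : z = z' := by
  rw [← mk_rep h z, ← mk_rep h z', rep, rep, h0, h1, h2]

/-- The maximum of the valuations of the coordinates. -/
noncomputable def mx (h : Cub v f) (z : AdjoinRoot f) : Γ :=
  max (v (co h 0 z)) (max (v (co h 1 z)) (v (co h 2 z)))

theorem mx_le_iff {z : AdjoinRoot f} {γ : Γ} :
    mx h z ≤ γ ↔ ∀ i < 3, v (co h i z) ≤ γ := by
  unfold mx
  rw [max_le_iff, max_le_iff]
  constructor
  · rintro ⟨h0, h1, h2⟩ i hi
    interval_cases i
    · exact h0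
    · exact h1
    · exact h2
  · intro H
    exact ⟨H 0 (by norm_num), H 1 (by norm_num), H 2 (by norm_num)⟩

theorem mx_lt_iff {z : AdjoinRoot f} {γ : Γ} :
    mx h z < γ ↔ ∀ i < 3, v (co h i z) < γ := by
  unfold mx
  rw [max_lt_iff, max_lt_iff]
  constructor
  · rintro ⟨h0, h1, h2⟩ i hi
    interval_cases i
    · exact h0
    · exact h1
    · exact h2
  · intro H
    exact ⟨H 0 (by norm_num), H 1 (by norm_num), H 2 (by norm_num)⟩

theorem exists_mx (z : AdjoinRoot f) : ∃ i < 3, v (co h i z) = mx h z := by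
  by_contra hcon
  push Not at hcon
  have h1 : mx h z < mx h z := (mx_lt_iff h).2 fun i hi =>
    lt_of_le_of_ne ((mx_le_iff h).1 le_rfl i hi) (hcon i hi)
  exact lt_irrefl _ h1

theorem mx_smul (a : E) (z : AdjoinRoot f) : mx h (a • z) = v a * mx h z := by
  have e : ∀ i, co h i (a • z) = a * co h i z := fun i => by
    rw [(co h i).map_smul, smul_eq_mul]
  have hm : ∀ x y : Γ, v a * max x y = max (v a * x) (v a * y) := by
    intro x y
    rcases le_total x y with h1 | h1
    · rw [max_eq_right h1, max_eq_right (mul_le_mul' le_rfl h1)]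
    · rw [max_eq_left h1, max_eq_left (mul_le_mul' le_rfl h1)]
  unfold mx
  rw [e, e, e, map_mul, map_mul, map_mul, hm, hm]

/-- integral representatives -/
theorem lift_int {z : AdjoinRoot f} (hz : mx h z ≤ 1) : ∃ p : v.valuationSubring[X],
    p.natDegree ≤ 2 ∧ AdjoinRoot.mk f (p.map v.valuationSubring.subtype) = z ∧
    ∀ i < 3, ((p.coeff i : v.valuationSubring) : E) = co h i z := by
  have h1 : ∀ i, v ((rep h z).coeff i) ≤ 1 := by
    intro i
    rcases lt_or_ge i 3 with hi | hi
    · rw [rep_coeff h z i hi]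
      exact (mx_le_iff h).1 hz i hi
    · rw [coeff_eq_zero_of_natDegree_lt (by have := rep_deg h z; omega), map_zero]
      exact zero_le
  obtain ⟨p, hp⟩ := lift_pol v h1
  have hinj : Function.Injective v.valuationSubring.subtype := Subtype.val_injective
  refine ⟨p, ?_, ?_, ?_⟩
  · rw [← natDegree_map_eq_of_injective hinj p]
    change (p.map v.valuationSubring.subtype).natDegree ≤ 2
    rw [hp]
    exact rep_deg h z
  · rw [hp, mk_rep]
  · intro i hi
    rw [← rep_coeff h z i hi, ← hp, coeff_map]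
    rfl

/-- integral polynomials and residues -/
theorem mx_of_red {g : v.valuationSubring[X]} (hg : g.map v.valuationSubring.subtype = f)
    (p : v.valuationSubring[X]) : mx h (AdjoinRoot.mk f (p.map v.valuationSubring.subtype)) ≤ 1 ∧
    (mx h (AdjoinRoot.mk f (p.map v.valuationSubring.subtype)) < 1 ↔
      g.map (IsLocalRing.residue v.valuationSubring) ∣
        p.map (IsLocalRing.residue v.valuationSubring)) := by
  obtain ⟨hgm, hgd, hrm, hrd, hri⟩ := h.red hg
  have e1 : ∀ i, co h i (AdjoinRoot.mk f (p.map v.valuationSubring.subtype)) =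
      (((p %ₘ g).coeff i : v.valuationSubring) : E) := by
    intro i
    rw [co_mk]
    have : (p.map v.valuationSubring.subtype) %ₘ f = (p %ₘ g).map v.valuationSubring.subtype := by
      rw [map_modByMonic _ hgm, hg]
    rw [this, coeff_map]
    rfl
  refine ⟨(mx_le_iff h).2 fun i hi => ?_, ?_⟩
  · rw [e1]
    exact ((p %ₘ g).coeff i).2
  · rw [mx_lt_iff]
    constructor
    · intro H
      have h2 : (p %ₘ g).map (IsLocalRing.residue v.valuationSubring) = 0 := by
        refine Polynomial.ext fun n => ?_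
        rw [coeff_map, coeff_zero]
        rcases lt_or_ge n 3 with hn | hn
        · rw [red_zero, ← e1]
          exact H n hn
        · have : (p %ₘ g).coeff n = 0 := by
            apply coeff_eq_zero_of_degree_lt
            refine lt_of_lt_of_le (degree_modByMonic_lt p hgm) ?_
            rw [degree_eq_natDegree hgm.ne_zero, hgd]
            exact_mod_cast hn
          rw [this, map_zero]
      rw [map_modByMonic _ hgm] at h2
      exact (modByMonic_eq_zero_iff_dvd hrm).1 h2
    · intro H i hi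
      rw [e1, ← red_zero, ← coeff_map, map_modByMonic _ hgm, (modByMonic_eq_zero_iff_dvd hrm).2 H,
        coeff_zero]

theorem mx_mul_one {x y : AdjoinRoot f} (hx : mx h x = 1) (hy : mx h y = 1) : mx h (x * y) = 1 := by
  obtain ⟨g, hg⟩ := lift_pol v h.int
  obtain ⟨hgm, hgd, hrm, hrd, hri⟩ := h.red hg
  obtain ⟨p, hp1, rfl, hp3⟩ := lift_int h hx.le
  obtain ⟨q, hq1, rfl, hq3⟩ := lift_int h hy.le
  rw [← map_mul, ← Polynomial.map_mul]
  have h1 := mx_of_red h hg (p * q)
  refine le_antisymm h1.1 (not_lt.1 fun h2 => ?_)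
  have h3 := h1.2.1 h2
  rw [Polynomial.map_mul] at h3
  rcases hri.prime.dvd_or_dvd h3 with h4 | h4
  · have := (mx_of_red h hg p).2.2 h4
    rw [hx] at this
    exact lt_irrefl _ this
  · have := (mx_of_red h hg q).2.2 h4
    rw [hy] at this
    exact lt_irrefl _ this

theorem mx_eq_zero {z : AdjoinRoot f} : mx h z = 0 ↔ z = 0 := by
  constructor
  · intro h0
    have h1 : ∀ i < 3, co h i z = 0 := by
      intro i hi
      have := (mx_le_iff h).1 h0.le i hi
      exact (v.zero_iff).1 (le_antisymm this zero_le)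
    apply ext_co h
    · rw [h1 0 (by norm_num), map_zero]
    · rw [h1 1 (by norm_num), map_zero]
    · rw [h1 2 (by norm_num), map_zero]
  · rintro rfl
    have e : ∀ i, v (co h i (0 : AdjoinRoot f)) = 0 := fun i => by
      rw [(co h i).map_zero, v.map_zero]
    unfold mx
    rw [e, e, e, max_self, max_self]

theorem mx_mul (x y : AdjoinRoot f) : mx h (x * y) = mx h x * mx h y := by
  by_cases hx : x = 0
  · rw [hx, zero_mul, (mx_eq_zero h).2 rfl, zero_mul]
  by_cases hy : y = 0
  · rw [hy, mul_zero, (mx_eq_zero h).2 rfl, mul_zero]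
  obtain ⟨i, -, hi⟩ := exists_mx h x
  obtain ⟨j, -, hj⟩ := exists_mx h y
  obtain ⟨a, ha⟩ : ∃ a : E, a = co h i x := ⟨_, rfl⟩
  obtain ⟨b, hb⟩ : ∃ b : E, b = co h j y := ⟨_, rfl⟩
  rw [← ha] at hi
  rw [← hb] at hj
  have hmx : mx h x ≠ 0 := fun h0 => hx ((mx_eq_zero h).1 h0)
  have hmy : mx h y ≠ 0 := fun h0 => hy ((mx_eq_zero h).1 h0)
  have ha0 : a ≠ 0 := by
    rintro rfl
    rw [map_zero] at hi
    exact hmx hi.symm
  have hb0 : b ≠ 0 := by
    rintro rfl
    rw [map_zero] at hj
    exact hmy hj.symm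
  have e1 : mx h (a⁻¹ • x) = 1 := by
    rw [mx_smul, map_inv₀, hi, inv_mul_cancel₀ hmx]
  have e2 : mx h (b⁻¹ • y) = 1 := by
    rw [mx_smul, map_inv₀, hj, inv_mul_cancel₀ hmy]
  have e3 := mx_mul_one h e1 e2
  have e4 : x * y = (a * b) • ((a⁻¹ • x) * (b⁻¹ • y)) := by
    rw [smul_mul_smul_comm, smul_smul]
    have : a * b * (a⁻¹ * b⁻¹) = 1 := by
      field_simp
    rw [this, one_smul]
  rw [e4, mx_smul, e3, mul_one, map_mul, hi, hj]

/-- **The valuation on `E[X] / f`.** -/
noncomputable def V (h : Cub v f) : Valuation (AdjoinRoot f) Γ where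
  toFun := mx h
  map_zero' := (mx_eq_zero h).2 rfl
  map_one' := by
    have e : (1 : AdjoinRoot f) = AdjoinRoot.mk f 1 := (map_one _).symm
    unfold mx
    rw [e, co_mk_of_lt h 0 (by simp), co_mk_of_lt h 1 (by simp), co_mk_of_lt h 2 (by simp)]
    simp [coeff_one]
  map_mul' := mx_mul h
  map_add_le_max' := by
    intro x y
    rw [mx_le_iff]
    intro i hi
    rw [map_add]
    refine (v.map_add _ _).trans (max_le_max ?_ ?_)
    · exact (mx_le_iff h).1 le_rfl i hi
    · exact (mx_le_iff h).1 le_rfl i hi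

theorem V_apply (z : AdjoinRoot f) : V h z = mx h z := rfl

theorem V_le_iff {z : AdjoinRoot f} {γ : Γ} : V h z ≤ γ ↔ ∀ i < 3, v (co h i z) ≤ γ := mx_le_iff h

theorem V_lt_iff {z : AdjoinRoot f} {γ : Γ} : V h z < γ ↔ ∀ i < 3, v (co h i z) < γ := mx_lt_iff h

theorem V_of (a : E) : V h (algebraMap E (AdjoinRoot f) a) = v a := by
  rw [Algebra.algebraMap_eq_smul_one, V_apply, mx_smul]
  have : mx h (1 : AdjoinRoot f) = 1 := (V h).map_one
  rw [this, mul_one]

/-- coordinates with respect to `ϑ = root - x₀` -/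
theorem V_quad (x₀ c₀ c₁ c₂ : E) (hx : v x₀ ≤ 1) :
    V h (algebraMap E _ c₀ + algebraMap E _ c₁ * (AdjoinRoot.root f - algebraMap E _ x₀) +
      algebraMap E _ c₂ * (AdjoinRoot.root f - algebraMap E _ x₀) ^ 2) =
    max (v c₀) (max (v c₁) (v c₂)) := by
  have e : algebraMap E (AdjoinRoot f) c₀ +
      algebraMap E _ c₁ * (AdjoinRoot.root f - algebraMap E _ x₀) +
      algebraMap E _ c₂ * (AdjoinRoot.root f - algebraMap E _ x₀) ^ 2 =
      AdjoinRoot.mk f (C (c₀ - c₁ * x₀ + c₂ * x₀ ^ 2) + C (c₁ - 2 * c₂ * x₀) * X + C c₂ * X ^ 2) := by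
    rw [map_add, map_add, map_mul, map_mul, map_pow, AdjoinRoot.mk_X, AdjoinRoot.mk_C,
      AdjoinRoot.mk_C, AdjoinRoot.mk_C, AdjoinRoot.algebraMap_eq]
    simp only [map_add, map_sub, map_mul, map_pow, map_ofNat]
    ring
  have hdeg : (C (c₀ - c₁ * x₀ + c₂ * x₀ ^ 2) + C (c₁ - 2 * c₂ * x₀) * X + C c₂ * X ^ 2 :
      E[X]).natDegree < 3 := by
    refine lt_of_le_of_lt ?_ (by norm_num : 2 < 3)
    compute_degree
  rw [e, V_apply]
  unfold mx
  rw [co_mk_of_lt h 0 hdeg, co_mk_of_lt h 1 hdeg, co_mk_of_lt h 2 hdeg]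
  have k0 : ∀ a b c : E, (C a + C b * X + C c * X ^ 2 : E[X]).coeff 0 = a := by
    intro a b c
    simp
  have k1 : ∀ a b c : E, (C a + C b * X + C c * X ^ 2 : E[X]).coeff 1 = b := by
    intro a b c
    simp [coeff_C]
  have k2 : ∀ a b c : E, (C a + C b * X + C c * X ^ 2 : E[X]).coeff 2 = c := by
    intro a b c
    simp [coeff_C, coeff_X]
  rw [k0, k1, k2]
  -- two inequalities
  have h2 : v (2 : E) ≤ 1 := by
    have : (2 : E) = 1 + 1 := by norm_num
    rw [this]
    exact (v.map_add _ _).trans (by rw [map_one, max_self])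
  obtain ⟨m, hm⟩ : ∃ m, m = max (v c₀) (max (v c₁) (v c₂)) := ⟨_, rfl⟩
  rw [← hm]
  have m0 : v c₀ ≤ m := by rw [hm]; exact le_max_left _ _
  have m1 : v c₁ ≤ m := by rw [hm]; exact (le_max_left _ _).trans (le_max_right _ _)
  have m2 : v c₂ ≤ m := by rw [hm]; exact (le_max_right _ _).trans (le_max_right _ _)
  have aux : ∀ (c : E) (t : E) (γ : Γ), v c ≤ γ → v t ≤ 1 → v (c * t) ≤ γ := by
    intro c t γ h5 h6
    rw [map_mul]
    calc _ ≤ γ * 1 := mul_le_mul' h5 h6
      _ = γ := mul_one _
  have hx2 : v (x₀ ^ 2) ≤ 1 := by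
    rw [map_pow]
    exact pow_le_one' hx 2
  have h2x : v (2 * x₀) ≤ 1 := by
    rw [map_mul]
    exact mul_le_one' h2 hx
  apply le_antisymm
  · refine max_le ?_ (max_le ?_ m2)
    · refine (v.map_add _ _).trans (max_le ((v.map_sub _ _).trans (max_le m0 ?_)) ?_)
      · exact aux _ _ _ m1 hx
      · exact aux _ _ _ m2 hx2
    · refine (v.map_sub _ _).trans (max_le m1 ?_)
      have e5 : 2 * c₂ * x₀ = c₂ * (2 * x₀) := by ring
      rw [e5]
      exact aux _ _ _ m2 h2x
  · obtain ⟨n, hn⟩ : ∃ n, n = max (v (c₀ - c₁ * x₀ + c₂ * x₀ ^ 2)) (max (v (c₁ - 2 * c₂ * x₀)) (v c₂)) :=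
      ⟨_, rfl⟩
    rw [← hn, hm]
    have n0 : v (c₀ - c₁ * x₀ + c₂ * x₀ ^ 2) ≤ n := by rw [hn]; exact le_max_left _ _
    have n1 : v (c₁ - 2 * c₂ * x₀) ≤ n := by rw [hn]; exact (le_max_left _ _).trans (le_max_right _ _)
    have n2 : v c₂ ≤ n := by rw [hn]; exact (le_max_right _ _).trans (le_max_right _ _)
    have n1' : v c₁ ≤ n := by
      have e5 : c₁ = (c₁ - 2 * c₂ * x₀) + c₂ * (2 * x₀) := by ring
      rw [e5]
      exact (v.map_add _ _).trans (max_le n1 (aux _ _ _ n2 h2x))
    refine max_le ?_ (max_le n1' n2)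
    have e5 : c₀ = (c₀ - c₁ * x₀ + c₂ * x₀ ^ 2) + (c₁ * x₀ - c₂ * x₀ ^ 2) := by ring
    rw [e5]
    exact (v.map_add _ _).trans (max_le n0 ((v.map_sub _ _).trans
      (max_le (aux _ _ _ n1' hx) (aux _ _ _ n2 hx2))))

end val

end Pool.Agent.V7H54.V3
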